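import Pool.Agent.Lib.MP_e0d433_co.Six.Spec

/-!
# MP_e0d433_co, project Six: arithmetic of the scores
-/

set_option autoImplicit false

namespace Pool.Agent.Lib.MP_e0d433_co.Six

open scoped BigOperators

/-- the arithmetic -/
theorem Cas_arith (m : ℕ) (σ : Fin m → ℤ) (L : Fin m → ℕ) (hL : ∑ i, L i ≤ 120)
    (h8 : ∀ i, σ i ≤ 8) (g4 : ∀ i, 4 ≤ σ i → 20 ≤ L i) (g5 : ∀ i, 5 ≤ σ i → 33 ≤ L i)
    (g6 : ∀ i, 6 ≤ σ i → 46 ≤ L i)
    (p8 : ∀ i j, i ≠ j → 8 ≤ σ i → 4 ≤ σ j → False)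
    (p7 : ∀ i j, i ≠ j → 7 ≤ σ i → 5 ≤ σ j → False)
    (p6 : ∀ i j k, i ≠ j → i ≠ k → j ≠ k → 6 ≤ σ i → 5 ≤ σ j → 5 ≤ σ k → False) :
    ∑ i, (σ i - 4) ≤ 4 ∧
    (∑ i, (σ i - 4) = 4 →
      (∃ i, σ i = 8 ∧ ∀ j, j = i) ∨
      (∃ i j, i ≠ j ∧ σ i = 6 ∧ σ j = 6 ∧
        ((∀ k, k = i ∨ k = j) ∨
          ∃ l, l ≠ i ∧ l ≠ j ∧ σ l = 4 ∧ ∀ k, k = i ∨ k = j ∨ k = l))) := by
  classical
  by_cases hA : ∃ i, 8 ≤ σ i
  · obtain ⟨i, hi⟩ := hA
    have hi8 : σ i = 8 := le_antisymm (h8 i) hi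
    have hsum : ∑ j, (σ j - 4) = (σ i - 4) + ∑ j ∈ Finset.univ.erase i, (σ j - 4) :=
      (Finset.add_sum_erase _ (fun j => σ j - 4) (Finset.mem_univ i)).symm
    have hle : ∑ j ∈ Finset.univ.erase i, (σ j - 4) ≤ ∑ j ∈ Finset.univ.erase i, (-1 : ℤ) := by
      refine Finset.sum_le_sum (fun j hj => ?_)
      have hji : i ≠ j := fun h => (Finset.ne_of_mem_erase hj) h.symm
      by_contra hcon
      exact p8 i j hji hi (by omega)
    rw [Finset.sum_const, nsmul_eq_mul, mul_neg, mul_one] at hle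
    refine ⟨by rw [hsum, hi8]; omega, ?_⟩
    intro heq
    left
    refine ⟨i, hi8, ?_⟩
    have hcard : (Finset.univ.erase i).card = 0 := by
      rw [hsum, hi8] at heq
      omega
    intro j
    by_contra hj
    have : j ∈ Finset.univ.erase i := Finset.mem_erase.2 ⟨hj, Finset.mem_univ j⟩
    rw [Finset.card_eq_zero.1 hcard] at this
    exact Finset.notMem_empty j this
  push Not at hA
  by_cases hB : ∃ i, 7 ≤ σ i
  · obtain ⟨i, hi⟩ := hB
    have hi7 : σ i ≤ 7 := by
      have := hA i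
      omega
    have hsum : ∑ j, (σ j - 4) = (σ i - 4) + ∑ j ∈ Finset.univ.erase i, (σ j - 4) :=
      (Finset.add_sum_erase _ (fun j => σ j - 4) (Finset.mem_univ i)).symm
    have hle : ∑ j ∈ Finset.univ.erase i, (σ j - 4) ≤ ∑ j ∈ Finset.univ.erase i, (0 : ℤ) := by
      refine Finset.sum_le_sum (fun j hj => ?_)
      have hji : i ≠ j := fun h => (Finset.ne_of_mem_erase hj) h.symm
      by_contra hcon
      exact p7 i j hji hi (by omega)
    rw [Finset.sum_const_zero] at hle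
    have h3 : ∑ j, (σ j - 4) ≤ 3 := by rw [hsum]; omega
    exact ⟨by omega, fun h => absurd h (by omega)⟩
  push Not at hB
  set A := Finset.univ.filter (fun i => σ i = 6) with hAdef
  set B := Finset.univ.filter (fun i => σ i = 5) with hBdef
  set C := Finset.univ.filter (fun i => σ i = 4) with hCdef
  set D := Finset.univ.filter (fun i => σ i ≤ 3) with hDdef
  have cA : ((A.card : ℕ) : ℤ) = ∑ i, (if σ i = 6 then 1 else 0 : ℤ) := by
    rw [hAdef, Finset.card_filter]
    push_cast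
    rfl
  have cB : ((B.card : ℕ) : ℤ) = ∑ i, (if σ i = 5 then 1 else 0 : ℤ) := by
    rw [hBdef, Finset.card_filter]
    push_cast
    rfl
  have cC : ((C.card : ℕ) : ℤ) = ∑ i, (if σ i = 4 then 1 else 0 : ℤ) := by
    rw [hCdef, Finset.card_filter]
    push_cast
    rfl
  have cD : ((D.card : ℕ) : ℤ) = ∑ i, (if σ i ≤ 3 then 1 else 0 : ℤ) := by
    rw [hDdef, Finset.card_filter]
    push_cast
    rfl
  have hL' : ∑ i, (L i : ℤ) ≤ 120 := by exact_mod_cast hL
  have s1 : ∑ i, (σ i - 4) ≤ 2 * (A.card : ℤ) + B.card - D.card := by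
    rw [cA, cB, cD, Finset.mul_sum, ← Finset.sum_add_distrib, ← Finset.sum_sub_distrib]
    refine Finset.sum_le_sum (fun i _ => ?_)
    have h7 := hB i
    split_ifs <;> omega
  have s2 : 46 * (A.card : ℤ) + 33 * B.card + 20 * C.card ≤ 120 := by
    refine le_trans ?_ hL'
    rw [cA, cB, cC, Finset.mul_sum, Finset.mul_sum, Finset.mul_sum, ← Finset.sum_add_distrib,
      ← Finset.sum_add_distrib]
    refine Finset.sum_le_sum (fun i _ => ?_)
    have h4 := g4 i
    have h5 := g5 i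
    have h6 := g6 i
    split_ifs <;> omega
  have hAB : A.card = 1 → B.card ≤ 1 := by
    intro h1
    by_contra h2
    push Not at h2
    obtain ⟨i, hi⟩ := Finset.card_eq_one.1 h1
    obtain ⟨j, hj, k, hk, hjk⟩ := Finset.one_lt_card.1 h2
    have hi6 : σ i = 6 := by
      have : i ∈ A := by rw [hi]; exact Finset.mem_singleton_self i
      exact (Finset.mem_filter.1 this).2
    have hj5 : σ j = 5 := (Finset.mem_filter.1 hj).2
    have hk5 : σ k = 5 := (Finset.mem_filter.1 hk).2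
    exact p6 i j k (fun h => by rw [h] at hi6; omega) (fun h => by rw [h] at hi6; omega) hjk
      (by omega) (by omega) (by omega)
  refine ⟨by omega, ?_⟩
  intro heq
  right
  have hA2 : A.card = 2 := by omega
  have hB0 : B.card = 0 := by omega
  have hD0 : D.card = 0 := by omega
  have hC1 : C.card ≤ 1 := by omega
  obtain ⟨i, j, hij, hAe⟩ := Finset.card_eq_two.1 hA2
  have hi6 : σ i = 6 := by
    have : i ∈ A := by rw [hAe]; simp
    exact (Finset.mem_filter.1 this).2
  have hj6 : σ j = 6 := by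
    have : j ∈ A := by rw [hAe]; simp
    exact (Finset.mem_filter.1 this).2
  have hall : ∀ k, k = i ∨ k = j ∨ k ∈ C := by
    intro k
    have h7 := hB k
    have hb : k ∉ B := by
      rw [Finset.card_eq_zero.1 hB0]
      exact Finset.notMem_empty k
    have hd : k ∉ D := by
      rw [Finset.card_eq_zero.1 hD0]
      exact Finset.notMem_empty k
    have hb' : σ k ≠ 5 := fun h => hb (Finset.mem_filter.2 ⟨Finset.mem_univ k, h⟩)
    have hd' : ¬ σ k ≤ 3 := fun h => hd (Finset.mem_filter.2 ⟨Finset.mem_univ k, h⟩)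
    rcases (by omega : σ k = 6 ∨ σ k = 4) with h | h
    · have : k ∈ A := Finset.mem_filter.2 ⟨Finset.mem_univ k, h⟩
      rw [hAe, Finset.mem_insert, Finset.mem_singleton] at this
      tauto
    · exact Or.inr (Or.inr (Finset.mem_filter.2 ⟨Finset.mem_univ k, h⟩))
  refine ⟨i, j, hij, hi6, hj6, ?_⟩
  rcases Nat.eq_zero_or_pos C.card with hC0 | hC0
  · left
    intro k
    rcases hall k with h | h | h
    · exact Or.inl h
    · exact Or.inr h
    · rw [Finset.card_eq_zero.1 hC0] at h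
      exact absurd h (Finset.notMem_empty k)
  · right
    obtain ⟨l, hl⟩ := Finset.card_eq_one.1 (le_antisymm hC1 hC0)
    have hl4 : σ l = 4 := by
      have : l ∈ C := by rw [hl]; exact Finset.mem_singleton_self l
      exact (Finset.mem_filter.1 this).2
    refine ⟨l, fun h => by rw [h] at hl4; omega, fun h => by rw [h] at hl4; omega, hl4, ?_⟩
    intro k
    rcases hall k with h | h | h
    · exact Or.inl h
    · exact Or.inr (Or.inl h)
    · rw [hl, Finset.mem_singleton] at h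
      exact Or.inr (Or.inr h)

theorem tCas (hSub : S_Sub) (hSiz : S_Siz) (hMa1 : S_Ma1) : S_Cas := by
  intro m y st hok hdis
  obtain ⟨-, -, -, -, hsum⟩ := hSub
  obtain ⟨m8, m7, m6⟩ := hMa1
  refine Cas_arith m (fun i => score (st i)) (fun i => (st i).length + 1) (hsum m y st hok hdis)
    (fun i => (hSiz (y i) (st i) (hok i)).1) (fun i => (hSiz (y i) (st i) (hok i)).2.1)
    (fun i => (hSiz (y i) (st i) (hok i)).2.2.1) (fun i => (hSiz (y i) (st i) (hok i)).2.2.2.1)
    (fun i j hij => m8 (y i) (y j) (st i) (st j) (hok i) (hok j) (hdis i j hij))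
    (fun i j hij => m7 (y i) (y j) (st i) (st j) (hok i) (hok j) (hdis i j hij))
    (fun i j k hij hik hjk => m6 (y i) (y j) (y k) (st i) (st j) (st k) (hok i) (hok j) (hok k)
      (hdis i j hij) (hdis i k hik) (hdis j k hjk))

end Pool.Agent.Lib.MP_e0d433_co.Six
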