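import Pool.Agent.Lib.MP_e0d433_co.Six.Spec

/-!
# MP_e0d433_co, project Six: configurations (Cfc)
-/

set_option autoImplicit false

namespace Pool.Agent.Lib.MP_e0d433_co.Six

theorem tCfc (hExt : S_Ext) (hZc : S_Zc) : S_Cfc := by
  intro m ps h hm
  unfold cfgc at h
  rw [Bool.and_eq_true, List.all_eq_true] at h
  refine ⟨fun P hP => ?_, hZc m _ h.2 hm⟩
  have h1 := h.1 (idx P.1, idx (lastF P.1 P.2)) (List.mem_map.2 ⟨P, hP, rfl⟩)
  rw [Bool.and_eq_true] at h1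
  exact ⟨hExt.1 121 m _ _ h1.1 hm, hExt.2 121 m _ _ h1.2 hm⟩

end Pool.Agent.Lib.MP_e0d433_co.Six
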