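import Pool.Agent.Lib.MP_e0d433_co.Six.Spec

/-!
# MP_e0d433_co, project Six, module Clp: closed pieces
-/

set_option autoImplicit false

namespace Pool.Agent.Lib.MP_e0d433_co.Six

open scoped BigOperators

private theorem Clp_fl_rep0 (k : ℕ) : ∀ y : G, fl y (List.replicate k none) =
    (List.range (k + 1)).map fun i => y * sig ^ i := by
  induction k with
  | zero =>
    intro y
    simp [fl]
  | succ k ih =>
    intro y
    rw [List.replicate_succ, fl, ih, List.range_succ_eq_map (n := k + 1), List.map_cons,
      List.map_map, pow_zero, mul_one]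
    congr 1
    refine List.map_congr_left fun i _ => ?_
    change y * sig * sig ^ i = y * sig ^ (i + 1)
    rw [pow_succ', mul_assoc]

private theorem Clp_fl_rep (k : ℕ) (s : Step) (l : List Step) : ∀ y : G,
    fl y (List.replicate k none ++ s :: l) =
      ((List.range (k + 1)).map fun i => y * sig ^ i) ++ fl (y * sig ^ k * stp s) l := by
  induction k with
  | zero =>
    intro y
    simp [fl]
  | succ k ih =>
    intro y
    rw [List.replicate_succ, List.cons_append, fl, ih, List.range_succ_eq_map (n := k + 1),
      List.map_cons, List.map_map, pow_zero, mul_one, List.cons_append]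
    have h1 : y * stp none * sig ^ k = y * sig ^ (k + 1) := by
      change y * sig * sig ^ k = _
      rw [pow_succ', mul_assoc]
    rw [h1]
    congr 2
    refine List.map_congr_left fun i _ => ?_
    change y * sig * sig ^ i = y * sig ^ (i + 1)
    rw [pow_succ', mul_assoc]

private theorem Clp_last_rep0 (k : ℕ) : ∀ y : G, lastF y (List.replicate k none) = y * sig ^ k := by
  induction k with
  | zero =>
    intro y
    simp [lastF]
  | succ k ih =>
    intro y
    rw [List.replicate_succ, lastF, ih]
    change y * sig * sig ^ k = y * sig ^ (k + 1)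
    rw [pow_succ', mul_assoc]

private theorem Clp_last_rep (k : ℕ) (s : Step) (l : List Step) : ∀ y : G,
    lastF y (List.replicate k none ++ s :: l) = lastF (y * sig ^ k * stp s) l := by
  induction k with
  | zero =>
    intro y
    simp [lastF]
  | succ k ih =>
    intro y
    rw [List.replicate_succ, List.cons_append, lastF, ih]
    have h1 : y * stp none * sig ^ k = y * sig ^ (k + 1) := by
      change y * sig * sig ^ k = _
      rw [pow_succ', mul_assoc]
    rw [h1]

private theorem Clp_wsum_rep0 (k : ℕ) : wsum (List.replicate k none) = k := by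
  simp [wsum, wt]

private theorem Clp_wsum_rep (k : ℕ) (t : Fin 4) (l : List Step) :
    wsum (List.replicate k none ++ some t :: l) = k - 3 + wsum l := by
  simp [wsum, wt]
  ring

private theorem Clp_pos_rep0 (k : ℕ) : ∀ c : ℤ, Pos c (List.replicate k none) := by
  induction k with
  | zero =>
    intro c
    exact trivial
  | succ k ih =>
    intro c
    rw [List.replicate_succ]
    exact ih (c + 1)

private theorem Clp_pos_rep (k : ℕ) (t : Fin 4) (l : List Step) : ∀ c : ℤ, 1 ≤ c + k →
    Pos (c + k - 3) l → Pos c (List.replicate k none ++ some t :: l) := by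
  induction k with
  | zero =>
    intro c h1 h2
    rw [Nat.cast_zero, add_zero] at h1 h2
    exact ⟨h1, h2⟩
  | succ k ih =>
    intro c h1 h2
    rw [List.replicate_succ, List.cons_append]
    refine ih (c + 1) ?_ ?_
    · push_cast at h1 ⊢
      linarith
    · have h3 : c + 1 + (k : ℤ) - 3 = c + ((k + 1 : ℕ) : ℤ) - 3 := by
        push_cast
        ring
      rw [h3]
      exact h2

private theorem Clp_last_mem (l : List Step) : ∀ y : G, lastF y l ∈ fl y l := by
  induction l with
  | nil =>
    intro y
    exact List.mem_singleton.2 rfl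
  | cons s l ih =>
    intro y
    exact List.mem_cons_of_mem _ (ih _)

private theorem Clp_last_mem_fl (v : Vis) : v.last ∈ v.fl :=
  List.mem_map.2 ⟨v.k, List.mem_range.2 (Nat.lt_succ_self _), rfl⟩

private theorem Clp_y_mem_fl (v : Vis) : v.y ∈ v.fl :=
  List.mem_map.2 ⟨0, List.mem_range.2 (Nat.succ_pos _), by rw [pow_zero, mul_one]⟩

private theorem Clp_word (hCan : S_Can) (vs : List Vis) : ∀ v : Vis,
    (v :: vs).IsChain VLink → (∀ w ∈ v :: vs, w.e = 2) → ((vfl (v :: vs)).map can).Nodup →
    ∃ st : List Step, fl v.y st = vfl (v :: vs) ∧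
      (∀ w ∈ (v :: vs).getLast?, lastF v.y st = w.last) ∧
      wsum st = ((v :: vs).map fun w => (w.k : ℤ) - 3).sum + 3 ∧
      ∀ c : ℤ, (∀ j, 0 < j → j ≤ vs.length →
        1 ≤ c + 3 + (((v :: vs).map fun w => (w.k : ℤ) - 3).take j).sum) → Pos c st := by
  induction vs with
  | nil =>
    intro v _ _ _
    refine ⟨List.replicate v.k none, ?_, ?_, ?_, ?_⟩
    · rw [Clp_fl_rep0]
      simp [vfl, Vis.fl]
    · intro w hw
      rw [List.getLast?_singleton, Option.mem_some_iff] at hw
      rw [← hw, Clp_last_rep0]
      rfl
    · rw [Clp_wsum_rep0]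
      simp
    · intro c _
      exact Clp_pos_rep0 _ _
  | cons w vs ih =>
    intro v hch he hnd
    rw [List.isChain_cons_cons] at hch
    have hvfl : vfl (v :: w :: vs) = v.fl ++ vfl (w :: vs) := by
      rw [vfl, List.flatMap_cons, vfl]
    rw [hvfl, List.map_append] at hnd
    obtain ⟨hnd1, hnd2, hdis⟩ := List.nodup_append.1 hnd
    obtain ⟨st, h1, h2, h3, h4⟩ := ih w hch.2 (fun u hu => he u (List.mem_cons_of_mem _ hu)) hnd2
    have hlink : ∃ t, w.y = v.last * jp t := by
      rcases hch.1 (he w (List.mem_cons_of_mem _ List.mem_cons_self)) with h | h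
      · exact h
      · exfalso
        have h5 : can v.last ∈ v.fl.map can := List.mem_map_of_mem (Clp_last_mem_fl v)
        have h6 : can w.y ∈ (vfl (w :: vs)).map can := by
          refine List.mem_map_of_mem ?_
          rw [vfl, List.flatMap_cons]
          exact List.mem_append_left _ (Clp_y_mem_fl w)
        refine hdis _ h5 _ h6 ?_
        rw [h, hCan.2.1]
    obtain ⟨t, ht⟩ := hlink
    refine ⟨List.replicate v.k none ++ some t :: st, ?_, ?_, ?_, ?_⟩
    · rw [Clp_fl_rep, hvfl]
      change v.fl ++ fl (v.last * jp t) st = _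
      rw [← ht, h1]
    · intro u hu
      rw [List.getLast?_cons_cons] at hu
      rw [Clp_last_rep]
      change lastF (v.last * jp t) st = _
      rw [← ht]
      exact h2 u hu
    · rw [Clp_wsum_rep, h3, List.map_cons, List.sum_cons]
      simp only [List.map_cons, List.sum_cons]
      ring
    · intro c hc
      refine Clp_pos_rep _ _ _ _ ?_ (h4 _ ?_)
      · have h5 := hc 1 Nat.one_pos (by simp)
        simp at h5
        linarith
      · intro j hj0 hj
        have h5 := hc (j + 1) (Nat.succ_pos _) (by rw [List.length_cons]; omega)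
        rw [List.map_cons, List.take_succ_cons, List.sum_cons] at h5
        linarith

private theorem Clp_rot (a b : List Vis) (h : CPath (a ++ b)) : CPath (b ++ a) := by
  rcases eq_or_ne a [] with ha | ha
  · subst ha
    rwa [List.append_nil]
  rcases eq_or_ne b [] with hb | hb
  · subst hb
    rw [List.append_nil] at h
    exact h
  obtain ⟨⟨h1, h2⟩, h3⟩ := h
  rw [List.isChain_append] at h2
  rw [List.getLast?_append_of_ne_nil _ hb, List.head?_append_of_ne_nil _ ha] at h3
  refine ⟨⟨?_, ?_⟩, ?_⟩
  · intro v hv
    refine h1 v ?_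
    rw [List.mem_append] at hv ⊢
    exact hv.symm
  · rw [List.isChain_append]
    exact ⟨h2.2.1, h2.1, h3⟩
  · rw [List.getLast?_append_of_ne_nil _ ha, List.head?_append_of_ne_nil _ hb]
    exact h2.2.2

private theorem Clp_rotate (vs : List Vis) (n : ℕ) (h : CPath vs) : CPath (vs.rotate n) := by
  rw [← List.rotate_mod]
  rcases eq_or_ne vs [] with hv | hv
  · subst hv
    rw [List.rotate_nil]
    exact h
  have hlt : n % vs.length ≤ vs.length :=
    (Nat.mod_lt _ (List.length_pos_of_ne_nil hv)).le
  rw [List.rotate_eq_drop_append_take hlt]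
  refine Clp_rot _ _ ?_
  rw [List.take_append_drop]
  exact h

/-- closed pieces -/
theorem tClp (hCan : S_Can) (hQC : S_QC) (hCyl : S_Cyl) : S_Clp := by
  intro vs hne hC he hnd
  have hlen : ((vfl vs).length : ℤ) = (vs.map fun w => (w.k : ℤ) - 3).sum + 4 * vs.length := by
    clear hnd hC he hne
    induction vs with
    | nil => simp [vfl]
    | cons v vs ih =>
      have h1 : vfl (v :: vs) = v.fl ++ vfl vs := by
        rw [vfl, List.flatMap_cons, vfl]
      rw [h1, List.length_append, List.map_cons, List.sum_cons, List.length_cons, Nat.cast_add, ih]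
      have h2 : v.fl.length = v.k + 1 := by
        rw [Vis.fl, List.length_map, List.length_range]
      rw [h2]
      push_cast
      ring
  have hcost : (vcost vs : ℤ) = (vs.map fun w => (w.k : ℤ) - 3).sum + 5 * vs.length := by
    clear hnd hC hne hlen
    induction vs with
    | nil => simp [vcost]
    | cons v vs ih =>
      have h1 := ih fun w hw => he w (List.mem_cons_of_mem _ hw)
      have h2 : vcost (v :: vs) = v.k + v.e + vcost vs := by
        rw [vcost, List.map_cons, List.sum_cons, vcost]
      rw [h2, List.map_cons, List.sum_cons, List.length_cons, he v List.mem_cons_self]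
      push_cast
      rw [h1]
      ring
  have hcard : (vcs vs).card = (vfl vs).length := by
    rw [vcs, List.toFinset_card_of_nodup hnd, List.length_map]
  by_contra hcon
  push Not at hcon
  have hS : 5 ≤ (vs.map fun w => (w.k : ℤ) - 3).sum := by
    rw [hcard] at hcon
    have h1 : (4 * vcost vs + 4 : ℤ) < 5 * ((vfl vs).length : ℤ) := by exact_mod_cast hcon
    rw [hlen, hcost] at h1
    linarith
  obtain ⟨n, hn⟩ := hCyl (vs.map fun w => (w.k : ℤ) - 3) (by linarith)
  have hperm : (vs.rotate n).Perm vs := List.rotate_perm vs n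
  have hC' := Clp_rotate vs n hC
  have hS' : 5 ≤ ((vs.rotate n).map fun w => (w.k : ℤ) - 3).sum := by
    rw [(hperm.map _).sum_eq]
    exact hS
  have hnd' : ((vfl (vs.rotate n)).map can).Nodup := by
    have h1 : ((vfl (vs.rotate n)).map can).Perm ((vfl vs).map can) :=
      (hperm.flatMap_right Vis.fl).map can
    exact h1.nodup_iff.2 hnd
  have he' : ∀ w ∈ vs.rotate n, w.e = 2 := fun w hw => he w (hperm.mem_iff.1 hw)
  rw [← List.map_rotate, List.length_map] at hn
  have hlr : (vs.rotate n).length = vs.length := List.length_rotate ..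
  rw [← hlr] at hn
  generalize vs.rotate n = us at hC' hS' hnd' he' hn
  cases us with
  | nil => simp at hS'
  | cons v us =>
    obtain ⟨st, h1, h2, h3, h4⟩ := Clp_word hCan us v hC'.1.2 he' hnd'
    have hlast : ∃ w, w ∈ (v :: us).getLast? := by
      rw [List.getLast?_eq_some_getLast (List.cons_ne_nil _ _)]
      exact ⟨_, rfl⟩
    obtain ⟨w, hw⟩ := hlast
    have h5 := h2 w hw
    have hok : Ok v.y st := by
      rw [Ok, h1]
      exact hnd'
    have hsc : 5 ≤ score st := by
      rw [score, h3]
      linarith
    have hpos : Pos (-3) st := by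
      refine h4 _ fun j hj0 hj => ?_
      have h6 := hn j hj0 (by rw [List.length_cons]; omega)
      linarith
    rcases hC'.2 w hw v rfl (he' v List.mem_cons_self) with ⟨t, ht⟩ | ht
    · rw [← h5] at ht
      exact hQC v.y st hok hpos hsc t ht.symm
    · rw [← h5] at ht
      cases st with
      | nil => simp [score, wsum] at hsc
      | cons s l =>
        rw [Ok, fl, List.map_cons, List.nodup_cons] at hok
        refine hok.1 ?_
        have h6 : can v.y = can (lastF (v.y * stp s) l) := by
          conv_lhs => rw [ht]
          rw [hCan.2.1]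
          rfl
        rw [h6]
        exact List.mem_map_of_mem (Clp_last_mem _ _)

end Pool.Agent.Lib.MP_e0d433_co.Six
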