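import Pool.Agent.Lib.MP_e0d433_co.Six.Spec

/-!
# MP_e0d433_co, project Six, module Lev (helper4)
-/

set_option autoImplicit false

namespace Pool.Agent.Lib.MP_e0d433_co.Six

/-- a child for the digit `0` -/
theorem Lev_kid0 (n u m A v mx : ℕ) (w : List ℕ) :
    (kid (u, m, A, v, mx, w) 0).all (goS n) = (bt m (ch TT A 0 / 1024) ||
      go n (u + 1) (m + 2 ^ (ch TT A 0 / 1024)) (ch TT A 0 % 1024) (v + 1) mx (0 :: w)) := by
  simp only [kid, goS]
  by_cases h : bt m (ch TT A 0 / 1024) = true
  · simp [h]
  · rw [if_neg h]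
    simp only [Bool.not_eq_true] at h
    simp only [h, if_true, List.all_cons, List.all_nil, Bool.and_true, Bool.false_or]
    rfl

/-- a child for the digit `t + 1` -/
theorem Lev_kid1 (n u m A v mx t : ℕ) (w : List ℕ) (ht : t ≠ 0) :
    (kid (u, m, A, v, mx, w) t).all (goS n) = (bt m (ch TT A t / 1024) ||
      go n (u + 1) (m + 2 ^ (ch TT A t / 1024)) (ch TT A t % 1024) (v - 3) (max mx v) (t :: w)) := by
  simp only [kid, if_neg ht]
  by_cases h : bt m (ch TT A t / 1024) = true
  · simp [h]
  · rw [if_neg h]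
    simp only [Bool.not_eq_true] at h
    simp only [h, List.all_cons, List.all_nil, Bool.and_true, Bool.false_or]
    rfl

/-- unfolding of one level of the search -/
theorem Lev_succ (n : ℕ) (s : St) : goS (n + 1) s = (chkS s && (nxt s).all (goS n)) := by
  obtain ⟨u, m, A, v, mx, w⟩ := s
  have h1 : (nxt (u, m, A, v, mx, w)).all (goS n) =
      ((kid (u, m, A, v, mx, w) 0).all (goS n) && (Nat.ble v 4 ||
        ((kid (u, m, A, v, mx, w) 1).all (goS n) && (kid (u, m, A, v, mx, w) 2).all (goS n) &&
          (kid (u, m, A, v, mx, w) 3).all (goS n) && (kid (u, m, A, v, mx, w) 4).all (goS n)))) := by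
    simp only [nxt, List.all_append]
    by_cases h : Nat.ble v 4 = true
    · simp [h]
    · rw [if_neg h]
      simp only [Bool.not_eq_true] at h
      simp only [h, List.all_append, Bool.false_or]
  rw [h1, Lev_kid0, Lev_kid1 n u m A v mx 1 w (by decide), Lev_kid1 n u m A v mx 2 w (by decide),
    Lev_kid1 n u m A v mx 3 w (by decide), Lev_kid1 n u m A v mx 4 w (by decide)]
  simp only [goS, go, chkS, Bool.and_assoc]

theorem tLev : S_Lev := by
  intro k n
  induction n with
  | zero =>
    intro L _ h
    simpa [lev] using h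
  | succ n ih =>
    intro L h1 h2
    simp only [topc, Bool.and_eq_true] at h1
    have h3 := ih (L.flatMap nxt) h1.2 h2
    rw [List.all_eq_true] at h3 ⊢
    intro s hs
    have h4 := (List.all_eq_true.mp h1.1) s hs
    rw [show n + 1 + k = n + k + 1 by omega, Lev_succ, h4, Bool.true_and, List.all_eq_true]
    intro t ht
    exact h3 t (List.mem_flatMap.mpr ⟨s, hs, ht⟩)

end Pool.Agent.Lib.MP_e0d433_co.Six
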