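import Pool.Agent.Lib.MP_e0d433_co.Six.CmpP
import Pool.Agent.Lib.MP_e0d433_co.Six.Lev

/-!
# MP_e0d433_co, project Six: the main search, first quarter (computation)
-/

set_option autoImplicit false

namespace Pool.Agent.Lib.MP_e0d433_co.Six

/-- the state number 1 of level 34, as a list -/
private def one : List St := ((lev 34 [s0]).drop 1).take 1

private theorem a1_0 : part 0 1 = true := by decide +kernel

private theorem one_top : topc 10 one = true := by decide +kernel

private theorem one_len : Nat.ble (lev 10 one).length 39 = true := by decide +kernel

private theorem one_0 : pt (lev 10 one) 77 0 3 = true := by decide +kernel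

private theorem one_1 : pt (lev 10 one) 77 3 7 = true := by decide +kernel

private theorem one_2 : pt (lev 10 one) 77 10 10 = true := by decide +kernel

private theorem one_3 : pt (lev 10 one) 77 20 19 = true := by decide +kernel

private theorem a1_1 : part 1 1 = true := by
  have h1 : pt (lev 10 one) 77 0 10 = true := pt_app (lev 10 one) 77 0 3 7 one_0 one_1
  have h2 : pt (lev 10 one) 77 0 20 = true := pt_app (lev 10 one) 77 0 10 10 h1 one_2
  have h3 : pt (lev 10 one) 77 0 39 = true := pt_app (lev 10 one) 77 0 20 19 h2 one_3
  exact tLev 77 10 one one_top (pt_all (lev 10 one) 77 39 one_len h3)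

theorem CmpA_1 : part 0 2 = true := part_app 0 1 1 a1_0 a1_1

private theorem a2_0 : part 2 6 = true := by decide +kernel

private theorem a2_1 : part 8 1 = true := by decide +kernel

private theorem a2_2 : part 9 6 = true := by decide +kernel

theorem CmpA_2 : part 2 13 = true := by
  have h1 : part 2 7 = true := part_app 2 6 1 a2_0 a2_1
  have h2 : part 2 13 = true := part_app 2 7 6 h1 a2_2
  exact h2

end Pool.Agent.Lib.MP_e0d433_co.Six
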