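import Pool.Agent.Lib.MP_e0d433_co.Six.CmpP

/-!
# MP_e0d433_co, project Six: the main search, second quarter (computation)
-/

set_option autoImplicit false

namespace Pool.Agent.Lib.MP_e0d433_co.Six

private theorem a3_0 : part 15 1 = true := by decide +kernel

private theorem a3_1 : part 16 8 = true := by decide +kernel

private theorem a3_2 : part 24 30 = true := by decide +kernel

private theorem a3_3 : part 54 3 = true := by decide +kernel

theorem CmpA_3 : part 15 42 = true := by
  have h1 : part 15 9 = true := part_app 15 1 8 a3_0 a3_1
  have h2 : part 15 39 = true := part_app 15 9 30 h1 a3_2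
  have h3 : part 15 42 = true := part_app 15 39 3 h2 a3_3
  exact h3

private theorem a4_0 : part 57 1 = true := by decide +kernel

private theorem a4_1 : part 58 16 = true := by decide +kernel

private theorem a4_2 : part 74 22 = true := by decide +kernel

private theorem a4_3 : part 96 8 = true := by decide +kernel

theorem CmpA_4 : part 57 47 = true := by
  have h1 : part 57 17 = true := part_app 57 1 16 a4_0 a4_1
  have h2 : part 57 39 = true := part_app 57 17 22 h1 a4_2
  have h3 : part 57 47 = true := part_app 57 39 8 h2 a4_3
  exact h3

end Pool.Agent.Lib.MP_e0d433_co.Six
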