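import Pool.Agent.Lib.MP_e0d433_co.Six.CmpP

/-!
# MP_e0d433_co, project Six: the main search, third quarter (computation)
-/

set_option autoImplicit false

namespace Pool.Agent.Lib.MP_e0d433_co.Six

private theorem a5_0 : part 104 26 = true := by decide +kernel

private theorem a5_1 : part 130 9 = true := by decide +kernel

private theorem a5_2 : part 139 15 = true := by decide +kernel

private theorem a5_3 : part 154 31 = true := by decide +kernel

private theorem a5_4 : part 185 3 = true := by decide +kernel

theorem CmpA_5 : part 104 84 = true := by
  have h1 : part 104 35 = true := part_app 104 26 9 a5_0 a5_1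
  have h2 : part 104 50 = true := part_app 104 35 15 h1 a5_2
  have h3 : part 104 81 = true := part_app 104 50 31 h2 a5_3
  have h4 : part 104 84 = true := part_app 104 81 3 h3 a5_4
  exact h4

private theorem a6_0 : part 188 22 = true := by decide +kernel

private theorem a6_1 : part 210 1 = true := by decide +kernel

private theorem a6_2 : part 211 32 = true := by decide +kernel

private theorem a6_3 : part 243 9 = true := by decide +kernel

theorem CmpA_6 : part 188 64 = true := by
  have h1 : part 188 23 = true := part_app 188 22 1 a6_0 a6_1
  have h2 : part 188 55 = true := part_app 188 23 32 h1 a6_2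
  have h3 : part 188 64 = true := part_app 188 55 9 h2 a6_3
  exact h3

end Pool.Agent.Lib.MP_e0d433_co.Six
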