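import Pool.Agent.Lib.MP_e0d433_co.Six.CmpP

/-!
# MP_e0d433_co, project Six: the main search, last quarter (computation)
-/

set_option autoImplicit false

namespace Pool.Agent.Lib.MP_e0d433_co.Six

private theorem a7_0 : part 252 20 = true := by decide +kernel

private theorem a7_1 : part 272 18 = true := by decide +kernel

private theorem a7_2 : part 290 1 = true := by decide +kernel

private theorem a7_3 : part 291 24 = true := by decide +kernel

private theorem a7_4 : part 315 12 = true := by decide +kernel

theorem CmpA_7 : part 252 75 = true := by
  have h1 : part 252 38 = true := part_app 252 20 18 a7_0 a7_1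
  have h2 : part 252 39 = true := part_app 252 38 1 h1 a7_2
  have h3 : part 252 63 = true := part_app 252 39 24 h2 a7_3
  have h4 : part 252 75 = true := part_app 252 63 12 h3 a7_4
  exact h4

private theorem a8_0 : part 327 21 = true := by decide +kernel

private theorem a8_1 : part 348 8 = true := by decide +kernel

private theorem a8_2 : part 356 17 = true := by decide +kernel

theorem CmpA_8 : part 327 46 = true := by
  have h1 : part 327 29 = true := part_app 327 21 8 a8_0 a8_1
  have h2 : part 327 46 = true := part_app 327 29 17 h1 a8_2
  exact h2

end Pool.Agent.Lib.MP_e0d433_co.Six
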