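import Pool.Agent.Lib.MP_e0d433_co.Six.Spec
import Pool.Agent.Lib.MP_e0d433_co.Six.CmpA1
import Pool.Agent.Lib.MP_e0d433_co.Six.CmpA2
import Pool.Agent.Lib.MP_e0d433_co.Six.CmpA3
import Pool.Agent.Lib.MP_e0d433_co.Six.CmpA4

/-!
# MP_e0d433_co, project Six: the main search (computation)
-/

set_option autoImplicit false

namespace Pool.Agent.Lib.MP_e0d433_co.Six

private theorem CmpA_top : topc 34 [s0] = true := by decide +kernel

private theorem CmpA_len : Nat.ble (lev 34 [s0]).length 373 = true := by decide +kernel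

private theorem CmpA_app {α : Type} (p : α → Bool) (L : List α) (a b : ℕ)
    (h1 : (L.take a).all p = true) (h2 : ((L.drop a).take b).all p = true) :
    (L.take (a + b)).all p = true := by
  rw [List.take_add, List.all_append, h1, h2]
  rfl

theorem tCmpA (hLev : S_Lev) : S_CmpA := by
  have h0 : ((lev 34 [s0]).take 0).all (goS 87) = true := rfl
  have h1 := CmpA_app (goS 87) (lev 34 [s0]) 0 2 h0 CmpA_1
  have h2 := CmpA_app (goS 87) (lev 34 [s0]) 2 13 h1 CmpA_2
  have h3 := CmpA_app (goS 87) (lev 34 [s0]) 15 42 h2 CmpA_3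
  have h4 := CmpA_app (goS 87) (lev 34 [s0]) 57 47 h3 CmpA_4
  have h5 := CmpA_app (goS 87) (lev 34 [s0]) 104 84 h4 CmpA_5
  have h6 := CmpA_app (goS 87) (lev 34 [s0]) 188 64 h5 CmpA_6
  have h7 := CmpA_app (goS 87) (lev 34 [s0]) 252 75 h6 CmpA_7
  have h8 := CmpA_app (goS 87) (lev 34 [s0]) 327 46 h7 CmpA_8
  rw [List.take_of_length_le (Nat.le_of_ble_eq_true CmpA_len)] at h8
  have h9 := hLev 87 34 [s0] CmpA_top h8
  rw [List.all_cons, List.all_nil, Bool.and_true] at h9
  exact h9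

end Pool.Agent.Lib.MP_e0d433_co.Six
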