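import Pool.Agent.Lib.MP_e0d433_co.Six.Spec

/-!
# Computations for the words of score `8`, `7` and the first word of score `6`
-/

set_option autoImplicit false

namespace Pool.Agent.Lib.MP_e0d433_co.Six

theorem CmpB_8 : (W8.all c8) = true := by decide +kernel

theorem CmpB_7 : (W7.all c75) = true := by decide +kernel

theorem CmpB_6 : ((W6.take 1).all c655) = true := by decide +kernel

theorem tCmpB : S_CmpB := ⟨CmpB_8, CmpB_7, CmpB_6⟩

end Pool.Agent.Lib.MP_e0d433_co.Six
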