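import Pool.Agent.Lib.MP_e0d433_co.Six.Spec

/-!
# Computations for pairs of words of score `6`: the first word with the first eight words
-/

set_option autoImplicit false

namespace Pool.Agent.Lib.MP_e0d433_co.Six

/-- the walk of `dw` -/
private def wk : List ℕ → ℕ → ℕ → Option (ℕ × ℕ)
  | [], m, A => some (m, A)
  | d :: l, m, A =>
    if bt m (ch TT A d / 1024) then none
    else wk l (m + 2 ^ (ch TT A d / 1024)) (ch TT A d % 1024)

private theorem dw_iff : ∀ (l : List ℕ) (m A : ℕ) (F : ℕ → ℕ → Bool),
    dw l m A F = true ↔ ∀ x y, wk l m A = some (x, y) → F x y = true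
  | [], m, A, F => by
    rw [dw, wk]
    constructor
    · intro h x y e
      injection e with e
      injection e with e1 e2
      rw [← e1, ← e2]
      exact h
    · intro h
      exact h m A rfl
  | d :: l, m, A, F => by
    rw [dw, wk]
    by_cases hb : bt m (ch TT A d / 1024) = true
    · rw [hb, if_pos rfl, Bool.true_or]
      constructor
      · intro _ x y e
        exact absurd e (by simp)
      · intro _
        rfl
    · rw [if_neg hb]
      rw [Bool.eq_false_iff.2 hb, Bool.false_or]
      exact dw_iff l _ _ F

private theorem sdw_iff (l : List ℕ) (m h : ℕ) (F : ℕ → ℕ → Bool) :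
    sdw l m h F = true ↔ bt m (cR h / 1024) = true ∨
      ∀ x y, wk l (m + 2 ^ (cR h / 1024)) h = some (x, y) → F x y = true := by
  rw [sdw, Bool.or_eq_true, dw_iff]

/-- the inner check of `c66` -/
private def bdy (a b : List ℕ) (m la h : ℕ) : Bool := sdw b m h fun m' lb =>
  cfgc m' [(0, la), (h, lb)] &&
    W4.all fun c => Nat.ble 118 (a.length + b.length + c.length) ||
      (List.range 720).all fun g => sdw c m' g fun m'' lc => cfgc m'' [(0, la), (h, lb), (g, lc)]

private theorem c66_eq (a b : List ℕ) : c66 a b = (Nat.ble 119 (a.length + b.length) ||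
    dw a 1 0 fun m la => (List.range 720).all fun h => bdy a b m la h) := rfl

private def bd (a b : List ℕ) (k n : ℕ) : Bool :=
  dw a 1 0 fun m la => (((List.range 720).drop k).take n).all fun h => bdy a b m la h

private theorem bd_add (a b : List ℕ) (n k : ℕ) (h1 : bd a b 0 n = true)
    (h2 : bd a b n k = true) : bd a b 0 (n + k) = true := by
  unfold bd at h1 h2 ⊢
  rw [dw_iff] at h1 h2 ⊢
  intro x y e
  have h1' := h1 x y e
  have h2' := h2 x y e
  rw [List.drop_zero] at h1'
  rw [List.drop_zero, List.take_add, List.all_append, Bool.and_eq_true]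
  exact ⟨h1', h2'⟩

private theorem bd_all (a b : List ℕ) (h : bd a b 0 720 = true) : c66 a b = true := by
  rw [c66_eq, Bool.or_eq_true]
  refine Or.inr ?_
  unfold bd at h
  rw [List.drop_zero, List.take_of_length_le (by rw [List.length_range])] at h
  exact h

private def r (k n : ℕ) : Bool := (W6.take 1).all fun a => (W6.take 1).all fun b => bd a b k n

private theorem r0 : r 0 86 = true := by decide +kernel

private theorem r1 : r 86 40 = true := by decide +kernel

private theorem r3 : r 127 593 = true := by decide +kernel

/-- walk along `a` from the flag 0 and then along `b` from the flag 126 -/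
private def two (F : List ℕ → List ℕ → ℕ → ℕ → ℕ → Bool) : Bool :=
  (W6.take 1).all fun a => (W6.take 1).all fun b => dw a 1 0 fun m la => sdw b m 126 fun m' lb =>
    F a b la m' lb

private theorem p1 : two (fun _ _ la m' _ => ext TT 121 m' la 0) = true := by decide +kernel

private theorem p2 : two (fun _ _ _ m' _ => ext TI 121 m' 0 0) = true := by decide +kernel

private theorem p3 : two (fun _ _ _ m' lb => ext TT 121 m' lb 0) = true := by decide +kernel

private theorem p4 : two (fun _ _ _ m' _ => ext TI 121 m' 126 0) = true := by decide +kernel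

private theorem p5 : two (fun a b la m' lb => zc m' &&
    W4.all fun c => Nat.ble 118 (a.length + b.length + c.length) ||
      (List.range 720).all fun g => sdw c m' g fun m'' lc =>
        cfgc m'' [(0, la), (126, lb), (g, lc)]) = true := by decide +kernel

private theorem r126 : (((List.range 720).drop 126).take 1) = [126] := by decide +kernel

private theorem cf2 (m la lb : ℕ) (h1 : ext TT 121 m la 0 = true) (h2 : ext TI 121 m 0 0 = true)
    (h3 : ext TT 121 m lb 0 = true) (h4 : ext TI 121 m 126 0 = true) (h5 : zc m = true) :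
    cfgc m [(0, la), (126, lb)] = true := by
  unfold cfgc
  rw [List.all_cons, List.all_cons, List.all_nil]
  dsimp only
  rw [h1, h2, h3, h4, h5]
  rfl

private theorem two_at {F : List ℕ → List ℕ → ℕ → ℕ → ℕ → Bool} (h : two F = true)
    {a b : List ℕ} (ha : a ∈ W6.take 1) (hb : b ∈ W6.take 1) {m la : ℕ}
    (e : wk a 1 0 = some (m, la)) (hn : ¬ bt m (cR 126 / 1024) = true) {m' lb : ℕ}
    (e' : wk b (m + 2 ^ (cR 126 / 1024)) 126 = some (m', lb)) : F a b la m' lb = true := by
  have h1 := List.all_eq_true.1 (List.all_eq_true.1 h a ha) b hb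
  rw [dw_iff] at h1
  have h2 := h1 m la e
  rw [sdw_iff] at h2
  rcases h2 with h2 | h2
  · exact absurd h2 hn
  · exact h2 m' lb e'

private theorem r2 : r 126 1 = true := by
  unfold r
  rw [List.all_eq_true]
  intro a ha
  rw [List.all_eq_true]
  intro b hb
  unfold bd
  rw [r126, dw_iff]
  intro m la e
  rw [List.all_cons, List.all_nil, Bool.and_true]
  unfold bdy
  rw [sdw_iff]
  by_cases hn : bt m (cR 126 / 1024) = true
  · exact Or.inl hn
  refine Or.inr ?_
  intro m' lb e'
  have h5 := two_at p5 ha hb e hn e'
  rw [Bool.and_eq_true] at h5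
  rw [Bool.and_eq_true]
  exact ⟨cf2 m' la lb (two_at p1 ha hb e hn e') (two_at p2 ha hb e hn e')
    (two_at p3 ha hb e hn e') (two_at p4 ha hb e hn e') h5.1, h5.2⟩

private def q (k : ℕ) : Bool :=
  (W6.take 1).all fun a => ((W6.drop k).take 1).all fun b => c66 a b

private theorem q0 : q 0 = true := by
  unfold q
  rw [List.all_eq_true]
  intro a ha
  rw [List.drop_zero, List.all_eq_true]
  intro b hb
  have f0 : bd a b 0 86 = true := List.all_eq_true.1 (List.all_eq_true.1 r0 a ha) b hb
  have f1 : bd a b 0 126 = true := bd_add a b 86 40 f0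
    (List.all_eq_true.1 (List.all_eq_true.1 r1 a ha) b hb)
  have f2 : bd a b 0 127 = true := bd_add a b 126 1 f1
    (List.all_eq_true.1 (List.all_eq_true.1 r2 a ha) b hb)
  have f3 : bd a b 0 720 = true := bd_add a b 127 593 f2
    (List.all_eq_true.1 (List.all_eq_true.1 r3 a ha) b hb)
  exact bd_all a b f3

private theorem q1 : ((W6.take 1).all fun a => ((W6.drop 1).take 7).all fun b => c66 a b) = true := by
  decide +kernel

private theorem tk {α : Type} (L : List α) (a b : ℕ) :
    L.take (a + b) = (L.drop 0).take a ++ (L.drop a).take b := by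
  rw [List.drop_zero, List.take_add]

theorem CmpC_1 : ((W6.take 1).all fun a => (W6.take 8).all fun b => c66 a b) = true := by
  rw [List.all_eq_true]
  intro a ha
  have h0 := List.all_eq_true.1 q0 a ha
  have h1 := List.all_eq_true.1 q1 a ha
  have e : W6.take 8 = (W6.drop 0).take 1 ++ (W6.drop 1).take 7 := tk W6 1 7
  rw [e, List.all_append, Bool.and_eq_true]
  exact ⟨h0, h1⟩

end Pool.Agent.Lib.MP_e0d433_co.Six
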