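import Pool.Agent.Lib.MP_e0d433_co.Six.Spec

/-!
# Computations for pairs of words of score `6`: the first word with the words from 32 on
-/

set_option autoImplicit false

namespace Pool.Agent.Lib.MP_e0d433_co.Six

theorem CmpC_3 : ((W6.take 1).all fun a => (W6.drop 32).all fun b => c66 a b) = true := by
  decide +kernel

end Pool.Agent.Lib.MP_e0d433_co.Six
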