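import Pool.Agent.Lib.MP_e0d433_co.Six.Spec

/-!
# Computations for pairs of words of score `6`: the other words with all words
-/

set_option autoImplicit false

namespace Pool.Agent.Lib.MP_e0d433_co.Six

theorem CmpC_4 : ((W6.drop 1).all fun a => W6.all fun b => c66 a b) = true := by
  decide +kernel

end Pool.Agent.Lib.MP_e0d433_co.Six
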