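import Pool.Agent.Lib.MP_e0d433_co.Six.Spec
import Pool.Agent.Lib.MP_e0d433_co.Six.CmpC1
import Pool.Agent.Lib.MP_e0d433_co.Six.CmpC2
import Pool.Agent.Lib.MP_e0d433_co.Six.CmpC3
import Pool.Agent.Lib.MP_e0d433_co.Six.CmpC4
import Pool.Agent.Lib.MP_e0d433_co.Six.CmpC5

/-!
# Computations for pairs of words of score `6`
-/

set_option autoImplicit false

namespace Pool.Agent.Lib.MP_e0d433_co.Six

theorem CmpC_split {α : Type} (n : ℕ) (L : List α) {b : α} (h : b ∈ L) :
    b ∈ L.take n ∨ b ∈ L.drop n := by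
  rw [← List.mem_append, List.take_append_drop]
  exact h

theorem tCmpC : S_CmpC := by
  intro a ha b hb
  rcases CmpC_split 1 W6 ha with ha | ha
  · rcases CmpC_split 32 W6 hb with hb1 | hb1
    · rcases CmpC_split 16 _ hb1 with hb2 | hb2
      · rw [List.take_take] at hb2
        rcases CmpC_split 8 _ hb2 with hb3 | hb3
        · rw [List.take_take] at hb3
          exact List.all_eq_true.1 (List.all_eq_true.1 CmpC_1 a ha) b hb3
        · rw [List.drop_take] at hb3
          exact List.all_eq_true.1 (List.all_eq_true.1 CmpC_5 a ha) b hb3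
      · rw [List.drop_take] at hb2
        exact List.all_eq_true.1 (List.all_eq_true.1 CmpC_2 a ha) b hb2
    · exact List.all_eq_true.1 (List.all_eq_true.1 CmpC_3 a ha) b hb1
  · exact List.all_eq_true.1 (List.all_eq_true.1 CmpC_4 a ha) b hb

end Pool.Agent.Lib.MP_e0d433_co.Six
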