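import Pool.Agent.Lib.MP_e0d433_co.Six.Spec

set_option autoImplicit false

namespace Pool.Agent.Lib.MP_e0d433_co.Six

open scoped BigOperators

private theorem Cn1_fiber (hOrb : S_Orb) (T : Tour) (O : Finset G)
    (hO : O ∈ Finset.univ.image T.orb) : O = Finset.univ.filter fun x => T.orb x = O := by
  obtain ⟨h1, h2, _, _⟩ := hOrb T
  obtain ⟨c, -, rfl⟩ := Finset.mem_image.1 hO
  ext x
  simp only [Finset.mem_filter, Finset.mem_univ, true_and]
  constructor
  · intro hx
    exact h2 c x hx
  · intro hx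
    rw [← hx]
    exact h1 x

private theorem Cn1_pairs (hOrb : S_Orb) (T : Tour) :
    (Finset.univ.image fun x => (can x, T.orb x)).card =
      ∑ O ∈ Finset.univ.image T.orb, (O.image can).card := by
  rw [Finset.card_eq_sum_card_fiberwise (f := Prod.snd) (t := Finset.univ.image T.orb)]
  · refine Finset.sum_congr rfl fun O hO => ?_
    have hf := Cn1_fiber hOrb T O hO
    have h1 : (Finset.univ.image fun x => (can x, T.orb x)).filter (fun p => p.2 = O) =
        (O.image can).image fun y => (y, O) := by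
      ext p
      simp only [Finset.mem_filter, Finset.mem_image, Finset.mem_univ, true_and]
      constructor
      · rintro ⟨⟨x, rfl⟩, hx⟩
        refine ⟨can x, ⟨x, ?_, rfl⟩, ?_⟩
        · rw [hf]
          exact Finset.mem_filter.2 ⟨Finset.mem_univ _, hx⟩
        · exact Prod.ext rfl hx.symm
      · rintro ⟨y, ⟨x, hx, rfl⟩, rfl⟩
        rw [hf] at hx
        have hx' := (Finset.mem_filter.1 hx).2
        exact ⟨⟨x, Prod.ext rfl hx'⟩, rfl⟩
    rw [h1, Finset.card_image_of_injective]
    intro a b hab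
    exact congrArg Prod.fst hab
  · intro p hp
    obtain ⟨x, -, rfl⟩ := Finset.mem_image.1 hp
    exact Finset.mem_coe.2 (Finset.mem_image_of_mem _ (Finset.mem_univ x))

private theorem Cn1_sum (hOrb : S_Orb) (T : Tour) :
    ∑ O ∈ Finset.univ.image T.orb, ∑ c ∈ O, T.e c = ∑ c, T.e c := by
  rw [← Finset.sum_fiberwise_of_maps_to (s := Finset.univ) (t := Finset.univ.image T.orb)
    (g := T.orb) (fun x _ => Finset.mem_image_of_mem _ (Finset.mem_univ x)) T.e]
  refine Finset.sum_congr rfl fun O hO => ?_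
  exact Finset.sum_congr (Cn1_fiber hOrb T O hO) fun _ _ => rfl

theorem tCn1 (hCon : S_Con) (hOrb : S_Orb) : S_Cn1 := by
  intro T
  have h1 := hCon T (Finset G) T.orb (hOrb T).2.2.1
  have h2 := Cn1_pairs hOrb T
  have h3 := Cn1_sum hOrb T
  have h4 := T.sum
  have h5 : T.tot = 5 * ((∑ O ∈ Finset.univ.image T.orb, (O.image can).card : ℕ) : ℤ) -
      5 * (((Finset.univ.image T.orb).card : ℕ) : ℤ) -
      4 * ((∑ O ∈ Finset.univ.image T.orb, ∑ c ∈ O, T.e c : ℕ) : ℤ) := by
    unfold Tour.tot Tour.val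
    rw [Finset.sum_sub_distrib, Finset.sum_sub_distrib, ← Finset.mul_sum, ← Finset.mul_sum,
      Finset.sum_const, nsmul_eq_mul, ← Nat.cast_sum, ← Nat.cast_sum]
    ring
  rw [h5, ← h2, h3]
  omega

end Pool.Agent.Lib.MP_e0d433_co.Six
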