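import Pool.Agent.Lib.MP_e0d433_co.Six.Spec

/-!
# MP_e0d433_co, project Six: two orbits with common 1-cycles
-/

set_option autoImplicit false

namespace Pool.Agent.Lib.MP_e0d433_co.Six

/-- The members of an orbit are the flags with this orbit. -/
private theorem Cn2_mem (hO : S_Orb) (T : Tour) (c x : G) : x ∈ T.orb c ↔ T.orb x = T.orb c := by
  obtain ⟨h1, h2, -, -⟩ := hO T
  refine ⟨h2 c x, fun h => ?_⟩
  rw [← h]
  exact h1 x

/-- The sum of the costs over all the orbits. -/
private theorem Cn2_sum (hO : S_Orb) (T : Tour) :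
    ∑ O ∈ Finset.univ.image T.orb, ∑ x ∈ O, T.e x ≤ 146 := by
  have h := Finset.sum_fiberwise_of_maps_to (s := (Finset.univ : Finset G))
    (t := Finset.univ.image T.orb) (g := T.orb)
    (fun x _ => Finset.mem_image_of_mem _ (Finset.mem_univ x)) T.e
  refine le_trans (le_of_eq ?_) T.sum
  rw [← h]
  refine Finset.sum_congr rfl fun O hOm => ?_
  obtain ⟨c, -, rfl⟩ := Finset.mem_image.1 hOm
  refine Finset.sum_congr ?_ fun _ _ => rfl
  ext x
  simp [Cn2_mem hO T c x]

private theorem Cn2_gen {α β : Type} [Fintype α] [DecidableEq α] [DecidableEq β] (f : α → β)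
    (o : α → Finset α) (ho : ∀ x, x ∈ o x) :
    (Finset.univ.image fun x : α => (f x, o x)).card ≤
      ∑ O ∈ Finset.univ.image o, (O.image f).card := by
  have h : (Finset.univ.image fun x : α => (f x, o x)) ⊆
      (Finset.univ.image o).biUnion fun O => (O.image f).image fun a => (a, O) := by
    intro p hp
    obtain ⟨x, -, rfl⟩ := Finset.mem_image.1 hp
    refine Finset.mem_biUnion.2 ⟨o x, Finset.mem_image_of_mem _ (Finset.mem_univ x), ?_⟩
    exact Finset.mem_image_of_mem _ (Finset.mem_image_of_mem _ (ho x))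
  refine (Finset.card_le_card h).trans (Finset.card_biUnion_le.trans ?_)
  exact Finset.sum_le_sum fun O _ => Finset.card_image_le

/-- The number of pairs (1-cycle, orbit). -/
private theorem Cn2_pairs (hO : S_Orb) (T : Tour) :
    (Finset.univ.image fun x : G => (can x, T.orb x)).card ≤
      ∑ O ∈ Finset.univ.image T.orb, (O.image can).card :=
  Cn2_gen can T.orb fun x => (Cn2_mem hO T x x).2 rfl

/-- The labels: the label of the orbit of `c'` is replaced by the label of the orbit of `c`. -/
private noncomputable def Cn2_phi (T : Tour) (c c' : G) (x : G) : Finset G :=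
  if T.orb x = T.orb c' then T.orb c else T.orb x

private theorem Cn2_labels (T : Tour) (c c' : G) (hne : T.orb c ≠ T.orb c') :
    (Finset.univ.image T.orb).card ≤ (Finset.univ.image (Cn2_phi T c c')).card + 1 := by
  classical
  have h : (Finset.univ.image T.orb).erase (T.orb c') ⊆ Finset.univ.image (Cn2_phi T c c') := by
    intro O hO
    obtain ⟨h1, h2⟩ := Finset.mem_erase.1 hO
    obtain ⟨x, -, rfl⟩ := Finset.mem_image.1 h2
    refine Finset.mem_image.2 ⟨x, Finset.mem_univ x, ?_⟩
    rw [Cn2_phi, if_neg h1]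
  have h3 := Finset.card_le_card h
  have h4 := Finset.pred_card_le_card_erase (s := Finset.univ.image T.orb) (a := T.orb c')
  omega

private theorem Cn2_card (hO : S_Orb) (T : Tour) (c c' : G) (hne : T.orb c ≠ T.orb c') :
    (Finset.univ.image fun x : G => (can x, Cn2_phi T c c' x)).card +
      (((T.orb c).image can) ∩ ((T.orb c').image can)).card ≤
      (Finset.univ.image fun x : G => (can x, T.orb x)).card := by
  classical
  set P : Finset (G × Finset G) := Finset.univ.image fun x : G => (can x, T.orb x) with hP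
  set I : Finset G := ((T.orb c).image can) ∩ ((T.orb c').image can) with hI
  set R : Finset (G × Finset G) := I.image fun a => (a, T.orb c') with hR
  have hRc : R.card = I.card :=
    Finset.card_image_of_injective _ fun a b h => (Prod.ext_iff.1 h).1
  have hRP : R ⊆ P := by
    intro p hp
    obtain ⟨a, ha, rfl⟩ := Finset.mem_image.1 hp
    obtain ⟨x, hx, rfl⟩ := Finset.mem_image.1 (Finset.mem_inter.1 ha).2
    refine Finset.mem_image.2 ⟨x, Finset.mem_univ x, ?_⟩
    rw [(Cn2_mem hO T c' x).1 hx]
  let f : G × Finset G → G × Finset G := fun p => (p.1, if p.2 = T.orb c' then T.orb c else p.2)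
  have hsub : (Finset.univ.image fun x : G => (can x, Cn2_phi T c c' x)) ⊆ (P \ R).image f := by
    intro p hp
    obtain ⟨x, -, rfl⟩ := Finset.mem_image.1 hp
    by_cases hx : (can x, T.orb x) ∈ R
    · obtain ⟨a, ha, hax⟩ := Finset.mem_image.1 hx
      have h1 : a = can x := (Prod.ext_iff.1 hax).1
      have h2 : T.orb c' = T.orb x := (Prod.ext_iff.1 hax).2
      subst h1
      obtain ⟨y, hy, hyx⟩ := Finset.mem_image.1 (Finset.mem_inter.1 ha).1
      have hyo : T.orb y = T.orb c := (Cn2_mem hO T c y).1 hy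
      refine Finset.mem_image.2 ⟨(can y, T.orb y), Finset.mem_sdiff.2
        ⟨Finset.mem_image.2 ⟨y, Finset.mem_univ y, rfl⟩, fun hyR => ?_⟩, ?_⟩
      · obtain ⟨b, -, hb⟩ := Finset.mem_image.1 hyR
        exact hne (hyo.symm.trans (Prod.ext_iff.1 hb).2.symm)
      · refine Prod.ext hyx ?_
        change (if T.orb y = T.orb c' then T.orb c else T.orb y) = Cn2_phi T c c' x
        rw [Cn2_phi, if_pos h2.symm, hyo, if_neg hne]
    · refine Finset.mem_image.2 ⟨(can x, T.orb x), Finset.mem_sdiff.2
        ⟨Finset.mem_image.2 ⟨x, Finset.mem_univ x, rfl⟩, hx⟩, rfl⟩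
  have h1 := (Finset.card_le_card hsub).trans Finset.card_image_le
  have h2 := Finset.card_sdiff_add_card_eq_card hRP
  omega

/-- **Cn2**. -/
theorem tCn2 (hC : S_Con) (hO : S_Orb) : S_Cn2 := by
  classical
  intro T c c' hne
  obtain ⟨-, -, h3, -⟩ := hO T
  have hphi : ∀ x, Cn2_phi T c c' (T.Out x) = Cn2_phi T c c' x := fun x => by
    simp only [Cn2_phi, h3 x]
  have e1 := hC T (Finset G) (Cn2_phi T c c') hphi
  have e2 := Cn2_labels T c c' hne
  have e3 := Cn2_card hO T c c' hne
  have e4 := Cn2_pairs hO T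
  have e5 := Cn2_sum hO T
  have e6 : T.tot = 5 * ((∑ O ∈ Finset.univ.image T.orb, (O.image can).card : ℕ) : ℤ)
      - 5 * ((Finset.univ.image T.orb).card : ℤ)
      - 4 * ((∑ O ∈ Finset.univ.image T.orb, ∑ x ∈ O, T.e x : ℕ) : ℤ) := by
    rw [Tour.tot]
    simp only [Tour.val]
    rw [Finset.sum_sub_distrib, Finset.sum_sub_distrib, ← Finset.mul_sum, ← Finset.mul_sum]
    simp only [Finset.sum_const, nsmul_eq_mul]
    push_cast
    ring
  rw [e6]
  set a := (Finset.univ.image T.orb).card
  set b := (Finset.univ.image (Cn2_phi T c c')).card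
  set d := (Finset.univ.image fun x : G => (can x, Cn2_phi T c c' x)).card
  set p := (Finset.univ.image fun x : G => (can x, T.orb x)).card
  set q := ∑ O ∈ Finset.univ.image T.orb, (O.image can).card
  set r := ∑ O ∈ Finset.univ.image T.orb, ∑ x ∈ O, T.e x
  set i := (((T.orb c).image can) ∩ ((T.orb c').image can)).card
  omega

end Pool.Agent.Lib.MP_e0d433_co.Six
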