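import Pool.Agent.Lib.MP_e0d433_co.Six.Spec

/-!
# MP_e0d433_co, project Six: connectivity (`S_Con`)
-/

set_option autoImplicit false

namespace Pool.Agent.Lib.MP_e0d433_co.Six

open scoped BigOperators

private theorem Con_aux {α β : Type} [DecidableEq α] [DecidableEq β] (a : ℕ → α) (b : ℕ → β)
    (Q : Finset (α × β)) (h1 : ∀ i, (a i, b i) ∈ Q) (h2 : ∀ i, (a i, b (i + 1)) ∈ Q) (m : ℕ) :
    ∃ P : Finset (α × β), P ⊆ Q ∧
      (∀ p ∈ P, p.1 ∈ (Finset.range (m + 1)).image a ∧ p.2 ∈ (Finset.range (m + 1)).image b) ∧
      ((Finset.range (m + 1)).image a).card + ((Finset.range (m + 1)).image b).card ≤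
        P.card + 1 := by
  induction m with
  | zero =>
    refine ⟨{(a 0, b 0)}, ?_, ?_, ?_⟩
    · simpa using h1 0
    · simp
    · simp
  | succ m ih =>
    obtain ⟨P, hP, hA, hc⟩ := ih
    set A := (Finset.range (m + 1)).image a with hAd
    set B := (Finset.range (m + 1)).image b with hBd
    have eA : (Finset.range (m + 1 + 1)).image a = insert (a (m + 1)) A := by
      rw [Finset.range_add_one, Finset.image_insert]
    have eB : (Finset.range (m + 1 + 1)).image b = insert (b (m + 1)) B := by
      rw [Finset.range_add_one, Finset.image_insert]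
    rw [eA, eB]
    have hm : a m ∈ A := Finset.mem_image_of_mem _ (by simp)
    have s1 : (insert (b (m + 1)) B).card + P.card ≤
        (insert (a m, b (m + 1)) P).card + B.card := by
      by_cases h : b (m + 1) ∈ B
      · rw [Finset.insert_eq_of_mem h]
        have := Finset.card_le_card (Finset.subset_insert (a m, b (m + 1)) P)
        omega
      · rw [Finset.card_insert_of_notMem h,
          Finset.card_insert_of_notMem (fun h' => h (hA _ h').2)]
        omega
    have s2 : (insert (a (m + 1)) A).card + (insert (a m, b (m + 1)) P).card ≤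
        (insert (a (m + 1), b (m + 1)) (insert (a m, b (m + 1)) P)).card + A.card := by
      by_cases h : a (m + 1) ∈ A
      · rw [Finset.insert_eq_of_mem h]
        have := Finset.card_le_card
          (Finset.subset_insert (a (m + 1), b (m + 1)) (insert (a m, b (m + 1)) P))
        omega
      · have h3 : (a (m + 1), b (m + 1)) ∉ insert (a m, b (m + 1)) P := by
          intro h'
          rcases Finset.mem_insert.1 h' with h' | h'
          · exact h (by rw [(Prod.mk.inj h').1]; exact hm)
          · exact h (hA _ h').1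
        rw [Finset.card_insert_of_notMem h, Finset.card_insert_of_notMem h3]
        omega
    refine ⟨insert (a (m + 1), b (m + 1)) (insert (a m, b (m + 1)) P), ?_, ?_, by omega⟩
    · exact Finset.insert_subset (h1 _) (Finset.insert_subset (h2 _) hP)
    · intro p hp
      rcases Finset.mem_insert.1 hp with rfl | hp
      · exact ⟨Finset.mem_insert_self _ _, Finset.mem_insert_self _ _⟩
      rcases Finset.mem_insert.1 hp with rfl | hp
      · exact ⟨Finset.mem_insert_of_mem hm, Finset.mem_insert_self _ _⟩
      · exact ⟨Finset.mem_insert_of_mem (hA p hp).1, Finset.mem_insert_of_mem (hA p hp).2⟩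

private theorem Con_image {α : Type} [DecidableEq α] (T : Tour) (f : G → α) (k : G → ℕ)
    (hk : ∀ y, (T.N ^ k y) 1 = y) :
    (Finset.univ : Finset G).image f ⊆
      (Finset.range ((Finset.univ : Finset G).sup k + 1)).image fun i => f ((T.N ^ i) 1) := by
  intro z hz
  obtain ⟨y, -, rfl⟩ := Finset.mem_image.1 hz
  refine Finset.mem_image.2 ⟨k y, ?_, by rw [hk y]⟩
  exact Finset.mem_range.2 (Nat.lt_succ_of_le (Finset.le_sup (Finset.mem_univ y)))

theorem tCon (hCan : S_Can) : S_Con := by
  intro T L _ φ hφ
  obtain ⟨-, hrho, -, -, -, -, h120, -⟩ := hCan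
  choose k hk using fun y => T.tr 1 y
  obtain ⟨P, hP, -, hc⟩ := Con_aux (fun i => can ((T.N ^ i) 1)) (fun i => φ ((T.N ^ i) 1))
    ((Finset.univ : Finset G).image fun x => (can x, φ x))
    (fun i => Finset.mem_image.2 ⟨(T.N ^ i) 1, Finset.mem_univ _, rfl⟩)
    (fun i => by
      refine Finset.mem_image.2 ⟨(T.N ^ i) 1 * rho, Finset.mem_univ _, ?_⟩
      have h1 : can ((T.N ^ i) 1 * rho) = can ((T.N ^ i) 1) := by
        have := hrho ((T.N ^ i) 1) 1
        rwa [pow_one] at this
      have h3 : T.Out ((T.N ^ i) 1 * rho) = (T.N ^ (i + 1)) 1 := by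
        have h4 : T.Out ((T.N ^ i) 1 * rho) = T.N ((T.N ^ i) 1 * rho * rho⁻¹) := rfl
        rw [h4, mul_inv_cancel_right, pow_succ', Equiv.Perm.mul_apply]
      rw [← h3, hφ, h1])
    ((Finset.univ : Finset G).sup k)
  have i1 := Finset.card_le_card (Con_image T can k hk)
  have i2 := Finset.card_le_card (Con_image T φ k hk)
  have i3 := Finset.card_le_card hP
  rw [h120] at i1
  omega

end Pool.Agent.Lib.MP_e0d433_co.Six
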