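import Pool.Agent.Lib.MP_e0d433_co.Six.Spec

/-!
# MP_e0d433_co, project Six: statement `S_D655`
-/

set_option autoImplicit false

namespace Pool.Agent.Lib.MP_e0d433_co.Six

private lemma D655_fl (x : G) (l : List Step) : fl x l = x :: (fl x l).tail := by
  cases l <;> rfl

private lemma D655_okc (x : G) (l : List Step) (h : Ok x l) : Okc {can x} x l := by
  unfold Ok at h
  rw [D655_fl, List.map_cons, List.nodup_cons] at h
  refine ⟨h.2, fun y hy hc => h.1 ?_⟩
  rw [Finset.mem_singleton] at hc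
  exact List.mem_map.2 ⟨y, hy, hc⟩

private lemma D655_cs (x : G) (l : List Step) :
    {can x} ∪ (((fl x l).tail).map can).toFinset = cs x l := by
  unfold cs
  conv_rhs => rw [D655_fl, List.map_cons, List.toFinset_cons]
  exact (Finset.insert_eq _ _).symm

private lemma D655_W6 : ∀ w ∈ W6, w.length ≤ 53 → w ∈ W6.take 1 := by decide +kernel

private lemma D655_W5 : ∀ w ∈ W5, 32 ≤ w.length := by decide +kernel

private lemma D655_one (hIdx : S_Idx) (hMsk : S_Msk) (hDw : S_Dw) (hB : S_CmpB)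
    (a : List Step) (y' : G) (b : List Step) (y'' : G) (c : List Step)
    (ha : InW W6 a) (hb : InW W5 b) (hc : InW W5 c)
    (hlen : a.length + b.length + c.length ≤ 117)
    (oka : Ok 1 a) (okb : Ok y' b) (okc : Ok y'' c) (dab : Disjoint (cs 1 a) (cs y' b))
    (dac : Disjoint (cs 1 a) (cs y'' c)) (dbc : Disjoint (cs y' b) (cs y'' c)) : False := by
  have la : (a.map dg).length = a.length := List.length_map _
  have lb : (b.map dg).length = b.length := List.length_map _
  have lc : (c.map dg).length = c.length := List.length_map _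
  have hb5 := D655_W5 _ hb
  have hc5 := D655_W5 _ hc
  have ha6 : a.map dg ∈ W6.take 1 := D655_W6 _ ha (by omega)
  have h1 := (List.all_eq_true.1 hB.2.2) _ ha6
  unfold c655 at h1
  rw [← hIdx.2.2.1] at h1
  obtain ⟨m, hm, hk⟩ := hDw.1 a 1 1 {can 1} _ h1 hMsk.2.1 (D655_okc 1 a oka)
  rw [D655_cs] at hm
  have h2 := (List.all_eq_true.1 ((List.all_eq_true.1 hk) _ hb)) (idx y')
    (List.mem_range.2 (hIdx.1 y'))
  obtain ⟨m', hm', hk'⟩ := hDw.2 b m y' (cs 1 a) _ h2 hm okb dab.symm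
  have h3 := (List.all_eq_true.1 hk') _ hc
  rw [Bool.or_eq_true] at h3
  rcases h3 with h3 | h3
  · have := Nat.le_of_ble_eq_true h3
    omega
  · have h4 := (List.all_eq_true.1 h3) (idx y'') (List.mem_range.2 (hIdx.1 y''))
    obtain ⟨m'', -, hk''⟩ := hDw.2 c m' y'' (cs 1 a ∪ cs y' b) _ h4 hm' okc
      (Finset.disjoint_union_right.2 ⟨dac.symm, dbc.symm⟩)
    exact Bool.false_ne_true hk''

/-- Pieces of scores 6, 5, 5 cannot be disjoint. -/
theorem tD655 (_hCan : S_Can) (hIdx : S_Idx) (hMsk : S_Msk) (hDw : S_Dw) (hB : S_CmpB)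
    (hTr : S_Tr) : S_D655 := by
  intro y a y' b y'' c ha hb hc hlen oka okb okc dab dac dbc
  obtain ⟨-, -, hOk, hDis, -, -⟩ := hTr
  have e1 : y * 1 = y := mul_one y
  have e2 : y * (y⁻¹ * y') = y' := mul_inv_cancel_left y y'
  have e3 : y * (y⁻¹ * y'') = y'' := mul_inv_cancel_left y y''
  refine D655_one hIdx hMsk hDw hB a (y⁻¹ * y') b (y⁻¹ * y'') c ha hb hc hlen
    ((hOk y 1 a).1 (by rwa [e1])) ((hOk y _ b).1 (by rwa [e2])) ((hOk y _ c).1 (by rwa [e3]))
    ((hDis y 1 _ a b).1 (by rwa [e1, e2])) ((hDis y 1 _ a c).1 (by rwa [e1, e3]))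
    ((hDis y _ _ b c).1 (by rwa [e2, e3]))

end Pool.Agent.Lib.MP_e0d433_co.Six
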