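import Pool.Agent.Lib.MP_e0d433_co.Six.Spec

/-!
# MP_e0d433_co, project Six: pieces of scores 6, 6, 4 (D66)
-/

set_option autoImplicit false

namespace Pool.Agent.Lib.MP_e0d433_co.Six

private theorem D66_fl (x : G) (l : List Step) : fl x l = x :: (fl x l).tail := by
  cases l <;> rfl

private theorem D66_cs (x : G) (l : List Step) :
    ({can x} : Finset G) ∪ (((fl x l).tail).map can).toFinset = cs x l := by
  unfold cs
  conv_rhs => rw [D66_fl x l]
  rw [List.map_cons, List.toFinset_cons, Finset.insert_eq]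

private theorem D66_start (hIdx : S_Idx) (hMsk : S_Msk) (hDw : S_Dw) (a : List Step)
    (k : ℕ → ℕ → Bool) (h : dw (a.map dg) 1 0 k = true) (hok : Ok 1 a) :
    ∃ m, Msk m (cs 1 a) ∧ k m (idx (lastF 1 a)) = true := by
  have hO : Okc {can 1} 1 a := by
    unfold Ok at hok
    rw [D66_fl 1 a, List.map_cons, List.nodup_cons] at hok
    refine ⟨hok.2, fun y hy => ?_⟩
    rw [Finset.mem_singleton]
    intro hcy
    exact hok.1 (hcy ▸ List.mem_map_of_mem (f := can) hy)
  have h0 : idx 1 = 0 := hIdx.2.2.1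
  rw [← h0] at h
  obtain ⟨m, hm, hk⟩ := hDw.1 a 1 1 {can 1} k h hMsk.2.1 hO
  rw [D66_cs] at hm
  exact ⟨m, hm, hk⟩

private theorem D66_csl2 (x y : G) (a b : List Step) :
    csl [(x, a), (y, b)] = cs x a ∪ cs y b := by
  unfold csl cs
  rw [List.flatMap_cons, List.flatMap_cons, List.flatMap_nil, List.append_nil, List.map_append,
    List.toFinset_append]

private theorem D66_csl3 (x y z : G) (a b c : List Step) :
    csl [(x, a), (y, b), (z, c)] = cs x a ∪ cs y b ∪ cs z c := by
  unfold csl cs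
  rw [List.flatMap_cons, List.flatMap_cons, List.flatMap_cons, List.flatMap_nil, List.append_nil,
    List.map_append, List.map_append, List.toFinset_append, List.toFinset_append,
    Finset.union_assoc]

theorem tD66 (_hCan : S_Can) (hIdx : S_Idx) (hMsk : S_Msk) (hDw : S_Dw) (hCfc : S_Cfc)
    (hCmpC : S_CmpC) (hTr : S_Tr) : S_D66 := by
  intro y a y' b ha hb hlen hok hok' hdis
  have hok1 : Ok 1 a := by
    have := hTr.2.2.1 y 1 a
    rw [mul_one] at this
    exact this.1 hok
  have hc : c66 (a.map dg) (b.map dg) = true := hCmpC _ ha _ hb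
  unfold c66 at hc
  rw [Bool.or_eq_true] at hc
  rcases hc with hc | hc
  · have h6 := Nat.le_of_ble_eq_true hc
    rw [List.length_map, List.length_map] at h6
    omega
  obtain ⟨m, hm, hk⟩ := D66_start hIdx hMsk hDw a _ hc hok1
  have hx : y * (y⁻¹ * y') = y' := mul_inv_cancel_left y y'
  have hokx : Ok (y⁻¹ * y') b := by
    have := hTr.2.2.1 y (y⁻¹ * y') b
    rw [hx] at this
    exact this.1 hok'
  have hdx : Disjoint (cs 1 a) (cs (y⁻¹ * y') b) := by
    have := hTr.2.2.2.1 y 1 (y⁻¹ * y') a b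
    rw [hx, mul_one] at this
    exact this.1 hdis
  have h7 := List.all_eq_true.1 hk (idx (y⁻¹ * y')) (List.mem_range.2 (hIdx.1 _))
  obtain ⟨m', hm', hk'⟩ := hDw.2 b m (y⁻¹ * y') (cs 1 a) _ h7 hm hokx hdx.symm
  rw [Bool.and_eq_true] at hk'
  refine ⟨?_, ?_⟩
  · have h1 : Cfg [((1 : G), a), (y⁻¹ * y', b)] := by
      refine hCfc m' _ ?_ ?_
      · have h2 := hk'.1
        rw [← hIdx.2.2.1] at h2
        exact h2
      · rw [D66_csl2]
        exact hm'
    refine hTr.2.2.2.2.2 y⁻¹ [(y, a), (y', b)] ?_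
    have h4 : tr y⁻¹ [(y, a), (y', b)] = [((1 : G), a), (y⁻¹ * y', b)] := by
      unfold tr
      rw [List.map_cons, List.map_cons, List.map_nil, inv_mul_cancel]
    rw [h4]
    exact h1
  · intro y'' c hcc hlen3 hok'' hd1 hd2
    have hx'' : y * (y⁻¹ * y'') = y'' := mul_inv_cancel_left y y''
    have hokx'' : Ok (y⁻¹ * y'') c := by
      have := hTr.2.2.1 y (y⁻¹ * y'') c
      rw [hx''] at this
      exact this.1 hok''
    have hdx1 : Disjoint (cs 1 a) (cs (y⁻¹ * y'') c) := by
      have := hTr.2.2.2.1 y 1 (y⁻¹ * y'') a c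
      rw [hx'', mul_one] at this
      exact this.1 hd1
    have hdx2 : Disjoint (cs (y⁻¹ * y') b) (cs (y⁻¹ * y'') c) := by
      have := hTr.2.2.2.1 y (y⁻¹ * y') (y⁻¹ * y'') b c
      rw [hx, hx''] at this
      exact this.1 hd2
    have h5 := List.all_eq_true.1 hk'.2 _ hcc
    rw [Bool.or_eq_true] at h5
    rcases h5 with h5 | h5
    · have h6 := Nat.le_of_ble_eq_true h5
      rw [List.length_map, List.length_map, List.length_map] at h6
      omega
    have h8 := List.all_eq_true.1 h5 (idx (y⁻¹ * y'')) (List.mem_range.2 (hIdx.1 _))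
    obtain ⟨m'', hm'', hk''⟩ := hDw.2 c m' (y⁻¹ * y'') (cs 1 a ∪ cs (y⁻¹ * y') b) _ h8 hm'
      hokx'' (Finset.disjoint_union_right.2 ⟨hdx1.symm, hdx2.symm⟩)
    have h1 : Cfg [((1 : G), a), (y⁻¹ * y', b), (y⁻¹ * y'', c)] := by
      refine hCfc m'' _ ?_ ?_
      · have h2 := hk''
        rw [← hIdx.2.2.1] at h2
        exact h2
      · rw [D66_csl3]
        exact hm''
    refine hTr.2.2.2.2.2 y⁻¹ [(y, a), (y', b), (y'', c)] ?_
    have h4 : tr y⁻¹ [(y, a), (y', b), (y'', c)] =
        [((1 : G), a), (y⁻¹ * y', b), (y⁻¹ * y'', c)] := by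
      unfold tr
      rw [List.map_cons, List.map_cons, List.map_cons, List.map_nil, inv_mul_cancel]
    rw [h4]
    exact h1

end Pool.Agent.Lib.MP_e0d433_co.Six
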