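import Pool.Agent.Lib.MP_e0d433_co.Six.Spec

/-!
# MP_e0d433_co, project Six: pieces of scores 7 and 5 (D75)
-/

set_option autoImplicit false

namespace Pool.Agent.Lib.MP_e0d433_co.Six

private theorem D75_fl (x : G) (l : List Step) : fl x l = x :: (fl x l).tail := by
  cases l <;> rfl

private theorem D75_cs (x : G) (l : List Step) :
    ({can x} : Finset G) ∪ (((fl x l).tail).map can).toFinset = cs x l := by
  unfold cs
  conv_rhs => rw [D75_fl x l]
  rw [List.map_cons, List.toFinset_cons, Finset.insert_eq]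

private theorem D75_start (hIdx : S_Idx) (hMsk : S_Msk) (hDw : S_Dw) (a : List Step)
    (k : ℕ → ℕ → Bool) (h : dw (a.map dg) 1 0 k = true) (hok : Ok 1 a) :
    ∃ m, Msk m (cs 1 a) ∧ k m (idx (lastF 1 a)) = true := by
  have hO : Okc {can 1} 1 a := by
    unfold Ok at hok
    rw [D75_fl 1 a, List.map_cons, List.nodup_cons] at hok
    refine ⟨hok.2, fun y hy => ?_⟩
    rw [Finset.mem_singleton]
    intro hcy
    exact hok.1 (hcy ▸ List.mem_map_of_mem (f := can) hy)
  have h0 : idx 1 = 0 := hIdx.2.2.1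
  rw [← h0] at h
  obtain ⟨m, hm, hk⟩ := hDw.1 a 1 1 {can 1} k h hMsk.2.1 hO
  rw [D75_cs] at hm
  exact ⟨m, hm, hk⟩

theorem tD75 (_hCan : S_Can) (hIdx : S_Idx) (hMsk : S_Msk) (hDw : S_Dw)
    (hCmpB : S_CmpB) (hTr : S_Tr) : S_D75 := by
  intro y a y' b ha hb hlen hok hok' hdis
  have hok1 : Ok 1 a := by
    have := hTr.2.2.1 y 1 a
    rw [mul_one] at this
    exact this.1 hok
  have hc : c75 (a.map dg) = true := List.all_eq_true.1 hCmpB.2.1 _ ha
  unfold c75 at hc
  obtain ⟨m, hm, hk⟩ := D75_start hIdx hMsk hDw a _ hc hok1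
  have hx : y * (y⁻¹ * y') = y' := mul_inv_cancel_left y y'
  have hokx : Ok (y⁻¹ * y') b := by
    have := hTr.2.2.1 y (y⁻¹ * y') b
    rw [hx] at this
    exact this.1 hok'
  have hdx : Disjoint (cs 1 a) (cs (y⁻¹ * y') b) := by
    have := hTr.2.2.2.1 y 1 (y⁻¹ * y') a b
    rw [hx, mul_one] at this
    exact this.1 hdis
  have h5 := List.all_eq_true.1 hk _ hb
  rw [Bool.or_eq_true] at h5
  rcases h5 with h5 | h5
  · have h6 := Nat.le_of_ble_eq_true h5
    rw [List.length_map, List.length_map] at h6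
    omega
  · have h7 := List.all_eq_true.1 h5 (idx (y⁻¹ * y')) (List.mem_range.2 (hIdx.1 _))
    obtain ⟨m', -, hf⟩ := hDw.2 b m (y⁻¹ * y') (cs 1 a) _ h7 hm hokx hdx.symm
    exact absurd hf (by decide)

end Pool.Agent.Lib.MP_e0d433_co.Six
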