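import Pool.Agent.Lib.MP_e0d433_co.Six.Spec

/-!
# MP_e0d433_co, project Six, module Dw: walks

The computing functions `dw` and `sdw` follow the walk of a word and find its mask.
-/

set_option autoImplicit false

namespace Pool.Agent.Lib.MP_e0d433_co.Six

private theorem Dw_fl (y : G) (l : List Step) : fl y l = y :: (fl y l).tail := by
  cases l <;> rfl

private theorem Dw_quot {a b : ℕ} (ha : a < 720) :
    (a + 1024 * b) / 1024 = b ∧ (a + 1024 * b) % 1024 = a := by
  constructor <;> omega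

private theorem Dw_bt {m : ℕ} {T : Finset G} {y : G} (hm : Msk m T) (hy : can y ∉ T) :
    bt m (idx (can y)) = false := by
  by_contra h
  rw [Bool.not_eq_false] at h
  exact hy ((hm y).1 h)

private theorem Dw_step {T : Finset G} {y : G} {l : List Step}
    (hn : ((fl y l).map can).Nodup) (hd : ∀ z ∈ fl y l, can z ∉ T) :
    can y ∉ T ∧ Okc (insert (can y) T) y l := by
  rw [Dw_fl y l] at hn hd
  rw [List.map_cons, List.nodup_cons] at hn
  refine ⟨hd y List.mem_cons_self, hn.2, fun z hz => ?_⟩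
  rw [Finset.mem_insert, not_or]
  refine ⟨fun h => hn.1 ?_, hd z (List.mem_cons_of_mem _ hz)⟩
  rw [← h]
  exact List.mem_map_of_mem hz

private theorem Dw_set (T : Finset G) (y : G) (l : List Step) :
    insert (can y) T ∪ (((fl y l).tail).map can).toFinset = T ∪ ((fl y l).map can).toFinset := by
  conv_rhs => rw [Dw_fl y l, List.map_cons, List.toFinset_cons, Finset.union_insert]
  rw [Finset.insert_union]

private theorem Dw_main (hIdx : S_Idx) (hTbl : S_Tbl) (hMsk : S_Msk) :
    ∀ (l : List Step) (m : ℕ) (x : G) (T : Finset G) (k : ℕ → ℕ → Bool),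
    dw (l.map dg) m (idx x) k = true → Msk m T → Okc T x l →
      ∃ m', Msk m' (T ∪ (((fl x l).tail).map can).toFinset) ∧ k m' (idx (lastF x l)) = true := by
  intro l
  induction l with
  | nil =>
    intro m x T k h hm _
    refine ⟨m, ?_, h⟩
    have h1 : T ∪ (((fl x []).tail).map can).toFinset = T := by
      show T ∪ (([] : List G).map can).toFinset = T
      simp
    rwa [h1]
  | cons s l ih =>
    intro m x T k h hm hok
    obtain ⟨hq, hr⟩ := Dw_quot (b := idx (can (x * stp s))) (hIdx.1 (x * stp s))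
    obtain ⟨hy, hok'⟩ := Dw_step (T := T) (y := x * stp s) (l := l) hok.1 hok.2
    have h1 : (bt m (ch TT (idx x) (dg s) / 1024) ||
      dw (l.map dg) (m + 2 ^ (ch TT (idx x) (dg s) / 1024)) (ch TT (idx x) (dg s) % 1024) k) =
        true := h
    rw [hTbl.1, hq, hr, Dw_bt hm hy, Bool.false_or] at h1
    obtain ⟨m', h2, h3⟩ := ih _ _ _ _ h1 (hMsk.2.2 m T _ hm hy) hok'
    rw [Dw_set] at h2
    exact ⟨m', h2, h3⟩

theorem tDw (_hCan : S_Can) (hIdx : S_Idx) (hTbl : S_Tbl) (hMsk : S_Msk) : S_Dw := by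
  refine ⟨Dw_main hIdx hTbl hMsk, ?_⟩
  intro l m x T k h hm hok hd
  have hd' : ∀ z ∈ fl x l, can z ∉ T := by
    intro z hz hzT
    refine (Finset.disjoint_left.1 hd) ?_ hzT
    unfold cs
    rw [List.mem_toFinset]
    exact List.mem_map_of_mem hz
  obtain ⟨hy, hok'⟩ := Dw_step (T := T) (y := x) (l := l) hok hd'
  obtain ⟨hq, -⟩ := Dw_quot (b := idx (can x)) (hIdx.1 (x * rho))
  have h1 : (bt m (cR (idx x) / 1024) ||
      dw (l.map dg) (m + 2 ^ (cR (idx x) / 1024)) (idx x) k) = true := h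
  rw [hTbl.2.2, hq, Dw_bt hm hy, Bool.false_or] at h1
  obtain ⟨m', h2, h3⟩ := Dw_main hIdx hTbl hMsk _ _ _ _ _ h1 (hMsk.2.2 m T _ hm hy) hok'
  rw [Dw_set] at h2
  exact ⟨m', h2, h3⟩

end Pool.Agent.Lib.MP_e0d433_co.Six
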