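import Pool.Agent.Lib.MP_e0d433_co.Six.Spec

/-!
# MP_e0d433_co, project Six: `End`, there is no tour of cost at most `146`
-/

set_option autoImplicit false

namespace Pool.Agent.Lib.MP_e0d433_co.Six

open scoped BigOperators

theorem tEnd (hCan : S_Can) (hOrb : S_Orb) (hCn1 : S_Cn1) (hCn2 : S_Cn2) (hV0 : S_V0)
    (hV1 : S_V1) : S_End := by
  intro T
  obtain ⟨-, hc2, -, -, -, hc6, -, -, -, -⟩ := hCan
  obtain ⟨ho1, ho2, -, -⟩ := hOrb T
  obtain ⟨hv, hz⟩ := hV0 T
  have htot := hCn1 T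
  -- the other orbits
  have hoth : ∀ O ∈ (Finset.univ.image T.orb).erase (T.orb T.cl), T.val O ≤ 0 := by
    intro O hO
    obtain ⟨hne, hmem⟩ := Finset.mem_erase.1 hO
    obtain ⟨c, -, rfl⟩ := Finset.mem_image.1 hmem
    exact (hV1 T c fun h => hne (ho2 c T.cl h).symm).1
  have hmem : T.orb T.cl ∈ Finset.univ.image T.orb :=
    Finset.mem_image_of_mem _ (Finset.mem_univ _)
  have hsplit : T.val (T.orb T.cl) +
      ∑ O ∈ (Finset.univ.image T.orb).erase (T.orb T.cl), T.val O = T.tot :=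
    Finset.add_sum_erase _ _ hmem
  have hsum : ∑ O ∈ (Finset.univ.image T.orb).erase (T.orb T.cl), T.val O ≤ 0 :=
    Finset.sum_nonpos hoth
  have h11 : T.val (T.orb T.cl) = 11 := by linarith
  have hs0 : ∑ O ∈ (Finset.univ.image T.orb).erase (T.orb T.cl), T.val O = 0 := by linarith
  have htot' : T.tot = 11 := by linarith
  have hzero := (Finset.sum_eq_zero_iff_of_nonpos hoth).1 hs0
  obtain ⟨z, hz1, hz2⟩ := hz h11
  -- the 1-cycle of the hole does not meet the orbit of `cl`
  have hcan : ∀ k : ℕ, can (z * rho ^ k) ∉ (T.orb T.cl).image can := by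
    intro k
    rw [hc2 z k]
    exact hz1
  have hnocl : ∀ k : ℕ, z * rho ^ k ≠ T.cl := by
    intro k h
    apply hcan k
    rw [h]
    exact Finset.mem_image_of_mem _ (ho1 _)
  have hex : ∃ k : ℕ, 1 ≤ T.e (z * rho ^ k) := by
    by_contra hcon
    push Not at hcon
    have h0 : ∀ k : ℕ, T.N (z * rho ^ k) = z * rho ^ (k + 1) := by
      intro k
      have h1 := T.h0 (z * rho ^ (k + 1)) (hnocl (k + 1))
        (Nat.lt_one_iff.1 (hcon (k + 1)))
      rw [pow_succ, ← mul_assoc, mul_inv_cancel_right] at h1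
      rw [h1, pow_succ, mul_assoc]
    have h2 : ∀ m : ℕ, (T.N ^ m) z = z * rho ^ m := by
      intro m
      induction m with
      | zero => simp
      | succ m ih => rw [pow_succ', Equiv.Perm.mul_apply, ih, h0 m]
    obtain ⟨m, hm⟩ := T.tr z T.cl
    exact hnocl m ((h2 m).symm.trans hm)
  obtain ⟨k, hk⟩ := hex
  have hyn : z * rho ^ k ∉ T.orb T.cl := fun h => hcan k (Finset.mem_image_of_mem _ h)
  have hne : T.orb T.cl ≠ T.orb (z * rho ^ k) := fun h => hyn (h ▸ ho1 _)
  have hcl : T.cl ∉ T.orb (z * rho ^ k) := fun h => hne (ho2 _ _ h)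
  have hval : T.val (T.orb (z * rho ^ k)) = 0 :=
    hzero _ (Finset.mem_erase.2 ⟨hne.symm, Finset.mem_image_of_mem _ (Finset.mem_univ _)⟩)
  have horb := (hV1 T _ hcl).2 hval hk
  have h2 := hCn2 T T.cl (z * rho ^ k) hne
  have hcard : 2 ≤ (((T.orb T.cl).image can) ∩ ((T.orb (z * rho ^ k)).image can)).card := by
    refine (hz2 k).trans ?_
    refine Finset.card_le_card_of_injOn (fun i => can (z * rho ^ k * sig ^ i)) ?_ ?_
    · intro i hi
      have hi' := Finset.mem_filter.1 (Finset.mem_coe.1 hi)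
      refine Finset.mem_coe.2 (Finset.mem_inter.2 ⟨hi'.2, ?_⟩)
      refine Finset.mem_image_of_mem _ ?_
      rw [horb]
      exact Finset.mem_image_of_mem _ hi'.1
    · intro i hi j hj hij
      have hi' := Finset.mem_filter.1 (Finset.mem_coe.1 hi)
      have hj' := Finset.mem_filter.1 (Finset.mem_coe.1 hj)
      exact hc6 _ i j (Finset.mem_range.1 hi'.1) (Finset.mem_range.1 hj'.1) hij
  have h3 : (2 : ℤ) ≤ ((((T.orb T.cl).image can) ∩
      ((T.orb (z * rho ^ k)).image can)).card : ℤ) := by exact_mod_cast hcard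
  linarith

end Pool.Agent.Lib.MP_e0d433_co.Six
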