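import Pool.Agent.Lib.MP_e0d433_co.Six.Spec

/-!
# MP_e0d433_co, project Six: equality, two or three pieces
-/

set_option autoImplicit false

namespace Pool.Agent.Lib.MP_e0d433_co.Six

open scoped BigOperators

noncomputable section

private theorem Eq6_wsum (s : ℤ) : ∀ (l : List Step) (v : ℤ), FH s v l → v + wsum l = s
  | [], v, h => by
    have h' : v = s := h
    simp [wsum, h']
  | none :: l, v, h => by
    obtain ⟨-, h2⟩ := h
    have h3 := Eq6_wsum s l (v + 1) h2
    have h4 : wsum (none :: l) = 1 + wsum l := by simp [wsum, wt]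
    rw [h4]
    linarith
  | some t :: l, v, h => by
    obtain ⟨-, -, h2⟩ := h
    have h3 := Eq6_wsum s l (v - 3) h2
    have h4 : wsum (some t :: l) = -3 + wsum l := by simp [wsum, wt]
    rw [h4]
    linarith

/-- the subpiece of a piece of score `s` -/
private theorem Eq6_sub (hF : S_FHt) (hS : S_Sub) (s : ℤ) (hs1 : 1 ≤ s) (y : G) (a : List Step)
    (hOk : Ok y a) (hs : score a = s) :
    ∃ a1 a2 a3, a = a1 ++ a2 ++ a3 ∧ FH s (-3) a2 ∧ Ok (lastF y a1) a2 ∧
      cs (lastF y a1) a2 ⊆ cs y a ∧ wsum a = wsum a2 ∧ score a2 = s := by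
  obtain ⟨a1, a2, a3, ha, hFH⟩ := hF s a hs1 (le_of_eq hs.symm)
  have h1 := Eq6_wsum s a2 (-3) hFH
  have h2 : wsum a - 3 = s := hs
  rw [ha] at hOk
  obtain ⟨h3, h4⟩ := hS.1 y a1 a2 a3 hOk
  rw [← ha] at h4
  refine ⟨a1, a2, a3, ha, hFH, h3, h4, by linarith, ?_⟩
  have h5 : score a2 = wsum a2 - 3 := rfl
  linarith

/-- a piece equals its subpiece -/
private theorem Eq6_tig (hT : S_Tig) (T R : Finset G) (y : G) (a a1 a2 a3 : List Step)
    (hOk : Ok y a) (ha : a = a1 ++ a2 ++ a3) (hT1 : T = cs (lastF y a1) a2 ∪ R)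
    (hR : Disjoint (cs y a) R) (h1 : NoExtF T (lastF (lastF y a1) a2))
    (h2 : NoExtB T (lastF y a1)) (hw : wsum a = wsum a2) : a1 = [] ∧ a3 = [] := by
  subst ha
  refine hT T y a1 a2 a3 hOk ?_ ?_ h1 h2 hw
  · rw [hT1, Finset.disjoint_union_right]
    exact ⟨Finset.sdiff_disjoint, Finset.disjoint_of_subset_left Finset.sdiff_subset hR⟩
  · rw [hT1]
    exact Finset.subset_union_left

theorem tEq6 (hQL : S_QL) (hF : S_FHt) (hS : S_Sub) (hD : S_D66) (hT : S_Tig) (hSiz : S_Siz) :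
    S_Eq6 := by
  have h120 : ∀ (m : ℕ) (y : Fin m → G) (st : Fin m → List Step), (∀ i, Ok (y i) (st i)) →
      (∀ i j, i ≠ j → Disjoint (cs (y i) (st i)) (cs (y j) (st j))) →
      ∑ i, ((st i).length + 1) ≤ 120 := hS.2.2.2.2
  refine ⟨?_, ?_⟩
  · intro y y' a b hOa hOb hab hsa hsb
    obtain ⟨a1, a2, a3, ha, hFa, hOa2, hca, hwa, hsa2⟩ := Eq6_sub hF hS 6 (by norm_num) y a hOa hsa
    obtain ⟨b1, b2, b3, hb, hFb, hOb2, hcb, hwb, hsb2⟩ := Eq6_sub hF hS 6 (by norm_num) y' b hOb hsb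
    have hd2 : Disjoint (cs (lastF y a1) a2) (cs (lastF y' b1) b2) :=
      Finset.disjoint_of_subset_left hca (Finset.disjoint_of_subset_right hcb hab)
    have hla := (hSiz (lastF y a1) a2 hOa2).2.2.2.1 (le_of_eq hsa2.symm)
    have hlb := (hSiz (lastF y' b1) b2 hOb2).2.2.2.1 (le_of_eq hsb2.symm)
    have hsum : (a2.length + 1) + (b2.length + 1) ≤ 120 := by
      have h := h120 2 ![lastF y a1, lastF y' b1] ![a2, b2] (by
        intro i
        fin_cases i
        · exact hOa2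
        · exact hOb2) (by
        intro i j hij
        fin_cases i <;> fin_cases j
        · exact absurd rfl hij
        · exact hd2
        · exact hd2.symm
        · exact absurd rfl hij)
      rw [Fin.sum_univ_two] at h
      exact h
    have hWa := ((hQL (lastF y a1) a2 hOa2).2.2.2.1 hFa).2 (by omega)
    have hWb := ((hQL (lastF y' b1) b2 hOb2).2.2.2.1 hFb).2 (by omega)
    obtain ⟨⟨hC, hH⟩, -⟩ := hD (lastF y a1) a2 (lastF y' b1) b2 hWa hWb (by omega) hOa2 hOb2 hd2
    have hc : csl [(lastF y a1, a2), (lastF y' b1, b2)] =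
        cs (lastF y a1) a2 ∪ cs (lastF y' b1) b2 := by
      simp [csl, cs, List.toFinset_append]
    rw [hc] at hC hH
    obtain ⟨hN1, hN2⟩ := hC (lastF y a1, a2) (by simp)
    obtain ⟨hM1, hM2⟩ := hC (lastF y' b1, b2) (by simp)
    obtain ⟨ha1, ha3⟩ := Eq6_tig hT _ (cs (lastF y' b1) b2) y a a1 a2 a3 hOa ha rfl
      (Finset.disjoint_of_subset_right hcb hab) hN1 hN2 hwa
    obtain ⟨hb1, hb3⟩ := Eq6_tig hT _ (cs (lastF y a1) a2) y' b b1 b2 b3 hOb hb
      (Finset.union_comm _ _) (Finset.disjoint_of_subset_right hca hab.symm) hM1 hM2 hwb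
    subst ha1 ha3 hb1 hb3
    have hea : a = a2 := by simpa using ha
    have heb : b = b2 := by simpa using hb
    rw [hea, heb]
    exact hH
  · intro y y' y'' a b c hOa hOb hOc hab hac hbc hsa hsb hsc
    obtain ⟨a1, a2, a3, ha, hFa, hOa2, hca, hwa, hsa2⟩ := Eq6_sub hF hS 6 (by norm_num) y a hOa hsa
    obtain ⟨b1, b2, b3, hb, hFb, hOb2, hcb, hwb, hsb2⟩ := Eq6_sub hF hS 6 (by norm_num) y' b hOb hsb
    obtain ⟨c1, c2, c3, hc, hFc, hOc2, hcc, hwc, hsc2⟩ := Eq6_sub hF hS 4 (by norm_num) y'' c hOc hsc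
    have hd2 : Disjoint (cs (lastF y a1) a2) (cs (lastF y' b1) b2) :=
      Finset.disjoint_of_subset_left hca (Finset.disjoint_of_subset_right hcb hab)
    have hd3 : Disjoint (cs (lastF y a1) a2) (cs (lastF y'' c1) c2) :=
      Finset.disjoint_of_subset_left hca (Finset.disjoint_of_subset_right hcc hac)
    have hd4 : Disjoint (cs (lastF y' b1) b2) (cs (lastF y'' c1) c2) :=
      Finset.disjoint_of_subset_left hcb (Finset.disjoint_of_subset_right hcc hbc)
    have hla := (hSiz (lastF y a1) a2 hOa2).2.2.2.1 (le_of_eq hsa2.symm)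
    have hlb := (hSiz (lastF y' b1) b2 hOb2).2.2.2.1 (le_of_eq hsb2.symm)
    have hlc := (hSiz (lastF y'' c1) c2 hOc2).2.1 (le_of_eq hsc2.symm)
    have hsum : (a2.length + 1) + (b2.length + 1) + (c2.length + 1) ≤ 120 := by
      have h := h120 3 ![lastF y a1, lastF y' b1, lastF y'' c1] ![a2, b2, c2] (by
        intro i
        fin_cases i
        · exact hOa2
        · exact hOb2
        · exact hOc2) (by
        intro i j hij
        fin_cases i <;> fin_cases j
        · exact absurd rfl hij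
        · exact hd2
        · exact hd3
        · exact hd2.symm
        · exact absurd rfl hij
        · exact hd4
        · exact hd3.symm
        · exact hd4.symm
        · exact absurd rfl hij)
      rw [Fin.sum_univ_three] at h
      exact h
    have hWa := ((hQL (lastF y a1) a2 hOa2).2.2.2.1 hFa).2 (by omega)
    have hWb := ((hQL (lastF y' b1) b2 hOb2).2.2.2.1 hFb).2 (by omega)
    have hWc := ((hQL (lastF y'' c1) c2 hOc2).2.2.2.2.2 hFc).2 (by omega)
    obtain ⟨hC, hH⟩ := (hD (lastF y a1) a2 (lastF y' b1) b2 hWa hWb (by omega) hOa2 hOb2 hd2).2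
      (lastF y'' c1) c2 hWc (by omega) hOc2 hd3 hd4
    have hcs : csl [(lastF y a1, a2), (lastF y' b1, b2), (lastF y'' c1, c2)] =
        cs (lastF y a1) a2 ∪ cs (lastF y' b1) b2 ∪ cs (lastF y'' c1) c2 := by
      simp [csl, cs, List.toFinset_append, Finset.union_assoc]
    rw [hcs] at hC hH
    obtain ⟨hN1, hN2⟩ := hC (lastF y a1, a2) (by simp)
    obtain ⟨hM1, hM2⟩ := hC (lastF y' b1, b2) (by simp)
    obtain ⟨hL1, hL2⟩ := hC (lastF y'' c1, c2) (by simp)
    obtain ⟨ha1, ha3⟩ := Eq6_tig hT _ (cs (lastF y' b1) b2 ∪ cs (lastF y'' c1) c2) y a a1 a2 a3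
      hOa ha (Finset.union_assoc _ _ _) (Finset.disjoint_union_right.2
        ⟨Finset.disjoint_of_subset_right hcb hab, Finset.disjoint_of_subset_right hcc hac⟩)
      hN1 hN2 hwa
    obtain ⟨hb1, hb3⟩ := Eq6_tig hT _ (cs (lastF y a1) a2 ∪ cs (lastF y'' c1) c2) y' b b1 b2 b3
      hOb hb (by rw [Finset.union_comm (cs (lastF y a1) a2), Finset.union_assoc])
      (Finset.disjoint_union_right.2
        ⟨Finset.disjoint_of_subset_right hca hab.symm, Finset.disjoint_of_subset_right hcc hbc⟩)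
      hM1 hM2 hwb
    obtain ⟨hc1, hc3⟩ := Eq6_tig hT _ (cs (lastF y a1) a2 ∪ cs (lastF y' b1) b2) y'' c c1 c2 c3
      hOc hc (Finset.union_comm _ _)
      (Finset.disjoint_union_right.2
        ⟨Finset.disjoint_of_subset_right hca hac.symm, Finset.disjoint_of_subset_right hcb hbc.symm⟩)
      hL1 hL2 hwc
    subst ha1 ha3 hb1 hb3 hc1 hc3
    have hea : a = a2 := by simpa using ha
    have heb : b = b2 := by simpa using hb
    have hec : c = c2 := by simpa using hc
    rw [hea, heb, hec]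
    exact hH

end

end Pool.Agent.Lib.MP_e0d433_co.Six
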