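import Pool.Agent.Lib.MP_e0d433_co.Six.Spec

/-!
# MP_e0d433_co, project Six: equality, one piece
-/

set_option autoImplicit false

namespace Pool.Agent.Lib.MP_e0d433_co.Six

open scoped BigOperators

noncomputable section

private theorem Eq8_wsum (s : ℤ) : ∀ (l : List Step) (v : ℤ), FH s v l → v + wsum l = s
  | [], v, h => by
    have h' : v = s := h
    simp [wsum, h']
  | none :: l, v, h => by
    obtain ⟨-, h2⟩ := h
    have h3 := Eq8_wsum s l (v + 1) h2
    have h4 : wsum (none :: l) = 1 + wsum l := by simp [wsum, wt]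
    rw [h4]
    linarith
  | some t :: l, v, h => by
    obtain ⟨-, -, h2⟩ := h
    have h3 := Eq8_wsum s l (v - 3) h2
    have h4 : wsum (some t :: l) = -3 + wsum l := by simp [wsum, wt]
    rw [h4]
    linarith

theorem tEq8 (hQL : S_QL) (hF : S_FHt) (hS : S_Sub) (hD : S_D8) (hT : S_Tig) : S_Eq8 := by
  intro y a hOk hs
  obtain ⟨a1, a2, a3, ha, hFH⟩ := hF 8 a (by norm_num) (le_of_eq hs.symm)
  subst ha
  obtain ⟨hOk2, -⟩ := hS.1 y a1 a2 a3 hOk
  have hW := (hQL (lastF y a1) a2 hOk2).2.1 hFH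
  obtain ⟨⟨hC, hH⟩, -⟩ := hD (lastF y a1) a2 hW hOk2
  have hc : csl [(lastF y a1, a2)] = cs (lastF y a1) a2 := by
    simp [csl, cs]
  rw [hc] at hC hH
  obtain ⟨hN1, hN2⟩ := hC (lastF y a1, a2) (by simp)
  have hw : wsum (a1 ++ a2 ++ a3) = wsum a2 := by
    have h1 := Eq8_wsum 8 a2 (-3) hFH
    have h2 : wsum (a1 ++ a2 ++ a3) - 3 = 8 := hs
    linarith
  obtain ⟨h1, h3⟩ := hT (cs (lastF y a1) a2) y a1 a2 a3 hOk Finset.sdiff_disjoint
    (Finset.Subset.refl _) hN1 hN2 hw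
  subst h1
  subst h3
  simpa [lastF] using hH

end

end Pool.Agent.Lib.MP_e0d433_co.Six
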