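import Pool.Agent.Lib.MP_e0d433_co.Six.Spec

/-!
# MP_e0d433_co, project Six: `Ext` (extensions)

The search `ext` for a table `TB` of moves `mv` visits all words; the forward and the backward
statement are two instances.
-/

set_option autoImplicit false

namespace Pool.Agent.Lib.MP_e0d433_co.Six

/-- flags visited along a word by the moves `mv` -/
private def Ext_fl (mv : G → Step → G) : G → List Step → List G
  | _, [] => []
  | x, s :: l => mv x s :: Ext_fl mv (mv x s) l

private theorem Ext_unf (TB n m A v : ℕ) (h : ext TB (n + 1) m A v = true) :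
    (bt m (ch TB A 0 / 1024) = true ∨
      (2 ≤ v ∧ ext TB n (m + 2 ^ (ch TB A 0 / 1024)) (ch TB A 0 % 1024) (v - 1) = true)) ∧
    ∀ t : Fin 4, bt m (ch TB A (t.val + 1) / 1024) = true ∨
      ext TB n (m + 2 ^ (ch TB A (t.val + 1) / 1024)) (ch TB A (t.val + 1) % 1024) (v + 3)
        = true := by
  unfold ext at h
  simp only [Bool.and_eq_true, Bool.or_eq_true, Nat.ble_eq] at h
  obtain ⟨⟨⟨⟨h0, h1⟩, h2⟩, h3⟩, h4⟩ := h
  refine ⟨h0, fun t => ?_⟩
  fin_cases t
  · exact h1
  · exact h2
  · exact h3
  · exact h4

private theorem Ext_child (TB : ℕ) (mv : G → Step → G)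
    (hT : ∀ (x : G) (s : Step), ch TB (idx x) (dg s) = idx (mv x s) + 1024 * idx (can (mv x s)))
    (hI : ∀ x : G, idx x < 720) (n m v : ℕ) (x : G) (s : Step)
    (h : ext TB (n + 1) m (idx x) v = true)
    (hb : ¬ bt m (idx (can (mv x s))) = true) :
    ∃ v' : ℕ, (v' : ℤ) = v - wt s ∧ 0 < v' ∧
      ext TB n (m + 2 ^ idx (can (mv x s))) (idx (mv x s)) v' = true := by
  have h1 : ch TB (idx x) (dg s) / 1024 = idx (can (mv x s)) := by
    rw [hT]
    have := hI (mv x s)
    omega
  have h2 : ch TB (idx x) (dg s) % 1024 = idx (mv x s) := by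
    rw [hT]
    have := hI (mv x s)
    omega
  obtain ⟨ha, hc⟩ := Ext_unf TB n m (idx x) v h
  rcases s with _ | t
  · have hd : dg none = 0 := rfl
    rw [hd] at h1 h2
    rw [h1, h2] at ha
    rcases ha with ha | ⟨hv, ha⟩
    · exact absurd ha hb
    · refine ⟨v - 1, ?_, by omega, ha⟩
      have : wt none = 1 := rfl
      rw [this]
      omega
  · have hd : dg (some t) = t.val + 1 := rfl
    rw [hd] at h1 h2
    have hc' := hc t
    rw [h1, h2] at hc'
    rcases hc' with ha | ha
    · exact absurd ha hb
    · refine ⟨v + 3, ?_, by omega, ha⟩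
      have : wt (some t) = -3 := rfl
      rw [this]
      omega

private theorem Ext_gen (TB : ℕ) (mv : G → Step → G)
    (hT : ∀ (x : G) (s : Step), ch TB (idx x) (dg s) = idx (mv x s) + 1024 * idx (can (mv x s)))
    (hI : ∀ x : G, idx x < 720) (hM : S_Msk) :
    ∀ (l : List Step) (s : Step) (n m v : ℕ) (x : G) (T : Finset G),
      ext TB n m (idx x) v = true → Msk m T → ((Ext_fl mv x (s :: l)).map can).Nodup →
      (∀ y ∈ Ext_fl mv x (s :: l), can y ∉ T) → wsum (s :: l) < v := by
  intro l
  induction l with
  | nil =>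
    intro s n m v x T h hm hn hy
    rcases n with _ | n
    · exact absurd h (by simp [ext])
    · have hmem : can (mv x s) ∉ T := hy _ (by simp [Ext_fl])
      obtain ⟨v', hv', hpos, -⟩ := Ext_child TB mv hT hI n m v x s h
        (fun hb => hmem ((hm (mv x s)).1 hb))
      have : wsum [s] = wt s := by simp [wsum]
      rw [this]
      omega
  | cons s' l ih =>
    intro s n m v x T h hm hn hy
    rcases n with _ | n
    · exact absurd h (by simp [ext])
    · have hmem : can (mv x s) ∉ T := hy _ (by simp [Ext_fl])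
      obtain ⟨v', hv', hpos, he⟩ := Ext_child TB mv hT hI n m v x s h
        (fun hb => hmem ((hm (mv x s)).1 hb))
      have hfl : Ext_fl mv x (s :: s' :: l) = mv x s :: Ext_fl mv (mv x s) (s' :: l) := rfl
      rw [hfl, List.map_cons, List.nodup_cons] at hn
      have key := ih s' n (m + 2 ^ idx (can (mv x s))) v' (mv x s) (insert (can (mv x s)) T) he
        (hM.2.2 m T (mv x s) hm hmem) hn.2 (by
          intro y hy1 hy2
          rcases Finset.mem_insert.1 hy2 with hy3 | hy3
          · exact hn.1 (hy3 ▸ List.mem_map_of_mem hy1)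
          · exact hy y (by rw [hfl]; exact List.mem_cons_of_mem _ hy1) hy3)
      have hw : wsum (s :: s' :: l) = wt s + wsum (s' :: l) := by
        simp [wsum]
      rw [hw]
      omega

private theorem Ext_fwd (l : List Step) :
    ∀ x : G, Ext_fl (fun x s => x * stp s) x l = (fl x l).tail := by
  induction l with
  | nil => intro x; rfl
  | cons s l ih =>
    intro x
    have h1 : Ext_fl (fun x s => x * stp s) x (s :: l)
      = (x * stp s) :: Ext_fl (fun x s => x * stp s) (x * stp s) l := rfl
    have h2 : (fl x (s :: l)).tail = fl (x * stp s) l := rfl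
    rw [h1, h2, ih (x * stp s)]
    cases l <;> rfl

private theorem Ext_fl_snoc (s : Step) (l : List Step) :
    ∀ y : G, fl y (l ++ [s]) = fl y l ++ [lastF y l * stp s] := by
  induction l with
  | nil => intro y; rfl
  | cons s' l ih =>
    intro y
    have h1 : fl y (s' :: l ++ [s]) = y :: fl (y * stp s') (l ++ [s]) := rfl
    have h2 : fl y (s' :: l) = y :: fl (y * stp s') l := rfl
    have h3 : lastF y (s' :: l) = lastF (y * stp s') l := rfl
    rw [h1, h2, h3, ih (y * stp s')]
    rfl

private theorem Ext_last_snoc (s : Step) (l : List Step) :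
    ∀ y : G, lastF y (l ++ [s]) = lastF y l * stp s := by
  induction l with
  | nil => intro y; rfl
  | cons s' l ih =>
    intro y
    exact ih (y * stp s')

private theorem Ext_bwd (y : G) (l : List Step) :
    ∀ (s : Step) (x : G), lastF y l * stp s = x →
      Ext_fl (fun x s => x * (stp s)⁻¹) x (s :: l.reverse) = (fl y l).reverse := by
  induction l using List.reverseRecOn with
  | nil =>
    intro s x hx
    have h1 : lastF y [] = y := rfl
    rw [h1] at hx
    have h2 : Ext_fl (fun x s => x * (stp s)⁻¹) x (s :: ([] : List Step).reverse)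
      = [x * (stp s)⁻¹] := rfl
    rw [h2, ← hx, mul_inv_cancel_right]
    rfl
  | append_singleton l s' ih =>
    intro s x hx
    rw [Ext_last_snoc] at hx
    have h0 : x * (stp s)⁻¹ = lastF y l * stp s' := by
      rw [← hx, mul_inv_cancel_right]
    have h1 : (l ++ [s']).reverse = s' :: l.reverse := by simp
    have h2 : Ext_fl (fun x s => x * (stp s)⁻¹) x (s :: s' :: l.reverse)
      = (x * (stp s)⁻¹) :: Ext_fl (fun x s => x * (stp s)⁻¹) (x * (stp s)⁻¹)
        (s' :: l.reverse) := rfl
    rw [h1, h2, ih s' (x * (stp s)⁻¹) h0.symm, Ext_fl_snoc, List.reverse_append, h0]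
    rfl

theorem tExt (hCan : S_Can) (hIdx : S_Idx) (hTbl : S_Tbl) (hMsk : S_Msk) : S_Ext := by
  have _ := hCan
  refine ⟨?_, ?_⟩
  · intro n m x T h hm s l hok hdis
    have hf : Ext_fl (fun x s => x * stp s) x (s :: l) = fl (x * stp s) l :=
      Ext_fwd (s :: l) x
    have key := Ext_gen TT (fun x s => x * stp s) hTbl.1 hIdx.1 hMsk l s n m 0 x T h hm
      (by rw [hf]; exact hok)
      (by
        intro y hy hyT
        rw [hf] at hy
        exact Finset.disjoint_left.1 hdis
          (by unfold cs; exact List.mem_toFinset.2 (List.mem_map_of_mem hy)) hyT)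
    simpa using key
  · intro n m x T h hm y l s hok hdis hx
    have hf : Ext_fl (fun x s => x * (stp s)⁻¹) x (s :: l.reverse) = (fl y l).reverse :=
      Ext_bwd y l s x hx
    have key := Ext_gen TI (fun x s => x * (stp s)⁻¹) hTbl.2.1 hIdx.1 hMsk l.reverse s n m 0 x T
      h hm
      (by
        rw [hf, List.map_reverse, List.nodup_reverse]
        exact hok)
      (by
        intro z hz hzT
        rw [hf, List.mem_reverse] at hz
        exact Finset.disjoint_left.1 hdis
          (by unfold cs; exact List.mem_toFinset.2 (List.mem_map_of_mem hz)) hzT)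
    have hw : wsum (l ++ [s]) = wsum (s :: l.reverse) := by
      simp [wsum, List.sum_reverse, add_comm]
    rw [hw]
    simpa using key

end Pool.Agent.Lib.MP_e0d433_co.Six
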