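import Pool.Agent.Lib.MP_e0d433_co.Six.Spec

/-!
# MP_e0d433_co, project Six: assembly of the two bounds
-/

set_option autoImplicit false

namespace Pool.Agent.Lib.MP_e0d433_co.Six

theorem tFin (hWrd : S_Wrd) (hEnd : S_End) (hUpp : S_Upp) : S_Fin := by
  have h : IsLeast {k : ℕ | ∃ w : List (Fin 6), IsSuperperm 6 w ∧ w.length = k} 872 := by
    refine ⟨?_, ?_⟩
    · obtain ⟨w, hw, hl⟩ := hUpp
      exact ⟨w, hw, hl⟩
    · rintro k ⟨w, hw, rfl⟩
      by_contra hlt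
      obtain ⟨T⟩ := hWrd w hw (by omega)
      exact hEnd T
  refine ⟨h, ?_⟩
  unfold superLen
  exact h.csInf_eq

end Pool.Agent.Lib.MP_e0d433_co.Six
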