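import Pool.Agent.Lib.MP_e0d433_co.Six.Spec

/-!
# MP_e0d433_co, project Six: `S_Go`, soundness of the search
-/

set_option autoImplicit false

namespace Pool.Agent.Lib.MP_e0d433_co.Six

private theorem Go_fl (y : G) (l : List Step) : fl y l = y :: (fl y l).tail := by
  cases l <;> rfl

private theorem Go_okc {T : Finset G} {x : G} {s : Step} {l : List Step} (h : Okc T x (s :: l)) :
    can (x * stp s) ∉ T ∧ Okc (insert (can (x * stp s)) T) (x * stp s) l := by
  obtain ⟨h1, h2⟩ := h
  have e : (fl x (s :: l)).tail = fl (x * stp s) l := rfl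
  rw [e] at h1 h2
  rw [Go_fl (x * stp s) l] at h1 h2
  rw [List.map_cons, List.nodup_cons] at h1
  refine ⟨h2 _ List.mem_cons_self, h1.2, ?_⟩
  intro y hy
  rw [Finset.mem_insert, not_or]
  refine ⟨?_, h2 _ (List.mem_cons_of_mem _ hy)⟩
  intro hc
  refine h1.1 ?_
  rw [← hc]
  exact List.mem_map_of_mem hy

/-- the child for a step which is not blocked -/
private theorem Go_kid (hIdx : S_Idx) (hTbl : S_Tbl) (hMsk : S_Msk) {n u m v mx : ℕ} {x : G}
    {T : Finset G} {w : List ℕ} {s : Step} (hm : Msk m T) (hx : can (x * stp s) ∉ T)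
    (h : (bt m (ch TT (idx x) (dg s) / 1024) ||
      go n u (m + 2 ^ (ch TT (idx x) (dg s) / 1024)) (ch TT (idx x) (dg s) % 1024) v mx w) = true) :
    go n u (m + 2 ^ idx (can (x * stp s))) (idx (x * stp s)) v mx w = true ∧
      Msk (m + 2 ^ idx (can (x * stp s))) (insert (can (x * stp s)) T) := by
  refine ⟨?_, hMsk.2.2 m T _ hm hx⟩
  have h1 := hTbl.1 x s
  have h2 := hIdx.1 (x * stp s)
  have h3 : ch TT (idx x) (dg s) / 1024 = idx (can (x * stp s)) := by
    rw [h1]; omega
  have h4 : ch TT (idx x) (dg s) % 1024 = idx (x * stp s) := by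
    rw [h1]; omega
  rw [h3, h4, Bool.or_eq_true] at h
  rcases h with h | h
  · exact absurd ((hm (x * stp s)).1 h) hx
  · exact h

private theorem Go_word (s : Step) (l : List Step) (w : List ℕ) :
    ((s :: l).map dg).reverse ++ w = (l.map dg).reverse ++ (dg s :: w) := by
  rw [List.map_cons, List.reverse_cons, List.append_assoc]
  rfl

private theorem Go_len (s : Step) (l : List Step) (u : ℕ) : u + (s :: l).length = u + 1 + l.length := by
  rw [List.length_cons]; omega

/-- **Go** -/
theorem tGo (_hCan : S_Can) (hIdx : S_Idx) (hTbl : S_Tbl) (hMsk : S_Msk) : S_Go := by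
  intro l
  induction l with
  | nil =>
    intro n u m v mx x T w h _ _ _
    cases n with
    | zero => exact absurd h (by simp [go])
    | succ n =>
      rw [go, Bool.and_eq_true, Bool.and_eq_true] at h
      exact h.1.1
  | cons s l ih =>
    intro n u m v mx x T w h hm hok hpos
    obtain ⟨hx, hok'⟩ := Go_okc hok
    cases n with
    | zero => exact absurd h (by simp [go])
    | succ n =>
      rw [go, Bool.and_eq_true, Bool.and_eq_true] at h
      rw [Go_word, Go_len]
      cases s with
      | none =>
        obtain ⟨h1, h2⟩ := Go_kid hIdx hTbl hMsk (s := none) hm hx h.1.2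
        exact ih n (u + 1) _ (v + 1) mx _ _ (0 :: w) h1 h2 hok' hpos
      | some t =>
        obtain ⟨hv, hpos'⟩ := hpos
        have h5 := h.2
        have hv4 : Nat.ble v 4 = false := by
          rw [Bool.eq_false_iff]
          intro h6
          have h7 := Nat.le_of_ble_eq_true h6
          omega
        rw [hv4, Bool.false_or, Bool.and_eq_true, Bool.and_eq_true, Bool.and_eq_true] at h5
        obtain ⟨⟨⟨k1, k2⟩, k3⟩, k4⟩ := h5
        have key : (bt m (ch TT (idx x) (dg (some t)) / 1024) ||
            go n (u + 1) (m + 2 ^ (ch TT (idx x) (dg (some t)) / 1024))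
              (ch TT (idx x) (dg (some t)) % 1024) (v - 3) (max mx v) (dg (some t) :: w)) = true := by
          rcases t with ⟨t, ht⟩
          interval_cases t
          · exact k1
          · exact k2
          · exact k3
          · exact k4
        obtain ⟨h1, h2⟩ := Go_kid hIdx hTbl hMsk (s := some t) hm hx key
        exact ih n (u + 1) _ (v - 3) (max mx v) _ _ (dg (some t) :: w) h1 h2 hok' hpos'

end Pool.Agent.Lib.MP_e0d433_co.Six
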