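import Pool.Agent.Lib.MP_e0d433_co.Six.Spec

/-!
# MP_e0d433_co, project Six, module `Idx`: the numbering of the flags
-/

set_option autoImplicit false

namespace Pool.Agent.Lib.MP_e0d433_co.Six

open scoped BigOperators

private def Idx_K6 (a b c d e f : Fin 6) : Prop :=
  rk a b c d e < 720 ∧ (a = 0 ∨ 120 ≤ rk a b c d e) ∧ (a ≠ 0 ∨ rk a b c d e < 120) ∧
    (TL >>> (18 * rk a b c d e)) % 262144 =
      a.val + 8 * b.val + 64 * c.val + 512 * d.val + 4096 * e.val + 32768 * f.val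

private instance (a b c d e f : Fin 6) : Decidable (Idx_K6 a b c d e f) := by
  unfold Idx_K6
  infer_instance

private def Idx_K5 (a b c d e : Fin 6) : Prop :=
  ∀ f : Fin 6, f ≠ a ∧ f ≠ b ∧ f ≠ c ∧ f ≠ d ∧ f ≠ e → Idx_K6 a b c d e f

private instance (a b c d e : Fin 6) : Decidable (Idx_K5 a b c d e) := by
  unfold Idx_K5
  infer_instance

private def Idx_K4 (a b c d : Fin 6) : Prop :=
  ∀ e : Fin 6, e ≠ a ∧ e ≠ b ∧ e ≠ c ∧ e ≠ d → Idx_K5 a b c d e

private instance (a b c d : Fin 6) : Decidable (Idx_K4 a b c d) := by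
  unfold Idx_K4
  infer_instance

private def Idx_K3 (a b c : Fin 6) : Prop :=
  ∀ d : Fin 6, d ≠ a ∧ d ≠ b ∧ d ≠ c → Idx_K4 a b c d

private instance (a b c : Fin 6) : Decidable (Idx_K3 a b c) := by
  unfold Idx_K3
  infer_instance

private theorem Idx_key0 : ∀ a b : Fin 6, b ≠ a → ∀ c : Fin 6, c ≠ a ∧ c ≠ b → Idx_K3 a b c := by
  decide +kernel

private theorem Idx_key (a b : Fin 6) (h1 : b ≠ a) (c : Fin 6) (h2 : c ≠ a) (h3 : c ≠ b)
    (d : Fin 6) (h4 : d ≠ a) (h5 : d ≠ b) (h6 : d ≠ c) (e : Fin 6) (h7 : e ≠ a) (h8 : e ≠ b)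
    (h9 : e ≠ c) (h10 : e ≠ d) (f : Fin 6) (h11 : f ≠ a) (h12 : f ≠ b) (h13 : f ≠ c)
    (h14 : f ≠ d) (h15 : f ≠ e) :
    rk a b c d e < 720 ∧ (a = 0 ∨ 120 ≤ rk a b c d e) ∧ (a ≠ 0 ∨ rk a b c d e < 120) ∧
    (TL >>> (18 * rk a b c d e)) % 262144 =
      a.val + 8 * b.val + 64 * c.val + 512 * d.val + 4096 * e.val + 32768 * f.val :=
  Idx_key0 a b h1 c ⟨h2, h3⟩ d ⟨h4, h5, h6⟩ e ⟨h7, h8, h9, h10⟩ f ⟨h11, h12, h13, h14, h15⟩

private theorem Idx_rho : ∀ k : Fin 6, (rho ^ k.val) 0 = k := by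
  decide +kernel

private theorem Idx_all (x : G) : idx x < 720 ∧ (x 0 = 0 ∨ 120 ≤ idx x) ∧
    (x 0 ≠ 0 ∨ idx x < 120) ∧
    (TL >>> (18 * idx x)) % 262144 =
      (x 0).val + 8 * (x 1).val + 64 * (x 2).val + 512 * (x 3).val + 4096 * (x 4).val
        + 32768 * (x 5).val := by
  have h : ∀ i j : Fin 6, i ≠ j → x i ≠ x j := fun i j hij he => hij (x.injective he)
  exact Idx_key (x 0) (x 1) (h _ _ (by decide)) (x 2) (h _ _ (by decide)) (h _ _ (by decide))
    (x 3) (h _ _ (by decide)) (h _ _ (by decide)) (h _ _ (by decide))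
    (x 4) (h _ _ (by decide)) (h _ _ (by decide)) (h _ _ (by decide)) (h _ _ (by decide))
    (x 5) (h _ _ (by decide)) (h _ _ (by decide)) (h _ _ (by decide)) (h _ _ (by decide))
    (h _ _ (by decide))

private theorem Idx_inj : Function.Injective idx := by
  intro x y hxy
  have h1 := (Idx_all x).2.2.2
  have h2 := (Idx_all y).2.2.2
  rw [hxy, h2] at h1
  have b0 := (x 0).isLt
  have b1 := (x 1).isLt
  have b2 := (x 2).isLt
  have b3 := (x 3).isLt
  have b4 := (x 4).isLt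
  have b5 := (x 5).isLt
  have c0 := (y 0).isLt
  have c1 := (y 1).isLt
  have c2 := (y 2).isLt
  have c3 := (y 3).isLt
  have c4 := (y 4).isLt
  have c5 := (y 5).isLt
  refine Equiv.ext fun i => ?_
  fin_cases i
  · exact Fin.ext (by change (x 0).val = (y 0).val; omega)
  · exact Fin.ext (by change (x 1).val = (y 1).val; omega)
  · exact Fin.ext (by change (x 2).val = (y 2).val; omega)
  · exact Fin.ext (by change (x 3).val = (y 3).val; omega)
  · exact Fin.ext (by change (x 4).val = (y 4).val; omega)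
  · exact Fin.ext (by change (x 5).val = (y 5).val; omega)

private theorem Idx_can0 (x : G) : (can x) 0 = 0 := by
  unfold can
  rw [Equiv.Perm.mul_apply, Idx_rho]
  exact x.apply_symm_apply 0

private theorem Idx_surj (i : ℕ) (hi : i < 720) : ∃ x : G, idx x = i := by
  have h1 : (Finset.univ.image idx) ⊆ Finset.range 720 := by
    intro j hj
    obtain ⟨x, -, rfl⟩ := Finset.mem_image.1 hj
    exact Finset.mem_range.2 (Idx_all x).1
  have h2 : (Finset.univ.image idx).card = 720 := by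
    rw [Finset.card_image_of_injective _ Idx_inj, Finset.card_univ, Fintype.card_perm,
      Fintype.card_fin]
    rfl
  have h3 : Finset.univ.image idx = Finset.range 720 :=
    Finset.eq_of_subset_of_card_le h1 (by rw [h2, Finset.card_range])
  have h4 : i ∈ Finset.univ.image idx := by
    rw [h3]
    exact Finset.mem_range.2 hi
  obtain ⟨x, -, hx⟩ := Finset.mem_image.1 h4
  exact ⟨x, hx⟩

theorem tIdx : S_Idx := by
  refine ⟨fun x => (Idx_all x).1, Idx_inj, rfl, fun x => ?_, Idx_surj, fun z hz => ?_⟩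
  · rcases (Idx_all (can x)).2.2.1 with h | h
    · exact absurd (Idx_can0 x) h
    · exact h
  · obtain ⟨x, hx⟩ := Idx_surj z (by omega)
    refine ⟨x, hx, ?_⟩
    rcases (Idx_all x).2.1 with h | h
    · have h1 : x.symm 0 = 0 := by
        rw [Equiv.symm_apply_eq]
        exact h.symm
      unfold can
      rw [h1]
      exact mul_one x
    · omega

end Pool.Agent.Lib.MP_e0d433_co.Six
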