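import Pool.Agent.Lib.MP_e0d433_co.Six.Spec

/-!
# MP_e0d433_co, project Six: two or three pieces (helper98)
-/

set_option autoImplicit false

namespace Pool.Agent.Lib.MP_e0d433_co.Six

open scoped BigOperators

private theorem Ma1_sub (hFHt : S_FHt) (hSub : S_Sub) (s : ℤ) (hs : 1 ≤ s) (y : G)
    (a : List Step) (ha : Ok y a) (h : s ≤ score a) :
    ∃ (y1 : G) (a1 : List Step), Ok y1 a1 ∧ cs y1 a1 ⊆ cs y a ∧ FH s (-3) a1 ∧
      a1.length ≤ a.length := by
  obtain ⟨st1, st2, st3, h1, h2⟩ := hFHt s a hs h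
  rw [h1] at ha
  obtain ⟨h3, h4⟩ := hSub.1 y st1 st2 st3 ha
  refine ⟨lastF y st1, st2, h3, ?_, h2, ?_⟩
  · rw [h1]
    exact h4
  · rw [h1]
    simp only [List.length_append]
    omega

private theorem Ma1_two (hSub : S_Sub) (y y' : G) (a b : List Step) (ha : Ok y a) (hb : Ok y' b)
    (hab : Disjoint (cs y a) (cs y' b)) : a.length + b.length ≤ 118 := by
  have h1 := hSub.2.2.2.2 2 ![y, y'] ![a, b]
    (by
      intro i
      fin_cases i
      · exact ha
      · exact hb)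
    (by
      intro i j hij
      fin_cases i <;> fin_cases j
      · exact absurd rfl hij
      · exact hab
      · exact hab.symm
      · exact absurd rfl hij)
  rw [Fin.sum_univ_two] at h1
  have h2 : (![a, b] 0).length + 1 + ((![a, b] 1).length + 1) = a.length + 1 + (b.length + 1) :=
    rfl
  omega

private theorem Ma1_three (hSub : S_Sub) (y y' y'' : G) (a b c : List Step) (ha : Ok y a)
    (hb : Ok y' b) (hc : Ok y'' c) (hab : Disjoint (cs y a) (cs y' b))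
    (hac : Disjoint (cs y a) (cs y'' c)) (hbc : Disjoint (cs y' b) (cs y'' c)) :
    a.length + b.length + c.length ≤ 117 := by
  have h1 := hSub.2.2.2.2 3 ![y, y', y''] ![a, b, c]
    (by
      intro i
      fin_cases i
      · exact ha
      · exact hb
      · exact hc)
    (by
      intro i j hij
      fin_cases i <;> fin_cases j
      · exact absurd rfl hij
      · exact hab
      · exact hac
      · exact hab.symm
      · exact absurd rfl hij
      · exact hbc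
      · exact hac.symm
      · exact hbc.symm
      · exact absurd rfl hij)
  rw [Fin.sum_univ_three] at h1
  have h2 : (![a, b, c] 0).length + 1 + ((![a, b, c] 1).length + 1) +
      ((![a, b, c] 2).length + 1) = a.length + 1 + (b.length + 1) + (c.length + 1) := rfl
  omega

theorem tMa1 (hQL : S_QL) (hFHt : S_FHt) (hSub : S_Sub) (hD75 : S_D75) (hD655 : S_D655)
    (hD8 : S_D8) (hSiz : S_Siz) : S_Ma1 := by
  refine ⟨?_, ?_, ?_⟩
  · intro y y' a b ha hb hab h8 h4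
    obtain ⟨y1, a1, hok1, hcs1, hf1, -⟩ := Ma1_sub hFHt hSub 8 (by norm_num) y a ha h8
    obtain ⟨y2, b2, hok2, hcs2, hf2, hl2⟩ := Ma1_sub hFHt hSub 4 (by norm_num) y' b hb h4
    have hs := (hSiz y a ha).2.2.2.2.2 h8
    have ht := Ma1_two hSub y y' a b ha hb hab
    have hW8 := (hQL y1 a1 hok1).2.1 hf1
    have hW4 := ((hQL y2 b2 hok2).2.2.2.2.2 hf2).2 (by omega)
    have hd : Disjoint (cs y1 a1) (cs y2 b2) := Disjoint.mono hcs1 hcs2 hab
    exact (hD8 y1 a1 hW8 hok1).2 y2 b2 hW4 (Ma1_two hSub y1 y2 a1 b2 hok1 hok2 hd) hok2 hd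
  · intro y y' a b ha hb hab h7 h5
    obtain ⟨y1, a1, hok1, hcs1, hf1, -⟩ := Ma1_sub hFHt hSub 7 (by norm_num) y a ha h7
    obtain ⟨y2, b2, hok2, hcs2, hf2, hl2⟩ := Ma1_sub hFHt hSub 5 (by norm_num) y' b hb h5
    have hs := (hSiz y a ha).2.2.2.2.1 h7
    have ht := Ma1_two hSub y y' a b ha hb hab
    have hd : Disjoint (cs y1 a1) (cs y2 b2) := Disjoint.mono hcs1 hcs2 hab
    have ht2 := Ma1_two hSub y1 y2 a1 b2 hok1 hok2 hd
    obtain ⟨h32, hW5⟩ := (hQL y2 b2 hok2).2.2.2.2.1 hf2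
    have hW5' := hW5 (by omega)
    have hW7 := ((hQL y1 a1 hok1).2.2.1 hf1).2 (by omega)
    exact hD75 y1 a1 y2 b2 hW7 hW5' ht2 hok1 hok2 hd
  · intro y y' y'' a b c ha hb hc hab hac hbc h6 h5 h5'
    obtain ⟨y1, a1, hok1, hcs1, hf1, -⟩ := Ma1_sub hFHt hSub 6 (by norm_num) y a ha h6
    obtain ⟨y2, b2, hok2, hcs2, hf2, -⟩ := Ma1_sub hFHt hSub 5 (by norm_num) y' b hb h5
    obtain ⟨y3, c3, hok3, hcs3, hf3, -⟩ := Ma1_sub hFHt hSub 5 (by norm_num) y'' c hc h5'
    have hd12 : Disjoint (cs y1 a1) (cs y2 b2) := Disjoint.mono hcs1 hcs2 hab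
    have hd13 : Disjoint (cs y1 a1) (cs y3 c3) := Disjoint.mono hcs1 hcs3 hac
    have hd23 : Disjoint (cs y2 b2) (cs y3 c3) := Disjoint.mono hcs2 hcs3 hbc
    have ht := Ma1_three hSub y1 y2 y3 a1 b2 c3 hok1 hok2 hok3 hd12 hd13 hd23
    obtain ⟨h45, hW6⟩ := (hQL y1 a1 hok1).2.2.2.1 hf1
    obtain ⟨h32, hW5⟩ := (hQL y2 b2 hok2).2.2.2.2.1 hf2
    obtain ⟨h32', hW5'⟩ := (hQL y3 c3 hok3).2.2.2.2.1 hf3
    exact hD655 y1 a1 y2 b2 y3 c3 (hW6 (by omega)) (hW5 (by omega)) (hW5' (by omega)) ht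
      hok1 hok2 hok3 hd12 hd13 hd23

end Pool.Agent.Lib.MP_e0d433_co.Six
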