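import Pool.Agent.Lib.MP_e0d433_co.Six.Spec

/-!
# MP_e0d433_co, project Six, module Max (helper4)
-/

set_option autoImplicit false

namespace Pool.Agent.Lib.MP_e0d433_co.Six

open scoped BigOperators

noncomputable section

/-- membership in the set of a list of pieces -/
theorem Max_mem (ps : List (G × List Step)) (x : G) :
    x ∈ csl ps ↔ ∃ i : Fin ps.length, x ∈ cs (ps.get i).1 (ps.get i).2 := by
  unfold csl cs
  simp only [List.mem_toFinset, List.map_flatMap, List.mem_flatMap]
  constructor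
  · rintro ⟨P, hP, hx⟩
    obtain ⟨i, hi⟩ := List.mem_iff_get.mp hP
    exact ⟨i, by rw [hi]; exact hx⟩
  · rintro ⟨i, hx⟩
    exact ⟨ps.get i, List.get_mem _ _, hx⟩

/-- the pieces are correct -/
theorem Max_ok (ps : List (G × List Step)) (h : Okl ps) (i : Fin ps.length) :
    Ok (ps.get i).1 (ps.get i).2 := by
  unfold Okl at h
  rw [List.map_flatMap, List.nodup_flatMap] at h
  exact h.1 _ (List.get_mem _ _)

/-- the pieces are disjoint -/
theorem Max_dis (ps : List (G × List Step)) (h : Okl ps) (i j : Fin ps.length) (hij : i ≠ j) :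
    Disjoint (cs (ps.get i).1 (ps.get i).2) (cs (ps.get j).1 (ps.get j).2) := by
  unfold Okl at h
  rw [List.map_flatMap, List.nodup_flatMap, List.pairwise_iff_get] at h
  rw [Finset.disjoint_left]
  intro x hx hy
  unfold cs at hx hy
  rw [List.mem_toFinset] at hx hy
  rcases lt_or_gt_of_ne hij with hlt | hlt
  · exact h.2 i j hlt hx hy
  · exact h.2 j i hlt hy hx

theorem tMax (_hSub : S_Sub) (hCas : S_Cas) (hE8 : S_Eq8) (hE6 : S_Eq6) : S_Max := by
  intro ps hok
  have hs : (ps.map fun P => score P.2 - 4).sum =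
      ∑ i : Fin ps.length, (score (ps.get i).2 - 4) := by
    rw [← Fin.sum_univ_fun_getElem]
    rfl
  rw [hs]
  obtain ⟨h1, h2⟩ := hCas ps.length (fun i => (ps.get i).1) (fun i => (ps.get i).2)
    (Max_ok ps hok) (Max_dis ps hok)
  refine ⟨h1, fun h => ?_⟩
  rcases h2 h with ⟨i, hi, hall⟩ | ⟨i, j, hij, hi, hj, hall | ⟨l, hli, hlj, hl, hall⟩⟩
  · have hc : csl ps = cs (ps.get i).1 (ps.get i).2 := by
      ext x
      rw [Max_mem]
      constructor
      · rintro ⟨k, hk⟩
        rw [hall k] at hk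
        exact hk
      · intro hx
        exact ⟨i, hx⟩
    rw [hc]
    exact hE8 _ _ (Max_ok ps hok i) hi
  · have hc : csl ps = cs (ps.get i).1 (ps.get i).2 ∪ cs (ps.get j).1 (ps.get j).2 := by
      ext x
      rw [Max_mem, Finset.mem_union]
      constructor
      · rintro ⟨k, hk⟩
        rcases hall k with e | e
        · rw [e] at hk; exact Or.inl hk
        · rw [e] at hk; exact Or.inr hk
      · rintro (hx | hx)
        · exact ⟨i, hx⟩
        · exact ⟨j, hx⟩
    rw [hc]
    exact hE6.1 _ _ _ _ (Max_ok ps hok i) (Max_ok ps hok j) (Max_dis ps hok i j hij) hi hj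
  · have hc : csl ps = cs (ps.get i).1 (ps.get i).2 ∪ cs (ps.get j).1 (ps.get j).2 ∪
        cs (ps.get l).1 (ps.get l).2 := by
      ext x
      rw [Max_mem, Finset.mem_union, Finset.mem_union]
      constructor
      · rintro ⟨k, hk⟩
        rcases hall k with e | e | e
        · rw [e] at hk; exact Or.inl (Or.inl hk)
        · rw [e] at hk; exact Or.inl (Or.inr hk)
        · rw [e] at hk; exact Or.inr hk
      · rintro ((hx | hx) | hx)
        · exact ⟨i, hx⟩
        · exact ⟨j, hx⟩
        · exact ⟨l, hx⟩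
    rw [hc]
    exact hE6.2 _ _ _ _ _ _ (Max_ok ps hok i) (Max_ok ps hok j) (Max_ok ps hok l)
      (Max_dis ps hok i j hij) (Max_dis ps hok i l (Ne.symm hli)) (Max_dis ps hok j l (Ne.symm hlj))
      hi hj hl

end

end Pool.Agent.Lib.MP_e0d433_co.Six
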