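import Pool.Agent.Lib.MP_e0d433_co.Six.Spec

/-!
# MP_e0d433_co, project Six: masks
-/

set_option autoImplicit false

namespace Pool.Agent.Lib.MP_e0d433_co.Six

private theorem Msk_bt (m b : ℕ) : bt m b = m.testBit b := by
  rw [Bool.eq_iff_iff, Nat.testBit_eq_decide_div_mod_eq, decide_eq_true_iff, bt, Nat.beq_eq,
    Nat.shiftRight_eq_div_pow]

private theorem Msk_add (m j t : ℕ) (h : m.testBit j = false) :
    (2 ^ j + m).testBit t = (m.testBit t || decide (t = j)) := by
  rcases lt_trichotomy t j with h1 | h1 | h1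
  · rw [Nat.testBit_two_pow_add_gt h1, decide_eq_false (by omega), Bool.or_false]
  · subst h1
    rw [Nat.testBit_two_pow_add_eq, h]
    simp
  · obtain ⟨d, rfl⟩ : ∃ d, t = d + (j + 1) := ⟨t - (j + 1), by omega⟩
    rw [Nat.testBit_add, Nat.testBit_add, decide_eq_false (by omega), Bool.or_false]
    have h2 : m / 2 ^ j % 2 = 0 := by
      rw [Nat.testBit_eq_decide_div_mod_eq, decide_eq_false_iff_not] at h
      omega
    have h3 : (2 ^ j + m) / 2 ^ j = m / 2 ^ j + 1 := by
      rw [Nat.add_div_left _ (Nat.two_pow_pos j)]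
    rw [pow_succ, ← Nat.div_div_eq_div_mul, ← Nat.div_div_eq_div_mul, h3]
    have h4 : (m / 2 ^ j + 1) / 2 = m / 2 ^ j / 2 := by omega
    rw [h4]

private theorem Msk_ins (hIdx : S_Idx) (m : ℕ) (T : Finset G) (x : G) (hm : Msk m T)
    (hx : can x ∉ T) : Msk (m + 2 ^ idx (can x)) (insert (can x) T) := by
  intro y
  have h0 : m.testBit (idx (can x)) = false := by
    rw [← Bool.not_eq_true, ← Msk_bt]
    exact fun h => hx ((hm x).1 h)
  rw [Msk_bt, add_comm, Msk_add _ _ _ h0, Bool.or_eq_true, ← Msk_bt, hm y, decide_eq_true_iff,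
    Finset.mem_insert, hIdx.2.1.eq_iff]
  exact or_comm

theorem tMsk (_hCan : S_Can) (hIdx : S_Idx) : S_Msk := by
  have h0 : Msk 0 ∅ := by
    intro x
    rw [Msk_bt]
    simp
  refine ⟨h0, ?_, Msk_ins hIdx⟩
  have hc : can 1 = 1 := by
    have h1 : ((1 : G).symm 0).val = 0 := rfl
    rw [can, h1, pow_zero, mul_one]
  have h1 := Msk_ins hIdx 0 ∅ 1 h0 (Finset.notMem_empty _)
  rw [hc, hIdx.2.2.1, zero_add, pow_zero, insert_empty_eq] at h1
  rw [hc]
  exact h1

end Pool.Agent.Lib.MP_e0d433_co.Six
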