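import Pool.Agent.Lib.MP_e0d433_co.Six.Spec

/-!
# MP_e0d433_co, project Six: an orbit as a path
-/

set_option autoImplicit false

namespace Pool.Agent.Lib.MP_e0d433_co.Six

open scoped BigOperators

private theorem Opn_orb (T : Tour) (c x : G) : x ∈ T.orb c ↔ ∃ k : ℕ, (T.Out ^ k) c = x := by
  classical
  unfold Tour.orb
  rw [Finset.mem_filter]
  exact ⟨fun h => h.2, fun h => ⟨Finset.mem_univ _, h⟩⟩

private theorem Opn_out (T : Tour) (c : G) : T.Out c = T.N (c * rho⁻¹) := rfl

private theorem Opn_pow (f : Equiv.Perm G) (n : ℕ) (x : G) : (f ^ n) (f x) = (f ^ (n + 1)) x := by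
  rw [pow_succ, Equiv.Perm.mul_apply]

private theorem Opn_pow' (f : Equiv.Perm G) (n : ℕ) (x : G) : f ((f ^ n) x) = (f ^ (n + 1)) x := by
  rw [pow_succ', Equiv.Perm.mul_apply]

private theorem Opn_vlink {v v' : Vis} (h : v.last = v'.last) (w : Vis) (hw : VLink v w) :
    VLink v' w := by
  intro he
  have := hw he
  rw [h] at this
  exact this

private theorem Opn_chain {v v' : Vis} (h : v.last = v'.last) :
    ∀ l : List Vis, (v :: l).IsChain VLink → (v' :: l).IsChain VLink
  | [], _ => List.isChain_singleton _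
  | w :: l, hl => by
    rw [List.isChain_cons_cons] at hl ⊢
    exact ⟨Opn_vlink h w hl.1, hl.2⟩

private theorem Opn_last {v v' : Vis} (z : G) (h : v.last = v'.last) :
    ∀ l : List Vis, (∀ u ∈ (v :: l).getLast?, u.last = z) → ∀ u ∈ (v' :: l).getLast?, u.last = z
  | [], hl => by
    intro u hu
    simp only [List.getLast?_singleton, Option.mem_def, Option.some.injEq] at hu
    subst hu
    rw [← h]
    exact hl v (by simp)
  | w :: l, hl => by
    intro u hu
    rw [List.getLast?_cons_cons] at hu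
    exact hl u (by rw [List.getLast?_cons_cons]; exact hu)

private theorem Opn_core (h5 : sig ^ 5 = 1) (T : Tour) (z : G) : ∀ (n : ℕ) (x : G),
    (T.Out ^ n) x = z → (∀ i < n, (T.Out ^ i) x ≠ z) →
    (∀ i < n, (T.Out ^ i) x ≠ T.cl ∧ 1 ≤ T.e ((T.Out ^ i) x)) →
    ∃ (k : ℕ) (vs : List Vis), VPath (⟨2, x, k⟩ :: vs) ∧
      (∀ u ∈ ((⟨2, x, k⟩ : Vis) :: vs).getLast?, u.last = z) ∧
      vfl (⟨2, x, k⟩ :: vs) = (List.range (n + 1)).map (fun i => (T.Out ^ i) x) ∧
      vcost (⟨2, x, k⟩ :: vs) = 2 + ∑ i ∈ Finset.range n, T.e ((T.Out ^ i) x)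
  | 0, x, hz, _, _ => by
    have hx : x = z := hz
    subst hx
    refine ⟨0, [], ⟨?_, List.isChain_singleton _⟩, ?_, ?_, ?_⟩
    · intro v hv
      rw [List.mem_singleton] at hv
      subst hv
      exact ⟨le_refl _, Nat.zero_le _⟩
    · intro u hu
      simp only [List.getLast?_singleton, Option.mem_def, Option.some.injEq] at hu
      subst hu
      simp [Vis.last]
    · simp [vfl, Vis.fl]
    · simp [vcost]
  | n + 1, x, hz, hmin, hgood => by
    obtain ⟨k, vs, hP, hL, hF, hC⟩ := Opn_core h5 T z n (T.Out x)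
      (by rw [Opn_pow]; exact hz)
      (fun i hi => by rw [Opn_pow]; exact hmin (i + 1) (by omega))
      (fun i hi => by rw [Opn_pow]; exact hgood (i + 1) (by omega))
    have hx := hgood 0 (by omega)
    rw [pow_zero, Equiv.Perm.one_apply] at hx
    -- flags
    have hFx : (List.range (n + 1 + 1)).map (fun i => (T.Out ^ i) x) =
        x :: (List.range (n + 1)).map (fun i => (T.Out ^ i) (T.Out x)) := by
      rw [List.range_succ_eq_map, List.map_cons, List.map_map]
      refine congrArg₂ _ rfl (List.map_congr_left fun i _ => ?_)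
      simp only [Function.comp_apply, Opn_pow]
    have hCx : ∑ i ∈ Finset.range (n + 1), T.e ((T.Out ^ i) x) =
        T.e x + ∑ i ∈ Finset.range n, T.e ((T.Out ^ i) (T.Out x)) := by
      rw [Finset.sum_range_succ', pow_zero, Equiv.Perm.one_apply, add_comm]
      refine congrArg₂ _ rfl (Finset.sum_congr rfl fun i _ => ?_)
      rw [Opn_pow]
    have hPk := hP.1 _ List.mem_cons_self
    by_cases he : T.e x = 1
    · have hout : T.Out x = x * sig := T.h1 x hx.1 he
      have hlast : (⟨2, T.Out x, k⟩ : Vis).last = (⟨2, x, k + 1⟩ : Vis).last := by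
        simp only [Vis.last, hout, pow_succ', mul_assoc]
      have hfl : (⟨2, x, k + 1⟩ : Vis).fl = x :: (⟨2, T.Out x, k⟩ : Vis).fl := by
        simp only [Vis.fl, hout]
        rw [List.range_succ_eq_map, List.map_cons, List.map_map, pow_zero, mul_one]
        refine congrArg₂ _ rfl (List.map_congr_left fun i _ => ?_)
        simp only [Function.comp_apply, Nat.succ_eq_add_one, pow_succ', mul_assoc]
      have hk : k ≠ 4 := by
        rintro rfl
        have hmem : x ∈ vfl (⟨2, T.Out x, 4⟩ :: vs) := by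
          refine List.mem_flatMap.2 ⟨_, List.mem_cons_self, ?_⟩
          refine List.mem_map.2 ⟨4, List.mem_range.2 (by norm_num), ?_⟩
          show T.Out x * sig ^ 4 = x
          rw [hout, mul_assoc, ← pow_succ', h5, mul_one]
        rw [hF, List.mem_map] at hmem
        obtain ⟨i, hi, hix⟩ := hmem
        rw [List.mem_range] at hi
        rw [Opn_pow] at hix
        refine hmin (n - i) (by omega) ?_
        rw [← hz]
        have h1 : n + 1 = (n - i) + (i + 1) := by omega
        conv_rhs => rw [h1, pow_add, Equiv.Perm.mul_apply, hix]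
      refine ⟨k + 1, vs, ⟨?_, Opn_chain hlast vs hP.2⟩, Opn_last z hlast vs hL, ?_, ?_⟩
      · intro v hv
        rw [List.mem_cons] at hv
        rcases hv with rfl | hv
        · have := hPk.2
          simp only at this ⊢
          omega
        · exact hP.1 v (List.mem_cons_of_mem _ hv)
      · rw [hFx, ← hF]
        simp only [vfl, List.flatMap_cons, hfl, List.cons_append]
      · rw [hCx, he]
        simp only [vcost, List.map_cons, List.sum_cons] at hC ⊢
        omega
    · have he2 : 2 ≤ T.e x := by omega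
      refine ⟨0, ⟨T.e x, T.Out x, k⟩ :: vs, ⟨?_, ?_⟩, ?_, ?_, ?_⟩
      · intro v hv
        rw [List.mem_cons, List.mem_cons] at hv
        rcases hv with rfl | rfl | hv
        · exact ⟨le_refl _, Nat.zero_le _⟩
        · exact ⟨he2, hPk.2⟩
        · exact hP.1 v (List.mem_cons_of_mem _ hv)
      · rw [List.isChain_cons_cons]
        refine ⟨?_, Opn_chain (v := ⟨2, T.Out x, k⟩) (v' := ⟨T.e x, T.Out x, k⟩) rfl vs hP.2⟩
        intro h2
        have h3 := T.h2 x hx.1 h2
        simp only [Vis.last, pow_zero, mul_one]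
        exact h3
      · intro u hu
        rw [List.getLast?_cons_cons] at hu
        exact Opn_last (v := ⟨2, T.Out x, k⟩) (v' := ⟨T.e x, T.Out x, k⟩) z rfl vs hL u hu
      · rw [hFx, ← hF]
        simp [vfl, List.flatMap_cons, Vis.fl]
      · rw [hCx]
        simp only [vcost, List.map_cons, List.sum_cons] at hC ⊢
        omega

theorem tOpn (hCan : S_Can) (_hOrb : S_Orb) : S_Opn := by
  classical
  intro T z hz
  have h5 : sig ^ 5 = 1 := hCan.2.2.2.2.2.2.2.2.1
  have hex : ∃ n : ℕ, (T.Out ^ n) (T.Out z) = z := by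
    refine ⟨orderOf T.Out - 1, ?_⟩
    have h0 : 0 < orderOf T.Out := orderOf_pos _
    rw [Opn_pow, Nat.sub_add_cancel h0, pow_orderOf_eq_one, Equiv.Perm.one_apply]
  obtain ⟨n, hn, hmin⟩ : ∃ n : ℕ, (T.Out ^ n) (T.Out z) = z ∧
      ∀ i < n, (T.Out ^ i) (T.Out z) ≠ z :=
    ⟨Nat.find hex, Nat.find_spec hex, fun i hi => Nat.find_min hex hi⟩
  have hinorb : ∀ i, (T.Out ^ i) (T.Out z) ∈ T.orb z := fun i =>
    (Opn_orb T z _).2 ⟨i + 1, (Opn_pow _ _ _).symm⟩
  obtain ⟨k, vs, hP, hL, hF, hC⟩ := Opn_core h5 T z n (T.Out z) hn hmin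
    (fun i hi => hz _ (hinorb i) (hmin i hi))
  -- injectivity
  have hinj : ∀ i j, i < j → j ≤ n → (T.Out ^ i) (T.Out z) ≠ (T.Out ^ j) (T.Out z) := by
    intro i j hij hj h
    refine hmin (j - i - 1) (by omega) ?_
    have h1 : (T.Out ^ i) (T.Out z) = (T.Out ^ i) ((T.Out ^ (j - i)) (T.Out z)) := by
      have h0 : T.Out ^ j = T.Out ^ i * T.Out ^ (j - i) := by
        rw [← pow_add, Nat.add_sub_cancel' hij.le]
      rw [h, h0, Equiv.Perm.mul_apply]
    have h2 := (T.Out ^ i).injective h1
    have h3 : T.Out z = T.Out ((T.Out ^ (j - i - 1)) (T.Out z)) := by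
      rw [Opn_pow', Nat.sub_add_cancel (by omega)]
      exact h2
    exact (T.Out.injective h3).symm
  have hinj' : ∀ i ≤ n, ∀ j ≤ n, (T.Out ^ i) (T.Out z) = (T.Out ^ j) (T.Out z) → i = j := by
    intro i hi j hj h
    rcases lt_trichotomy i j with h1 | h1 | h1
    · exact absurd h (hinj i j h1 hj)
    · exact h1
    · exact absurd h.symm (hinj j i h1 hi)
  have hsurj : ∀ m : ℕ, ∃ i ≤ n, (T.Out ^ i) (T.Out z) = (T.Out ^ m) z := by
    intro m
    induction m with
    | zero => exact ⟨n, le_refl _, hn⟩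
    | succ m ih =>
      obtain ⟨i, hi, him⟩ := ih
      rcases lt_or_eq_of_le hi with h | h
      · refine ⟨i + 1, h, ?_⟩
        rw [← Opn_pow', ← Opn_pow', him]
      · refine ⟨0, Nat.zero_le _, ?_⟩
        rw [← Opn_pow', ← him, h, hn, pow_zero, Equiv.Perm.one_apply]
  refine ⟨⟨2, T.Out z, k⟩ :: vs, List.cons_ne_nil _ _, hP, ?_, ?_, ?_, ?_, hL⟩
  · rw [hF]
    refine List.Nodup.map_on ?_ List.nodup_range
    intro i hi j hj h
    rw [List.mem_range] at hi hj
    exact hinj' i (by omega) j (by omega) h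
  · rw [hF]
    ext x
    rw [List.mem_toFinset, List.mem_map, Opn_orb]
    constructor
    · rintro ⟨i, -, rfl⟩
      exact ⟨i + 1, (Opn_pow _ _ _).symm⟩
    · rintro ⟨m, rfl⟩
      obtain ⟨i, hi, him⟩ := hsurj m
      exact ⟨i, List.mem_range.2 (by omega), him⟩
  · rw [hC]
    have he : (T.orb z).erase z = (Finset.range n).image fun i => (T.Out ^ i) (T.Out z) := by
      ext x
      rw [Finset.mem_erase, Opn_orb, Finset.mem_image]
      constructor
      · rintro ⟨hx, m, rfl⟩
        obtain ⟨i, hi, him⟩ := hsurj m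
        refine ⟨i, Finset.mem_range.2 ?_, him⟩
        rcases lt_or_eq_of_le hi with h | h
        · exact h
        · exfalso
          rw [h, hn] at him
          exact hx him.symm
      · rintro ⟨i, hi, rfl⟩
        exact ⟨hmin i (Finset.mem_range.1 hi), i + 1, (Opn_pow _ _ _).symm⟩
    rw [he, Finset.sum_image]
    intro i hi j hj h
    have hi' := Finset.mem_range.1 (Finset.mem_coe.1 hi)
    have hj' := Finset.mem_range.1 (Finset.mem_coe.1 hj)
    exact hinj' i (by omega) j (by omega) h
  · intro v hv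
    simp only [List.head?_cons, Option.mem_def, Option.some.injEq] at hv
    subst hv
    exact ⟨rfl, rfl⟩

end Pool.Agent.Lib.MP_e0d433_co.Six
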