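import Pool.Agent.Lib.MP_e0d433_co.Six.Spec

/-!
# MP_e0d433_co, project Six: orbits
-/

set_option autoImplicit false

namespace Pool.Agent.Lib.MP_e0d433_co.Six

open scoped BigOperators

open Classical in
theorem Orb_mem (T : Tour) (c x : G) : x ∈ T.orb c ↔ T.Out.SameCycle c x := by
  constructor
  · intro h
    obtain ⟨k, hk⟩ := (Finset.mem_filter.1 h).2
    exact ⟨(k : ℤ), by rw [zpow_natCast]; exact hk⟩
  · intro h
    obtain ⟨k, _, hk⟩ := h.exists_pow_eq'
    exact Finset.mem_filter.2 ⟨Finset.mem_univ _, k, hk⟩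

theorem tOrb : S_Orb := by
  intro T
  have heq : ∀ c x, x ∈ T.orb c → T.orb x = T.orb c := by
    intro c x h
    have h1 := (Orb_mem T c x).1 h
    ext y
    rw [Orb_mem, Orb_mem]
    exact ⟨fun h2 => h1.trans h2, fun h2 => h1.symm.trans h2⟩
  have hout : ∀ c x, x ∈ T.orb c → T.Out x ∈ T.orb c := by
    intro c x h
    rw [Orb_mem] at h ⊢
    exact Equiv.Perm.sameCycle_apply_right.2 h
  have hself : ∀ c, c ∈ T.orb c := fun c => (Orb_mem T c c).2 (Equiv.Perm.SameCycle.refl _ _)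
  exact ⟨hself, heq, fun c => heq c _ (hout c c (hself c)), hout⟩

end Pool.Agent.Lib.MP_e0d433_co.Six
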