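import Pool.Agent.Lib.MP_e0d433_co.Six.Spec

/-!
# MP_e0d433_co, project Six: paths
-/

set_option autoImplicit false

namespace Pool.Agent.Lib.MP_e0d433_co.Six

open scoped BigOperators

private theorem P0_lineIn_mono {S T : Finset G} (h : S ⊆ T) (y : G) : lineIn S y ≤ lineIn T y := by
  unfold lineIn
  apply Finset.card_le_card
  intro i hi
  rw [Finset.mem_filter] at hi ⊢
  exact ⟨hi.1, h hi.2⟩

theorem tP0 (hCan : S_Can) (hMax : S_Max) (hScn : S_Scn) : S_P0 := by
  intro vs hvs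
  obtain ⟨ps, hok, hsub, hineq, heq⟩ := hScn vs hvs
  obtain ⟨hm1, hm2⟩ := hMax ps hok
  constructor
  · have h1 : (5 : ℤ) * (vcs vs).card ≤ 4 * vcost vs + 8 := by linarith
    exact_mod_cast h1
  · intro h
    have h1 : (5 : ℤ) * (vcs vs).card = 4 * vcost vs + 8 := by exact_mod_cast h
    have h2 : (ps.map fun P => score P.2 - 4).sum = 4 := by linarith
    have h3 := heq (by linarith)
    obtain ⟨z, hz1, hz2⟩ := hm2 h2
    by_cases hz : can z ∈ vcs vs
    · exfalso
      obtain ⟨y, hy1, hy2⟩ := h3 (can z) hz hz1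
      obtain ⟨k, -, hk⟩ := (hCan.2.2.1 z y).1 hy1.symm
      have h4 := hz2 k
      rw [← hk] at h4
      omega
    · exact ⟨z, hz, fun k => le_trans (hz2 k) (P0_lineIn_mono hsub _)⟩

end Pool.Agent.Lib.MP_e0d433_co.Six
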