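import Pool.Agent.Lib.MP_e0d433_co.Six.Spec

/-!
# MP_e0d433_co, project Six, module P1: closed paths
-/

set_option autoImplicit false

namespace Pool.Agent.Lib.MP_e0d433_co.Six

private theorem P1_vfl_append (a b : List Vis) : vfl (a ++ b) = vfl a ++ vfl b := by
  unfold vfl
  rw [List.flatMap_append]

private theorem P1_vcs_append (a b : List Vis) : vcs (a ++ b) = vcs a ∪ vcs b := by
  unfold vcs
  rw [P1_vfl_append, List.map_append, List.toFinset_append]

private theorem P1_vcost_append (a b : List Vis) : vcost (a ++ b) = vcost a + vcost b := by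
  unfold vcost
  rw [List.map_append, List.sum_append]

private theorem P1_vcs_comm (a b : List Vis) : vcs (b ++ a) = vcs (a ++ b) := by
  rw [P1_vcs_append, P1_vcs_append, Finset.union_comm]

private theorem P1_vcost_comm (a b : List Vis) : vcost (b ++ a) = vcost (a ++ b) := by
  rw [P1_vcost_append, P1_vcost_append, add_comm]

private theorem P1_vpath_append {a b : List Vis} (h : VPath (a ++ b)) : VPath a ∧ VPath b := by
  obtain ⟨h1, h2⟩ := h
  rw [List.isChain_append] at h2
  exact ⟨⟨fun v hv => h1 v (List.mem_append_left _ hv), h2.1⟩,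
    ⟨fun v hv => h1 v (List.mem_append_right _ hv), h2.2.1⟩⟩

private theorem P1_rot {a b : List Vis} (h : CPath (a ++ b)) : CPath (b ++ a) := by
  rcases eq_or_ne a [] with ha | ha
  · subst ha
    simpa using h
  rcases eq_or_ne b [] with hb | hb
  · subst hb
    simpa using h
  obtain ⟨⟨h1, h2⟩, h3⟩ := h
  rw [List.isChain_append] at h2
  rw [List.getLast?_append_of_ne_nil _ hb, List.head?_append_of_ne_nil _ ha] at h3
  refine ⟨⟨fun v hv => h1 v ?_, ?_⟩, ?_⟩
  · rw [List.mem_append] at hv ⊢
    exact hv.symm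
  · rw [List.isChain_append]
    exact ⟨h2.2.1, h2.1, h3⟩
  · rw [List.getLast?_append_of_ne_nil _ ha, List.head?_append_of_ne_nil _ hb]
    exact h2.2.2

private theorem P1_fl_len (v : Vis) : (v.fl.map can).length = v.k + 1 := by
  unfold Vis.fl
  rw [List.length_map, List.length_map, List.length_range]

private theorem P1_fl_nodup (hCan : S_Can) {v : Vis} (hv : v.k ≤ 4) : (v.fl.map can).Nodup := by
  unfold Vis.fl
  rw [List.map_map]
  refine List.Nodup.map_on ?_ List.nodup_range
  intro i hi j hj hij
  rw [List.mem_range] at hi hj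
  exact hCan.2.2.2.2.2.1 v.y i j (by omega) (by omega) hij

private theorem P1_split (vs : List Vis) (h : ∀ v ∈ vs, (v.fl.map can).Nodup) :
    ((vfl vs).map can).Nodup ∨
      ∃ a v b, vs = a ++ v :: b ∧ ∃ z, z ∈ v.fl.map can ∧ z ∈ (vfl b).map can := by
  induction vs with
  | nil =>
    left
    unfold vfl
    simp
  | cons v vs ih =>
    rcases ih (fun u hu => h u (List.mem_cons_of_mem _ hu)) with h1 | ⟨a, u, b, h1, h2⟩
    · by_cases hd : ∃ z, z ∈ v.fl.map can ∧ z ∈ (vfl vs).map can
      · right
        exact ⟨[], v, vs, rfl, hd⟩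
      · left
        have h3 : vfl (v :: vs) = v.fl ++ vfl vs := rfl
        rw [h3, List.map_append, List.nodup_append]
        refine ⟨h v List.mem_cons_self, h1, ?_⟩
        intro z hz w hw hzw
        subst hzw
        exact hd ⟨z, hz, hw⟩
    · right
      refine ⟨v :: a, u, b, ?_, h2⟩
      rw [h1, List.cons_append]

/-- S_P1 -/
theorem tP1 (hCan : S_Can) (hP0 : S_P0) (hClp : S_Clp) : S_P1 := by
  classical
  intro vs hne hC
  by_cases h3 : ∃ v ∈ vs, v.e ≠ 2
  · obtain ⟨v, hv, hve⟩ := h3
    have hv3 : 3 ≤ v.e := by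
      have := (hC.1.1 v hv).1
      omega
    have hvk := (hC.1.1 v hv).2
    obtain ⟨a, b, rfl⟩ := List.append_of_mem hv
    have h1 := P1_rot hC
    rw [List.cons_append] at h1
    obtain ⟨⟨h2, h3⟩, -⟩ := h1
    rw [List.isChain_cons] at h3
    set v' : Vis := ⟨2, v.y, v.k⟩ with hv'
    have hp : VPath (v' :: (b ++ a)) := by
      refine ⟨?_, ?_⟩
      · intro u hu
        rcases List.mem_cons.1 hu with rfl | hu
        · exact ⟨le_rfl, hvk⟩
        · exact h2 u (List.mem_cons_of_mem _ hu)
      · rw [List.isChain_cons]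
        exact ⟨fun w hw => h3.1 w hw, h3.2⟩
    have h4 := (hP0 _ hp).1
    have h5 : vcs (v' :: (b ++ a)) = vcs (a ++ v :: b) := by
      rw [← P1_vcs_comm a (v :: b)]
      rfl
    have h6 : vcost (a ++ v :: b) = vcost (v' :: (b ++ a)) + v.e - 2 := by
      rw [← P1_vcost_comm a (v :: b), List.cons_append]
      have e1 : vcost (v :: (b ++ a)) = v.k + v.e + vcost (b ++ a) := by
        unfold vcost
        rw [List.map_cons, List.sum_cons]
      have e2 : vcost (v' :: (b ++ a)) = v.k + 2 + vcost (b ++ a) := by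
        unfold vcost
        rw [List.map_cons, List.sum_cons]
      rw [e1, e2]
      omega
    rw [h5] at h4
    omega
  · push Not at h3
    rcases P1_split vs (fun v hv => P1_fl_nodup hCan (hC.1.1 v hv).2) with h4 | ⟨a, v, b, rfl, h4⟩
    · exact hClp vs hne hC h3 h4
    · obtain ⟨z, hz1, hz2⟩ := h4
      have hvk : v.k ≤ 4 := (hC.1.1 v (by simp)).2
      have hve : v.e = 2 := h3 v (by simp)
      have e0 : a ++ v :: b = (a ++ [v]) ++ b := by simp
      rw [e0] at hC ⊢
      have h1 := P1_rot hC
      rw [← List.append_assoc] at h1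
      have h5 := (hP0 _ (P1_vpath_append h1.1).1).1
      have h6 : vcs ((a ++ [v]) ++ b) = vcs (b ++ a) ∪ vcs [v] := by
        rw [← P1_vcs_comm (a ++ [v]) b, ← List.append_assoc, P1_vcs_append]
      have h7 : vcost ((a ++ [v]) ++ b) = vcost (b ++ a) + (v.k + 2) := by
        rw [← P1_vcost_comm (a ++ [v]) b, ← List.append_assoc, P1_vcost_append]
        congr 1
        unfold vcost
        simp [hve]
      have h8 : (vcs [v]).card ≤ v.k + 1 := by
        unfold vcs vfl
        refine (List.toFinset_card_le _).trans ?_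
        rw [List.flatMap_cons, List.flatMap_nil, List.append_nil, P1_fl_len]
      have h9 : 1 ≤ (vcs (b ++ a) ∩ vcs [v]).card := by
        rw [Nat.one_le_iff_ne_zero, Finset.card_ne_zero]
        refine ⟨z, Finset.mem_inter.2 ⟨?_, ?_⟩⟩
        · rw [P1_vcs_append, Finset.mem_union]
          left
          unfold vcs
          rw [List.mem_toFinset]
          exact hz2
        · unfold vcs vfl
          rw [List.mem_toFinset, List.flatMap_cons, List.flatMap_nil, List.append_nil]
          exact hz1
      have h10 := Finset.card_union_add_card_inter (vcs (b ++ a)) (vcs [v])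
      rw [h6, h7]
      omega

end Pool.Agent.Lib.MP_e0d433_co.Six
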