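import Pool.Agent.Lib.MP_e0d433_co.Six.Spec

/-!
# MP_e0d433_co, project Six: `QC` (no closing)
-/

set_option autoImplicit false

namespace Pool.Agent.Lib.MP_e0d433_co.Six

private theorem QC_okc (y : G) (st : List Step) (h : Ok y st) : Okc {can y} y st := by
  have hfl : fl y st = y :: (fl y st).tail := by cases st <;> rfl
  have h1 : ((y :: (fl y st).tail).map can).Nodup := by rw [← hfl]; exact h
  rw [List.map_cons, List.nodup_cons] at h1
  refine ⟨h1.2, fun z hz hc => h1.1 ?_⟩
  rw [← Finset.mem_singleton.mp hc]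
  exact List.mem_map_of_mem hz

private theorem QC_nocl (A : ℕ) (h : nocl A = true) (t : Fin 4) :
    ch TT A (t.val + 1) % 1024 ≠ 0 := by
  intro hc
  have hb : Nat.beq (ch TT A (t.val + 1) % 1024) 0 = true := by rw [hc]; rfl
  unfold nocl at h
  rw [Bool.and_eq_true, Bool.and_eq_true, Bool.and_eq_true] at h
  obtain ⟨⟨⟨h1, h2⟩, h3⟩, h4⟩ := h
  have h5 : t.val = 0 ∨ t.val = 1 ∨ t.val = 2 ∨ t.val = 3 := by omega
  rcases h5 with h5 | h5 | h5 | h5 <;> rw [h5] at hb
  · rw [hb] at h1; exact absurd h1 (by decide)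
  · rw [hb] at h2; exact absurd h2 (by decide)
  · rw [hb] at h3; exact absurd h3 (by decide)
  · rw [hb] at h4; exact absurd h4 (by decide)

theorem tQC (hIdx : S_Idx) (hTbl : S_Tbl) (hMsk : S_Msk) (hGo : S_Go) (hCmpA : S_CmpA)
    (hRun : S_Run) (hTr : S_Tr) : S_QC := by
  intro y st hOk hPos hsc t heq
  obtain ⟨-, hTr2, hTr3, -⟩ := hTr
  have hy : y * 1 = y := mul_one y
  have hOk1 : Ok 1 st := by
    have := (hTr3 y 1 st).mp
    rw [hy] at this
    exact this hOk
  have hL : lastF y st = y * lastF 1 st := by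
    have := hTr2 y 1 st
    rw [hy] at this
    exact this
  have hx : lastF 1 st * jp t = 1 := by
    rw [hL, mul_assoc] at heq
    exact mul_eq_left.mp heq
  have hP : Pos (((1 : ℕ) : ℤ) - 4) st := by
    have : ((1 : ℕ) : ℤ) - 4 = -3 := by norm_num
    rw [this]; exact hPos
  obtain ⟨hPN, hvN⟩ := hRun.1 1 st hP
  have hv9 : 9 ≤ vN 1 st := by
    unfold score at hsc
    push_cast at hvN
    omega
  have hgo : go 121 1 1 (idx 1) 1 0 [] = true := by
    rw [hIdx.2.2.1]
    unfold S_CmpA goS s0 at hCmpA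
    exact hCmpA
  have hres := hGo st 121 1 1 1 0 1 {can 1} [] hgo hMsk.2.1 (QC_okc 1 st hOk1) hPN
  have hb7 : Nat.ble (vN 1 st) 7 = false := by
    cases hb : Nat.ble (vN 1 st) 7 with
    | false => rfl
    | true => exact absurd (Nat.le_of_ble_eq_true hb) (by omega)
  have hb8 : Nat.ble (vN 1 st) 8 = false := by
    cases hb : Nat.ble (vN 1 st) 8 with
    | false => rfl
    | true => exact absurd (Nat.le_of_ble_eq_true hb) (by omega)
  rw [hb7, Bool.false_or] at hres
  unfold chk at hres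
  rw [Bool.and_eq_true, Bool.and_eq_true, hb8, Bool.false_or] at hres
  have hn := hres.1.2
  refine QC_nocl _ hn t ?_
  have h1 := hTbl.1 (lastF 1 st) (some t)
  have h2 : idx (lastF 1 st * stp (some t)) = 0 := by
    have : lastF 1 st * stp (some t) = 1 := hx
    rw [this]; exact hIdx.2.2.1
  rw [h2] at h1
  have h3 : ch TT (idx (lastF 1 st)) (t.val + 1) = 0 + 1024 * idx (can (lastF 1 st * stp (some t))) :=
    h1
  rw [h3, Nat.zero_add, Nat.mul_mod_right]

end Pool.Agent.Lib.MP_e0d433_co.Six
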