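import Pool.Agent.Lib.MP_e0d433_co.Six.Spec

/-!
# MP_e0d433_co, project Six: module QL, the lists of first hitting pieces
-/

set_option autoImplicit false

namespace Pool.Agent.Lib.MP_e0d433_co.Six

noncomputable section

private theorem QL_leq : ∀ {l k : List ℕ}, leq l k = true → l = k
  | [], [], _ => rfl
  | [], _ :: _, h => by simp [leq] at h
  | _ :: _, [], h => by simp [leq] at h
  | a :: l, b :: k, h => by
    rw [leq, Bool.and_eq_true] at h
    rw [Nat.eq_of_beq_eq_true h.1, QL_leq h.2]

private theorem QL_mem {w : List ℕ} {L : List (List ℕ)} (h : mem w L = true) : w ∈ L := by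
  rw [mem, List.any_eq_true] at h
  obtain ⟨l, hl, h2⟩ := h
  rw [QL_leq h2]
  exact hl

private theorem QL_fl (y : G) (l : List Step) : fl y l = y :: (fl y l).tail := by
  cases l <;> rfl

private theorem QL_okc {st : List Step} (h : Ok 1 st) : Okc {can 1} 1 st := by
  have h1 : ((fl 1 st).map can).Nodup := h
  rw [QL_fl, List.map_cons, List.nodup_cons] at h1
  refine ⟨h1.2, fun y hy => ?_⟩
  rw [Finset.mem_singleton]
  intro e
  apply h1.1
  rw [← e]
  exact List.mem_map_of_mem hy

private theorem QL_key (hIdx : S_Idx) (hMsk : S_Msk) (hGo : S_Go) (hCmpA : S_CmpA) (hRun : S_Run)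
    (hTr : S_Tr) (y : G) (st : List Step) (hok : Ok y st) (s : ℕ) (hs : 4 ≤ s)
    (h : FH s (-3) st) : s ≤ 8 ∧ fhc (1 + st.length) (s + 4) (st.map dg).reverse = true := by
  have h1 : Ok 1 st := by
    have h2 := (hTr.2.2.1 y 1 st)
    rw [mul_one] at h2
    exact h2.mp hok
  have hgo : go 121 1 1 (idx 1) 1 0 [] = true := by
    rw [hIdx.2.2.1]
    exact hCmpA
  have h3 := hRun.2.1 (s : ℤ) (-3) st h
  have e1 : (-3 : ℤ) = ((1 : ℕ) : ℤ) - 4 := by norm_num
  have hpos : Pos (((1 : ℕ) : ℤ) - 4) st := by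
    rw [← e1]
    exact h3.1
  have h4 := hRun.1 1 st hpos
  have hv : vN 1 st = s + 4 := by
    have h5 := h4.2
    have h6 := h3.2
    push_cast at h5
    omega
  have hmx : mxN 1 0 st < s + 4 := by
    refine hRun.2.2 (s + 4) 1 0 st ?_ (by omega)
    have e2 : ((s + 4 : ℕ) : ℤ) - 4 = s := by
      push_cast
      ring
    rw [e2, ← e1]
    exact h
  have h7 := hGo st 121 1 1 1 0 1 {can 1} [] hgo hMsk.2.1 (QL_okc h1) h4.1
  rw [hv, List.append_nil, Bool.or_eq_true, chk, Bool.and_eq_true, Bool.and_eq_true,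
    Bool.or_eq_true, Bool.or_eq_true] at h7
  rcases h7 with h7 | ⟨⟨h7, _⟩, h8 | h8⟩
  · have := Nat.le_of_ble_eq_true h7
    omega
  · have := Nat.le_of_ble_eq_true h8
    omega
  · have := Nat.le_of_ble_eq_true h7
    exact ⟨by omega, h8⟩

theorem tQL (hIdx : S_Idx) (hMsk : S_Msk) (hGo : S_Go) (hCmpA : S_CmpA) (hRun : S_Run)
    (hTr : S_Tr) : S_QL := by
  intro y st hok
  have key := QL_key hIdx hMsk hGo hCmpA hRun hTr y st hok
  refine ⟨fun h => ?_, fun h => ?_, fun h => ?_, fun h => ?_, fun h => ?_, fun h => ?_⟩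
  · have := (key 9 (by norm_num) (by exact_mod_cast h)).1
    omega
  · have h1 := (key 8 (by norm_num) (by exact_mod_cast h)).2
    have h2 : mem (st.map dg).reverse.reverse W8 = true := h1
    rw [List.reverse_reverse] at h2
    exact QL_mem h2
  · have h1 := (key 7 (by norm_num) (by exact_mod_cast h)).2
    have h2 : (Nat.ble 83 (1 + st.length) && (Nat.ble 88 (1 + st.length) ||
      mem (st.map dg).reverse.reverse W7)) = true := h1
    rw [List.reverse_reverse, Bool.and_eq_true, Bool.or_eq_true] at h2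
    have h3 := Nat.le_of_ble_eq_true h2.1
    refine ⟨by omega, fun h4 => ?_⟩
    rcases h2.2 with h5 | h5
    · have := Nat.le_of_ble_eq_true h5
      omega
    · exact QL_mem h5
  · have h1 := (key 6 (by norm_num) (by exact_mod_cast h)).2
    have h2 : (Nat.ble 46 (1 + st.length) && (Nat.ble 75 (1 + st.length) ||
      mem (st.map dg).reverse.reverse W6)) = true := h1
    rw [List.reverse_reverse, Bool.and_eq_true, Bool.or_eq_true] at h2
    have h3 := Nat.le_of_ble_eq_true h2.1
    refine ⟨by omega, fun h4 => ?_⟩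
    rcases h2.2 with h5 | h5
    · have := Nat.le_of_ble_eq_true h5
      omega
    · exact QL_mem h5
  · have h1 := (key 5 (by norm_num) (by exact_mod_cast h)).2
    have h2 : (Nat.ble 33 (1 + st.length) && (Nat.ble 42 (1 + st.length) ||
      mem (st.map dg).reverse.reverse W5)) = true := h1
    rw [List.reverse_reverse, Bool.and_eq_true, Bool.or_eq_true] at h2
    have h3 := Nat.le_of_ble_eq_true h2.1
    refine ⟨by omega, fun h4 => ?_⟩
    rcases h2.2 with h5 | h5
    · have := Nat.le_of_ble_eq_true h5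
      omega
    · exact QL_mem h5
  · have h1 := (key 4 (by norm_num) (by exact_mod_cast h)).2
    have h2 : (Nat.ble 20 (1 + st.length) && (Nat.ble 29 (1 + st.length) ||
      mem (st.map dg).reverse.reverse W4)) = true := h1
    rw [List.reverse_reverse, Bool.and_eq_true, Bool.or_eq_true] at h2
    have h3 := Nat.le_of_ble_eq_true h2.1
    refine ⟨by omega, fun h4 => ?_⟩
    rcases h2.2 with h5 | h5
    · have := Nat.le_of_ble_eq_true h5
      omega
    · exact QL_mem h5

end

end Pool.Agent.Lib.MP_e0d433_co.Six
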