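import Pool.Agent.Lib.MP_e0d433_co.Six.Spec

/-!
# Integer and natural number versions of the running score
-/

set_option autoImplicit false

namespace Pool.Agent.Lib.MP_e0d433_co.Six

theorem Run_wsum_none (l : List Step) : wsum (none :: l) = 1 + wsum l := by
  simp [wsum, wt]

theorem Run_wsum_some (t : Fin 4) (l : List Step) : wsum (some t :: l) = -3 + wsum l := by
  simp [wsum, wt]

theorem Run_1 (l : List Step) : ∀ v : ℕ, Pos ((v : ℤ) - 4) l →
    PosN v l ∧ (vN v l : ℤ) = v + wsum l := by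
  induction l with
  | nil => intro v _; exact ⟨trivial, by simp [vN, wsum]⟩
  | cons s l ih =>
    intro v h
    rcases s with _ | t
    · have h1 : Pos (((v + 1 : ℕ) : ℤ) - 4) l := by
        have e : ((v + 1 : ℕ) : ℤ) - 4 = (v : ℤ) - 4 + 1 := by push_cast; ring
        rw [e]; exact h
      obtain ⟨a, b⟩ := ih (v + 1) h1
      refine ⟨a, ?_⟩
      show (vN (v + 1) l : ℤ) = _
      rw [b, Run_wsum_none]
      push_cast
      ring
    · obtain ⟨h1, h2⟩ : 1 ≤ (v : ℤ) - 4 ∧ Pos ((v : ℤ) - 4 - 3) l := h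
      have h5 : 5 ≤ v := by omega
      have h3 : Pos (((v - 3 : ℕ) : ℤ) - 4) l := by
        have e : ((v - 3 : ℕ) : ℤ) - 4 = (v : ℤ) - 4 - 3 := by omega
        rw [e]; exact h2
      obtain ⟨a, b⟩ := ih (v - 3) h3
      refine ⟨⟨h5, a⟩, ?_⟩
      show (vN (v - 3) l : ℤ) = _
      rw [b, Run_wsum_some]
      omega

theorem Run_2 (s : ℤ) (l : List Step) : ∀ v : ℤ, FH s v l → Pos v l ∧ v + wsum l = s := by
  induction l with
  | nil => intro v h; exact ⟨trivial, by have h1 : v = s := h; simp [wsum, h1]⟩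
  | cons a l ih =>
    intro v h
    rcases a with _ | t
    · obtain ⟨_, h2⟩ : v < s ∧ FH s (v + 1) l := h
      obtain ⟨a, b⟩ := ih _ h2
      refine ⟨a, ?_⟩
      rw [Run_wsum_none, ← b]
      ring
    · obtain ⟨h1, _, h2⟩ : 1 ≤ v ∧ v < s ∧ FH s (v - 3) l := h
      obtain ⟨a, b⟩ := ih _ h2
      refine ⟨⟨h1, a⟩, ?_⟩
      rw [Run_wsum_some, ← b]
      ring

theorem Run_3 (s : ℕ) (l : List Step) : ∀ v mx : ℕ, FH ((s : ℤ) - 4) ((v : ℤ) - 4) l → mx < s →
    mxN v mx l < s := by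
  induction l with
  | nil => intro v mx _ h; exact h
  | cons a l ih =>
    intro v mx h hm
    rcases a with _ | t
    · obtain ⟨_, h2⟩ : (v : ℤ) - 4 < (s : ℤ) - 4 ∧ FH ((s : ℤ) - 4) ((v : ℤ) - 4 + 1) l := h
      refine ih (v + 1) mx ?_ hm
      have e : ((v + 1 : ℕ) : ℤ) - 4 = (v : ℤ) - 4 + 1 := by push_cast; ring
      rw [e]; exact h2
    · obtain ⟨h1, h3, h2⟩ : 1 ≤ (v : ℤ) - 4 ∧ (v : ℤ) - 4 < (s : ℤ) - 4 ∧
        FH ((s : ℤ) - 4) ((v : ℤ) - 4 - 3) l := h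
      refine ih (v - 3) (max mx v) ?_ (max_lt hm (by omega))
      have e : ((v - 3 : ℕ) : ℤ) - 4 = (v : ℤ) - 4 - 3 := by omega
      rw [e]; exact h2

theorem tRun : S_Run := ⟨fun v l => Run_1 l v, fun s v l => Run_2 s l v, fun s v mx l => Run_3 s l v mx⟩

end Pool.Agent.Lib.MP_e0d433_co.Six
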