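import Pool.Agent.Lib.MP_e0d433_co.Six.Spec

/-!
# MP_e0d433_co, project Six: the scan lemma
-/

set_option autoImplicit false

namespace Pool.Agent.Lib.MP_e0d433_co.Six

open scoped BigOperators

noncomputable section

/-- all flags of a list of pieces -/
private def Scn_F (ps : List (G × List Step)) : List G := ps.flatMap fun P => fl P.1 P.2

/-- the sum of the scores -/
private def Scn_X (ps : List (G × List Step)) : ℤ := (ps.map fun P => score P.2 - 4).sum

/-- the condition for the remaining 1-cycles -/
private def Scn_T (D S : Finset G) : Prop :=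
  ∀ z ∈ D, z ∉ S → ∃ y, can y = z ∧ (∀ i < 5, can (y * sig ^ i) ∈ D) ∧ lineIn S y ≤ 1

/-- the stronger claim -/
private def Scn_C (vs : List Vis) : Prop :=
  ∃ ps : List (G × List Step), Okl ps ∧ csl ps ⊆ vcs vs ∧
    ((∃ (ps' : List (G × List Step)) (y : G) (st : List Step) (v : Vis), ps = ps' ++ [(y, st)] ∧
        v ∈ vs.getLast? ∧ lastF y st = v.last ∧
        (5 : ℤ) * (vcs vs).card ≤ 4 * vcost vs + Scn_X ps + 4 ∧
        ((5 : ℤ) * (vcs vs).card = 4 * vcost vs + Scn_X ps + 4 → Scn_T (vcs vs) (csl ps))) ∨
      ((5 : ℤ) * (vcs vs).card ≤ 4 * vcost vs + Scn_X ps ∧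
        ((5 : ℤ) * (vcs vs).card = 4 * vcost vs + Scn_X ps → Scn_T (vcs vs) (csl ps))))

private theorem Scn_fl_app (a : List Step) (s : Step) (b : List Step) :
    ∀ y : G, fl y (a ++ s :: b) = fl y a ++ fl (lastF y a * stp s) b := by
  induction a with
  | nil => intro y; simp [fl, lastF]
  | cons r a ih => intro y; simp [fl, lastF, ih]

private theorem Scn_last_app (a : List Step) (s : Step) (b : List Step) :
    ∀ y : G, lastF y (a ++ s :: b) = lastF (lastF y a * stp s) b := by
  induction a with
  | nil => intro y; simp [lastF]
  | cons r a ih => intro y; simp [lastF, ih]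

private theorem Scn_fl_rep (k : ℕ) :
    ∀ y : G, fl y (List.replicate k none) = (List.range (k + 1)).map fun i => y * sig ^ i := by
  induction k with
  | zero => intro y; simp [fl]
  | succ k ih =>
    intro y
    rw [List.replicate_succ, List.range_succ_eq_map]
    show y :: fl (y * stp none) (List.replicate k none) = _
    rw [ih]
    simp only [List.map_cons, List.map_map, pow_zero, mul_one, stp]
    congr 1
    apply List.map_congr_left
    intro i _
    simp [pow_succ', mul_assoc]

private theorem Scn_last_rep (k : ℕ) :
    ∀ y : G, lastF y (List.replicate k none) = y * sig ^ k := by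
  induction k with
  | zero => intro y; simp [lastF]
  | succ k ih =>
    intro y
    rw [List.replicate_succ]
    show lastF (y * stp none) (List.replicate k none) = _
    rw [ih]
    simp [stp, pow_succ', mul_assoc]

private theorem Scn_ws_app (a b : List Step) : wsum (a ++ b) = wsum a + wsum b := by
  simp [wsum]

private theorem Scn_ws_rep (k : ℕ) : wsum (List.replicate k none) = k := by
  simp [wsum, wt]

private theorem Scn_vcs_app (vs : List Vis) (v : Vis) : vcs (vs ++ [v]) = vcs vs ∪ vcs [v] := by
  simp [vcs, vfl, List.toFinset_append]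

private theorem Scn_vcost_app (vs : List Vis) (v : Vis) :
    vcost (vs ++ [v]) = vcost vs + (v.k + v.e) := by
  simp [vcost]

private theorem Scn_csl (ps : List (G × List Step)) :
    csl ps = ((Scn_F ps).map can).toFinset := rfl

private theorem Scn_vcs1 (v : Vis) : vcs [v] = (v.fl.map can).toFinset := by
  simp [vcs, vfl]

private theorem Scn_mem_v (v : Vis) (z : G) :
    z ∈ vcs [v] ↔ ∃ i, i < v.k + 1 ∧ can (v.y * sig ^ i) = z := by
  rw [Scn_vcs1]
  simp [Vis.fl]

private theorem Scn_nodup (hCan : S_Can) (v : Vis) (hk : v.k ≤ 4) : (v.fl.map can).Nodup := by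
  have hinj := hCan.2.2.2.2.2.1
  rw [Vis.fl, List.map_map]
  rw [List.nodup_map_iff_inj_on List.nodup_range]
  intro i hi j hj h
  rw [List.mem_range] at hi hj
  exact hinj v.y i j (by omega) (by omega) h

private theorem Scn_card (hCan : S_Can) (v : Vis) (hk : v.k ≤ 4) : (vcs [v]).card = v.k + 1 := by
  rw [Scn_vcs1, List.toFinset_card_of_nodup (Scn_nodup hCan v hk)]
  simp [Vis.fl]

/-- addition of a visit which is disjoint from the rest -/
private theorem Scn_add (hCan : S_Can) (vs : List Vis) (v : Vis) (hk : v.k ≤ 4)
    (ps ps'' : List (G × List Step)) (hF : Scn_F ps'' = Scn_F ps ++ v.fl) (hok : Okl ps)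
    (hsub : csl ps ⊆ vcs vs) (hdis : Disjoint (vcs vs) (vcs [v])) :
    Okl ps'' ∧ csl ps'' = csl ps ∪ vcs [v] ∧ csl ps'' ⊆ vcs (vs ++ [v]) ∧
      (Scn_T (vcs vs) (csl ps) → Scn_T (vcs (vs ++ [v])) (csl ps'')) := by
  have hcsl : csl ps'' = csl ps ∪ vcs [v] := by
    rw [Scn_csl, hF, List.map_append, List.toFinset_append, Scn_vcs1, Scn_csl]
  refine ⟨?_, hcsl, ?_, ?_⟩
  · show ((Scn_F ps'').map can).Nodup
    rw [hF, List.map_append, List.nodup_append']
    refine ⟨hok, Scn_nodup hCan v hk, ?_⟩
    intro z hz hz'
    have h1 : z ∈ csl ps := by rw [Scn_csl, List.mem_toFinset]; exact hz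
    have h2 : z ∈ vcs [v] := by rw [Scn_vcs1, List.mem_toFinset]; exact hz'
    exact Finset.disjoint_left.1 hdis (hsub h1) h2
  · rw [hcsl, Scn_vcs_app]
    exact Finset.union_subset_union hsub (Finset.Subset.refl _)
  · intro hT z hz hz'
    rw [Scn_vcs_app, Finset.mem_union] at hz
    rw [hcsl, Finset.mem_union, not_or] at hz'
    have hzD : z ∈ vcs vs := hz.resolve_right hz'.2
    obtain ⟨y, hy, hl, hli⟩ := hT z hzD hz'.1
    refine ⟨y, hy, fun i hi => ?_, ?_⟩
    · rw [Scn_vcs_app]
      exact Finset.mem_union_left _ (hl i hi)
    · refine le_trans (Finset.card_le_card ?_) hli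
      intro i hi
      rw [Finset.mem_filter] at hi ⊢
      refine ⟨hi.1, ?_⟩
      have h5 := Finset.mem_range.1 hi.1
      have := hi.2
      rw [hcsl, Finset.mem_union] at this
      exact this.resolve_right fun h => Finset.disjoint_left.1 hdis (hl i h5) h

/-- number of the 1-cycles of a line in a set -/
private theorem Scn_lineIn (hCan : S_Can) (S : Finset G) (y : G) :
    lineIn S y = (((Finset.range 5).image fun i => can (y * sig ^ i)) ∩ S).card := by
  have hinj := hCan.2.2.2.2.2.1
  rw [lineIn]
  have : ((Finset.range 5).image fun i => can (y * sig ^ i)) ∩ S =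
      ((Finset.range 5).filter fun i => can (y * sig ^ i) ∈ S).image
        fun i => can (y * sig ^ i) := by
    ext z
    simp only [Finset.mem_inter, Finset.mem_image, Finset.mem_filter]
    constructor
    · rintro ⟨⟨i, hi, rfl⟩, hz⟩
      exact ⟨i, ⟨hi, hz⟩, rfl⟩
    · rintro ⟨i, ⟨hi, hz⟩, rfl⟩
      exact ⟨⟨i, hi, rfl⟩, hz⟩
  rw [this, Finset.card_image_of_injOn]
  intro i hi j hj h
  have hi' := Finset.mem_range.1 (Finset.mem_filter.1 (Finset.mem_coe.1 hi)).1
  have hj' := Finset.mem_range.1 (Finset.mem_filter.1 (Finset.mem_coe.1 hj)).1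
  exact hinj y i j hi' hj' h

/-- powers of `sig` -/
private theorem Scn_pow (hCan : S_Can) (n : ℕ) : sig ^ n = sig ^ (n % 5) := by
  have h5 : sig ^ 5 = 1 := hCan.2.2.2.2.2.2.2.2.1
  conv_lhs => rw [← Nat.div_add_mod n 5, pow_add, pow_mul, h5, one_pow, one_mul]

private theorem Scn_main (hCan : S_Can) : ∀ vs : List Vis, VPath vs → Scn_C vs := by
  intro vs
  induction vs using List.reverseRecOn with
  | nil =>
    intro _
    refine ⟨[], ?_, ?_, Or.inr ⟨?_, ?_⟩⟩
    · simp [Okl]
    · simp [csl]
    · simp [vcs, vfl, vcost, Scn_X]
    · intro _ z hz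
      simp [vcs, vfl] at hz
  | append_singleton vs v ih =>
    intro hP
    obtain ⟨hall, hch⟩ := hP
    rw [List.isChain_append] at hch
    obtain ⟨hch1, -, hlink⟩ := hch
    have hP' : VPath vs := ⟨fun u hu => hall u (List.mem_append_left _ hu), hch1⟩
    obtain ⟨he, hk⟩ := hall v (by simp)
    obtain ⟨ps, hok, hsub, hcase⟩ := ih hP'
    have hcv := Scn_card hCan v hk
    have hgl : v ∈ (vs ++ [v]).getLast? := by simp
    have hcost : (vcost (vs ++ [v]) : ℤ) = vcost vs + v.k + v.e := by
      rw [Scn_vcost_app]; push_cast; ring
    by_cases hdis : Disjoint (vcs vs) (vcs [v])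
    · -- the visit is disjoint from the rest
      have hcard : ((vcs (vs ++ [v])).card : ℤ) = (vcs vs).card + (v.k + 1) := by
        rw [Scn_vcs_app, Finset.card_union_of_disjoint hdis, hcv]; push_cast; ring
      -- the new piece
      have hnew : Scn_F (ps ++ [(v.y, List.replicate v.k none)]) = Scn_F ps ++ v.fl := by
        simp [Scn_F, Scn_fl_rep, Vis.fl]
      have hXnew : Scn_X (ps ++ [(v.y, List.replicate v.k none)]) = Scn_X ps + (v.k - 7) := by
        simp only [Scn_X, List.map_append, List.sum_append, List.map_cons, List.map_nil,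
          List.sum_cons, List.sum_nil, score, Scn_ws_rep]
        ring
      rcases hcase with ⟨ps', y, st, u, hps, hu, hlast, hle, heq⟩ | ⟨hle, heq⟩
      · by_cases he2 : v.e = 2
        · -- the last piece is continued
          rcases hlink u hu v (by simp) he2 with ⟨t, ht⟩ | ht
          · have hF : Scn_F (ps' ++ [(y, st ++ some t :: List.replicate v.k none)]) =
                Scn_F ps ++ v.fl := by
              rw [hps]
              simp only [Scn_F, List.flatMap_append, List.flatMap_cons, List.flatMap_nil,
                List.append_nil, Scn_fl_app, List.append_assoc]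
              rw [hlast]
              show _ ++ (_ ++ fl (u.last * jp t) _) = _
              rw [← ht, Scn_fl_rep]
              rfl
            have hX : Scn_X (ps' ++ [(y, st ++ some t :: List.replicate v.k none)]) =
                Scn_X ps + (v.k - 3) := by
              rw [hps]
              have : wsum (st ++ some t :: List.replicate v.k none) = wsum st + (v.k - 3) := by
                rw [show st ++ some t :: List.replicate v.k none =
                  st ++ ([some t] ++ List.replicate v.k none) from rfl, Scn_ws_app, Scn_ws_app,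
                  Scn_ws_rep]
                simp [wsum, wt]
                ring
              simp only [Scn_X, List.map_append, List.sum_append, List.map_cons, List.map_nil,
                List.sum_cons, List.sum_nil, score, this]
              ring
            obtain ⟨h1, h2, h3, h4⟩ := Scn_add hCan vs v hk ps _ hF hok hsub hdis
            refine ⟨_, h1, h3, Or.inl ⟨ps', y, _, v, rfl, hgl, ?_, ?_, ?_⟩⟩
            · rw [Scn_last_app, hlast]
              show lastF (u.last * jp t) _ = _
              rw [← ht, Scn_last_rep]
              rfl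
            · rw [hcard, hX, hcost, he2]
              push_cast
              linarith
            · intro h
              apply h4
              apply heq
              rw [hcard, hX, hcost, he2] at h
              push_cast at h
              linarith
          · -- impossible
            exfalso
            have hcan2 := hCan.2.1
            have hvy : can v.y ∈ vcs [v] :=
              (Scn_mem_v v _).2 ⟨0, by omega, by simp⟩
            have hu' : can u.last ∈ vcs vs := by
              have hmem : u ∈ vs := List.mem_of_getLast? hu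
              rw [vcs, List.mem_toFinset, List.mem_map]
              refine ⟨u.last, ?_, rfl⟩
              rw [vfl, List.mem_flatMap]
              refine ⟨u, hmem, ?_⟩
              rw [Vis.fl, List.mem_map]
              exact ⟨u.k, List.mem_range.2 (by omega), rfl⟩
            rw [ht, hcan2] at hvy
            exact Finset.disjoint_left.1 hdis hu' hvy
        · -- a new piece after a jump of cost at least 3
          obtain ⟨h1, h2, h3, h4⟩ := Scn_add hCan vs v hk ps _ hnew hok hsub hdis
          refine ⟨_, h1, h3, Or.inl ⟨ps, v.y, _, v, rfl, hgl, ?_, ?_, ?_⟩⟩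
          · rw [Scn_last_rep]; rfl
          · rw [hcard, hXnew, hcost]
            have : (3 : ℤ) ≤ v.e := by exact_mod_cast (by omega : 3 ≤ v.e)
            linarith
          · intro h
            apply h4
            apply heq
            rw [hcard, hXnew, hcost] at h
            have : (3 : ℤ) ≤ v.e := by exact_mod_cast (by omega : 3 ≤ v.e)
            linarith
      · obtain ⟨h1, h2, h3, h4⟩ := Scn_add hCan vs v hk ps _ hnew hok hsub hdis
        refine ⟨_, h1, h3, Or.inl ⟨ps, v.y, _, v, rfl, hgl, ?_, ?_, ?_⟩⟩
        · rw [Scn_last_rep]; rfl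
        · rw [hcard, hXnew, hcost]
          have : (2 : ℤ) ≤ v.e := by exact_mod_cast he
          linarith
        · intro h
          apply h4
          apply heq
          rw [hcard, hXnew, hcost] at h
          have : (2 : ℤ) ≤ v.e := by exact_mod_cast he
          linarith
    · -- the visit meets the rest
      have hb : 1 ≤ (vcs [v] ∩ vcs vs).card := by
        rw [Nat.one_le_iff_ne_zero, Ne, Finset.card_eq_zero, ← Finset.disjoint_iff_inter_eq_empty]
        exact fun h => hdis h.symm
      set b := (vcs [v] ∩ vcs vs).card with hbdef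
      have hcard : ((vcs (vs ++ [v])).card : ℤ) = (vcs vs).card + (v.k + 1) - b := by
        have := Finset.card_union_add_card_inter (vcs [v]) (vcs vs)
        rw [Scn_vcs_app, Finset.union_comm]
        rw [hcv] at this
        have h : ((vcs [v] ∪ vcs vs).card : ℤ) + b = (v.k + 1) + (vcs vs).card := by
          exact_mod_cast this
        linarith
      have hsub' : csl ps ⊆ vcs (vs ++ [v]) := by
        rw [Scn_vcs_app]
        exact hsub.trans Finset.subset_union_left
      have hb' : (1 : ℤ) ≤ b := by exact_mod_cast hb
      have hk' : (v.k : ℤ) ≤ 4 := by exact_mod_cast hk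
      have he' : (2 : ℤ) ≤ v.e := by exact_mod_cast he
      refine ⟨ps, hok, hsub', Or.inr ?_⟩
      rcases hcase with ⟨ps', y, st, u, hps, hu, hlast, hle, heq⟩ | ⟨hle, heq⟩
      · refine ⟨?_, ?_⟩
        · rw [hcard, hcost]
          linarith
        · intro h
          rw [hcard, hcost] at h
          have hb1 : b = 1 := by
            have : (b : ℤ) = 1 := by linarith
            exact_mod_cast this
          have hk4 : v.k = 4 := by
            have : (v.k : ℤ) = 4 := by linarith
            exact_mod_cast this
          have hT := heq (by linarith)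
          intro z hz hz'
          rw [Scn_vcs_app, Finset.mem_union] at hz
          by_cases hzD : z ∈ vcs vs
          · obtain ⟨y1, hy1, hl, hli⟩ := hT z hzD hz'
            refine ⟨y1, hy1, fun i hi => ?_, hli⟩
            rw [Scn_vcs_app]
            exact Finset.mem_union_left _ (hl i hi)
          · have hzv := hz.resolve_left hzD
            obtain ⟨j, hj, hjz⟩ := (Scn_mem_v v z).1 hzv
            have hline : ∀ i, can (v.y * sig ^ j * sig ^ i) ∈ vcs [v] := by
              intro i
              refine (Scn_mem_v v _).2 ⟨(j + i) % 5, ?_, ?_⟩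
              · rw [hk4]
                exact Nat.mod_lt _ (by norm_num)
              · rw [← Scn_pow hCan, pow_add, mul_assoc]
            refine ⟨v.y * sig ^ j, hjz, fun i _ => ?_, ?_⟩
            · rw [Scn_vcs_app]
              exact Finset.mem_union_right _ (hline i)
            · rw [Scn_lineIn hCan, ← hb1, hbdef]
              apply Finset.card_le_card
              intro x hx
              rw [Finset.mem_inter] at hx ⊢
              refine ⟨?_, hsub hx.2⟩
              obtain ⟨i, -, rfl⟩ := Finset.mem_image.1 hx.1
              exact hline i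
      · refine ⟨?_, ?_⟩
        · rw [hcard, hcost]
          linarith
        · intro h
          exfalso
          rw [hcard, hcost] at h
          linarith

theorem tScn (hCan : S_Can) (_hSub : S_Sub) : S_Scn := by
  intro vs hP
  obtain ⟨ps, hok, hsub, hcase⟩ := Scn_main hCan vs hP
  refine ⟨ps, hok, hsub, ?_, ?_⟩
  · rcases hcase with ⟨-, -, -, -, -, -, -, hle, -⟩ | ⟨hle, -⟩
    · exact hle
    · refine hle.trans ?_
      show 4 * (vcost vs : ℤ) + Scn_X ps ≤ 4 * (vcost vs : ℤ) + Scn_X ps + 4
      linarith
  · intro h z hz hz'
    rcases hcase with ⟨-, -, -, -, -, -, -, -, heq⟩ | ⟨hle, -⟩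
    · obtain ⟨y, hy, -, hli⟩ := heq h z hz hz'
      exact ⟨y, hy, hli⟩
    · exfalso
      have h' : (5 : ℤ) * (vcs vs).card = 4 * vcost vs + Scn_X ps + 4 := h
      linarith

end

end Pool.Agent.Lib.MP_e0d433_co.Six
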