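import Pool.Agent.Lib.MP_e0d433_co.Six.Spec

/-!
# MP_e0d433_co, project Six: minimal selection (`S_Sel`)
-/

set_option autoImplicit false

namespace Pool.Agent.Lib.MP_e0d433_co.Six

private def Sel_K (s : G → ℕ) : Finset G := Finset.univ.filter fun x => s (x * rho) ≠ s x + 1

private def Sel_F (s : G → ℕ) : Finset G :=
  Finset.univ.filter fun x => s (x * rho * sig * rho) = s x + 3 ∧ s (x * rho * sig) ≠ s x + 2

private theorem Sel_mem_K (s : G → ℕ) (x : G) : x ∈ Sel_K s ↔ s (x * rho) ≠ s x + 1 := by
  unfold Sel_K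
  rw [Finset.mem_filter]
  exact ⟨fun h => h.2, fun h => ⟨Finset.mem_univ _, h⟩⟩

private theorem Sel_mem_F (s : G → ℕ) (x : G) :
    x ∈ Sel_F s ↔ s (x * rho * sig * rho) = s x + 3 ∧ s (x * rho * sig) ≠ s x + 2 := by
  unfold Sel_F
  rw [Finset.mem_filter]
  exact ⟨fun h => h.2, fun h => ⟨Finset.mem_univ _, h⟩⟩

private theorem Sel_rho : (rho : G) ≠ 1 := by decide

private theorem Sel_rs : (rho * sig : G) ≠ 1 := by decide

private theorem Sel_comm : (sig * rho : G) ≠ rho * sig := by decide

private theorem Sel_ne (x g : G) (hg : g ≠ 1) : x * g ≠ x := fun h => hg (mul_eq_left.1 h)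

private theorem Sel_F_le (s : G → ℕ) : (Sel_F s).card ≤ 720 := by
  refine (Finset.card_le_univ _).trans ?_
  rw [Fintype.card_perm, Fintype.card_fin]
  decide

private theorem Sel_a (s : G → ℕ) (p y : G) (hy : y = p * rho) (h2 : s (y * rho) = s p + 2)
    (h1 : s y ≠ s p + 1) :
    (Sel_K (Function.update s y (s p + 1))).card + 1 ≤ (Sel_K s).card := by
  have hp : p ∈ Sel_K s := by
    rw [Sel_mem_K, ← hy]
    exact h1
  have hyp : p ≠ y := by
    rw [hy]
    exact (Sel_ne p rho Sel_rho).symm
  have hsub : Sel_K (Function.update s y (s p + 1)) ⊆ (Sel_K s).erase p := by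
    intro x hx
    rw [Sel_mem_K] at hx
    rw [Finset.mem_erase, Sel_mem_K]
    by_cases hxp : x = p
    · exfalso
      apply hx
      rw [hxp, ← hy, Function.update_self, Function.update_of_ne hyp]
    · refine ⟨hxp, ?_⟩
      by_cases hxy : x = y
      · exfalso
        apply hx
        rw [hxy, Function.update_self, Function.update_of_ne (Sel_ne y rho Sel_rho), h2]
      · have h3 : x * rho ≠ y := by
          rw [hy]
          exact fun h => hxp (mul_right_cancel h)
        rw [Function.update_of_ne h3, Function.update_of_ne hxy] at hx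
        exact hx
  have h3 := Finset.card_le_card hsub
  rw [Finset.card_erase_of_mem hp] at h3
  have h4 : 0 < (Sel_K s).card := Finset.card_pos.2 ⟨p, hp⟩
  omega

private theorem Sel_b1 (s : G → ℕ) (p y : G) (h3 : s (y * rho) = s p + 3)
    (h1 : s y ≠ s p + 2) :
    (Sel_K (Function.update s y (s p + 2))).card ≤ (Sel_K s).card := by
  have hy : y ∈ Sel_K s := by
    rw [Sel_mem_K]
    omega
  have hsub : Sel_K (Function.update s y (s p + 2)) ⊆
      insert (y * rho⁻¹) ((Sel_K s).erase y) := by
    intro x hx
    rw [Sel_mem_K] at hx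
    rw [Finset.mem_insert, Finset.mem_erase, Sel_mem_K]
    by_cases hxy : x = y
    · exfalso
      apply hx
      rw [hxy, Function.update_self, Function.update_of_ne (Sel_ne y rho Sel_rho), h3]
    · by_cases hx2 : x * rho = y
      · left
        rw [← hx2, mul_inv_cancel_right]
      · right
        rw [Function.update_of_ne hx2, Function.update_of_ne hxy] at hx
        exact ⟨hxy, hx⟩
  have h4 := (Finset.card_le_card hsub).trans (Finset.card_insert_le _ _)
  rw [Finset.card_erase_of_mem hy] at h4
  have h5 : 0 < (Sel_K s).card := Finset.card_pos.2 ⟨y, hy⟩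
  omega

private theorem Sel_b2 (s : G → ℕ) (p y : G) (hy : y = p * rho * sig)
    (h3 : s (y * rho) = s p + 3) (h1 : s y ≠ s p + 2)
    (hA : Function.update s y (s p + 2) (y * rho * sig * rho) ≠ s p + 5)
    (hB : ∀ x, s x + 1 = s p → p = x * rho) :
    (Sel_F (Function.update s y (s p + 2))).card + 1 ≤ (Sel_F s).card := by
  have hp : p ∈ Sel_F s := by
    rw [Sel_mem_F, ← hy]
    exact ⟨h3, h1⟩
  have hyp : p ≠ y := by
    rw [hy, mul_assoc]
    exact (Sel_ne p (rho * sig) Sel_rs).symm
  have hsub : Sel_F (Function.update s y (s p + 2)) ⊆ (Sel_F s).erase p := by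
    intro x hx
    rw [Sel_mem_F] at hx
    obtain ⟨hx1, hx2⟩ := hx
    rw [Finset.mem_erase, Sel_mem_F]
    have hxp : x ≠ p := by
      intro hxp
      apply hx2
      rw [hxp, ← hy, Function.update_self, Function.update_of_ne hyp]
    refine ⟨hxp, ?_⟩
    by_cases hxy : x = y
    · exfalso
      apply hA
      rw [hxy, Function.update_self] at hx1
      rw [hx1]
    · by_cases hxq : x * rho * sig * rho = y
      · exfalso
        rw [hxq, Function.update_self, Function.update_of_ne hxy] at hx1
        have h4 := hB x (by omega)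
        rw [hy, h4, mul_assoc, mul_assoc, mul_assoc, mul_assoc] at hxq
        have h5 := mul_left_cancel hxq
        have h6 := mul_left_cancel h5
        exact Sel_comm h6
      · have h4 : x * rho * sig ≠ y := by
          rw [hy]
          exact fun h => hxp (mul_right_cancel (mul_right_cancel h))
        rw [Function.update_of_ne hxq, Function.update_of_ne hxy] at hx1
        rw [Function.update_of_ne h4, Function.update_of_ne hxy] at hx2
        exact ⟨hx1, hx2⟩
  have h4 := Finset.card_le_card hsub
  rw [Finset.card_erase_of_mem hp] at h4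
  have h5 : 0 < (Sel_F s).card := Finset.card_pos.2 ⟨p, hp⟩
  omega

theorem tSel (hWn1 : S_Wn1) : S_Sel := by
  obtain ⟨-, w2, w3, w4, w5, w6, -⟩ := hWn1
  intro w hw
  choose s0 hs0 using hw
  classical
  have hex : ∃ m : ℕ, ∃ s : G → ℕ, (∀ x, IsAt w (s x) x) ∧
      1000 * (Sel_K s).card + (Sel_F s).card = m := ⟨_, s0, hs0, rfl⟩
  obtain ⟨s, hs, hm⟩ := Nat.find_spec hex
  have hmin : ∀ s' : G → ℕ, (∀ x, IsAt w (s' x) x) →
      1000 * (Sel_K s).card + (Sel_F s).card ≤ 1000 * (Sel_K s').card + (Sel_F s').card := by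
    intro s' hs'
    rw [hm]
    exact Nat.find_min' hex ⟨s', hs', rfl⟩
  have hup : ∀ (y : G) (t : ℕ), IsAt w t y → ∀ x, IsAt w (Function.update s y t x) x := by
    intro y t hy x
    by_cases hxy : x = y
    · rw [hxy, Function.update_self]
      exact hy
    · rw [Function.update_of_ne hxy]
      exact hs x
  refine ⟨s, hs, ?_, ?_⟩
  · intro p q hq hb
    rcases w4 w (s p) p q (hs p) (hq ▸ hs q) with h | ⟨h, hy⟩
    · exact h
    · exfalso
      have hqy : q = p * rho * rho := by rw [h, pow_two, mul_assoc]
      have h2 : s (p * rho * rho) = s p + 2 := by rw [← hqy]; exact hq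
      have h1 : s (p * rho) ≠ s p + 1 := by
        intro h1
        exact hb (p * rho) ⟨by omega, by omega⟩
      have h3 := Sel_a s p (p * rho) rfl h2 h1
      have h4 := hmin _ (hup (p * rho) (s p + 1) hy)
      have h5 := Sel_F_le (Function.update s (p * rho) (s p + 1))
      omega
  · intro p q hq hb
    rcases w5 w (s p) p q (hs p) (hq ▸ hs q) with h | h | ⟨h, hy⟩
    · exact Or.inl h
    · exact Or.inr h
    · exfalso
      have h3 : s (p * rho * sig * rho) = s p + 3 := by rw [← h]; exact hq
      have h1 : s (p * rho * sig) ≠ s p + 2 := by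
        intro h1
        exact hb (p * rho * sig) ⟨by omega, by omega⟩
      have h4 := Sel_b1 s p (p * rho * sig) h3 h1
      have hsel := hup (p * rho * sig) (s p + 2) hy
      have h5 := Sel_b2 s p (p * rho * sig) rfl h3 h1 (by
        intro h6
        have h7 := hsel (p * rho * sig * rho * sig * rho)
        rw [h6] at h7
        refine w6 w (s p + 2) (p * rho * sig) hy ?_ h7
        have h8 := hs (p * rho * sig * rho)
        rw [h3] at h8
        exact h8) (by
        intro x hx
        refine w3 w (s x) x p (hs x) ?_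
        rw [hx]
        exact hs p)
      have h6 := hmin _ hsel
      omega

end Pool.Agent.Lib.MP_e0d433_co.Six
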