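import Pool.Agent.Lib.MP_e0d433_co.Six.Spec

/-!
# MP_e0d433_co, project Six, module Siz: sizes of pieces
-/

set_option autoImplicit false

namespace Pool.Agent.Lib.MP_e0d433_co.Six

private theorem Siz_len8 : ∀ w ∈ W8, w.length = 95 := by
  decide

/-- S_Siz -/
theorem tSiz (hQL : S_QL) (hFH : S_FHt) (hSub : S_Sub) : S_Siz := by
  intro y st hok
  have key : ∀ s : ℤ, 1 ≤ s → s ≤ score st →
      ∃ (x : G) (st2 : List Step), Ok x st2 ∧ FH s (-3) st2 ∧ st2.length ≤ st.length := by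
    intro s hs1 hs
    obtain ⟨st1, st2, st3, he, hf⟩ := hFH s st hs1 hs
    refine ⟨lastF y st1, st2, (hSub.1 y st1 st2 st3 (by rw [← he]; exact hok)).1, hf, ?_⟩
    rw [he, List.length_append, List.length_append]
    omega
  refine ⟨?_, ?_, ?_, ?_, ?_, ?_⟩
  · by_contra hcon
    push Not at hcon
    obtain ⟨x, st2, h1, h2, h3⟩ := key 9 (by norm_num) (by omega)
    exact (hQL x st2 h1).1 h2
  · intro h
    obtain ⟨x, st2, h1, h2, h3⟩ := key 4 (by norm_num) h
    have := ((hQL x st2 h1).2.2.2.2.2 h2).1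
    omega
  · intro h
    obtain ⟨x, st2, h1, h2, h3⟩ := key 5 (by norm_num) h
    have := ((hQL x st2 h1).2.2.2.2.1 h2).1
    omega
  · intro h
    obtain ⟨x, st2, h1, h2, h3⟩ := key 6 (by norm_num) h
    have := ((hQL x st2 h1).2.2.2.1 h2).1
    omega
  · intro h
    obtain ⟨x, st2, h1, h2, h3⟩ := key 7 (by norm_num) h
    have := ((hQL x st2 h1).2.2.1 h2).1
    omega
  · intro h
    obtain ⟨x, st2, h1, h2, h3⟩ := key 8 (by norm_num) h
    have h4 := Siz_len8 _ ((hQL x st2 h1).2.1 h2)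
    rw [List.length_map] at h4
    omega

end Pool.Agent.Lib.MP_e0d433_co.Six
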