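import Pool.Agent.Lib.MP_e0d433_co.Six.Spec

/-!
# MP_e0d433_co, project Six: sorting of the flags by the times
-/

set_option autoImplicit false

namespace Pool.Agent.Lib.MP_e0d433_co.Six

private theorem Srt_card : Fintype.card G = 720 := by
  rw [Fintype.card_perm, Fintype.card_fin]
  rfl

private theorem Srt_gen (n : ℕ) (α : Type) [Fintype α] (hc : Fintype.card α = n) (s : α → ℕ)
    (hs : Function.Injective s) : ∃ E : Fin n ≃ α, StrictMono fun i => s (E i) := by
  classical
  have hcard : (Finset.univ.image s).card = n := by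
    rw [Finset.card_image_of_injective _ hs, Finset.card_univ, hc]
  let O : Fin n ≃o (Finset.univ.image s : Finset ℕ) := Finset.orderIsoOfFin _ hcard
  have hf : Function.Bijective
      (fun x : α => (⟨s x, Finset.mem_image_of_mem s (Finset.mem_univ x)⟩ :
        (Finset.univ.image s : Finset ℕ))) := by
    refine ⟨fun x y h => hs (congrArg Subtype.val h), fun y => ?_⟩
    obtain ⟨x, -, hx⟩ := Finset.mem_image.1 y.2
    exact ⟨x, Subtype.ext hx⟩
  let F : α ≃ (Finset.univ.image s : Finset ℕ) := Equiv.ofBijective _ hf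
  have hF : ∀ y, s (F.symm y) = y.1 := fun y => congrArg Subtype.val (F.apply_symm_apply y)
  refine ⟨O.toEquiv.trans F.symm, fun i j hij => ?_⟩
  have h1 : (O i).1 < (O j).1 := O.strictMono hij
  simpa [hF] using h1

/-- **Srt** (sorting). -/
theorem tSrt : S_Srt := fun s hs => Srt_gen 720 G Srt_card s hs

end Pool.Agent.Lib.MP_e0d433_co.Six
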