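import Pool.Agent.Lib.MP_e0d433_co.Six.Spec

/-!
# MP_e0d433_co, project Six: subpieces (`S_Sub`)
-/

set_option autoImplicit false

namespace Pool.Agent.Lib.MP_e0d433_co.Six

open scoped BigOperators

theorem Sub_fl_cons (y : G) (s : Step) (l : List Step) :
    fl y (s :: l) = y :: fl (y * stp s) l := rfl

theorem Sub_lastF_cons (y : G) (s : Step) (l : List Step) :
    lastF y (s :: l) = lastF (y * stp s) l := rfl

theorem Sub_fl_mid (y : G) (a : List Step) (s : Step) (b : List Step) :
    fl y (a ++ s :: b) = fl y a ++ fl (lastF y a * stp s) b := by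
  induction a generalizing y with
  | nil => rfl
  | cons t a ih =>
    rw [List.cons_append, Sub_fl_cons, Sub_fl_cons, Sub_lastF_cons, ih, List.cons_append]

theorem Sub_fl_length (y : G) (a : List Step) : (fl y a).length = a.length + 1 := by
  induction a generalizing y with
  | nil => rfl
  | cons t a ih => rw [Sub_fl_cons, List.length_cons, List.length_cons, ih]

theorem Sub_fl_pre (y : G) (a b : List Step) : fl y a <+: fl y (a ++ b) := by
  cases b with
  | nil => rw [List.append_nil]
  | cons s b => exact ⟨_, (Sub_fl_mid y a s b).symm⟩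

theorem Sub_fl_suf (y : G) (a b : List Step) : fl (lastF y a) b <:+ fl y (a ++ b) := by
  induction a generalizing y with
  | nil => exact List.suffix_refl _
  | cons t a ih =>
    rw [List.cons_append, Sub_fl_cons, Sub_lastF_cons]
    exact (ih (y * stp t)).trans (List.suffix_cons _ _)

theorem Sub_fl_infix (y : G) (a b c : List Step) :
    (fl (lastF y a) b).Sublist (fl y (a ++ b ++ c)) :=
  ((Sub_fl_suf y a b).sublist).trans (Sub_fl_pre y (a ++ b) c).sublist

theorem Sub_card (y : G) (a : List Step) (h : Ok y a) : (cs y a).card = a.length + 1 := by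
  unfold cs
  rw [List.toFinset_card_of_nodup h, List.length_map, Sub_fl_length]

theorem Sub_can (hCan : S_Can) (y : G) (a : List Step) : ∀ z ∈ cs y a, can z = z := by
  intro z hz
  unfold cs at hz
  rw [List.mem_toFinset, List.mem_map] at hz
  obtain ⟨x, -, rfl⟩ := hz
  exact hCan.2.2.2.2.1 x

theorem Sub_sub (y : G) (a : List Step) : cs y a ⊆ Finset.univ.image can := by
  intro z hz
  unfold cs at hz
  rw [List.mem_toFinset, List.mem_map] at hz
  obtain ⟨x, -, rfl⟩ := hz
  exact Finset.mem_image_of_mem _ (Finset.mem_univ x)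

theorem tSub (hCan : S_Can) : S_Sub := by
  refine ⟨?_, ?_, Sub_card, Sub_can hCan, ?_⟩
  · intro y a b c h
    have hs := (Sub_fl_infix y a b c).map can
    refine ⟨List.Nodup.sublist hs h, ?_⟩
    intro z hz
    unfold cs at hz ⊢
    rw [List.mem_toFinset] at hz ⊢
    exact hs.subset hz
  · intro y a s b h
    unfold Ok at h
    rw [Sub_fl_mid, List.map_append, List.nodup_append] at h
    refine ⟨h.1, h.2.1, ?_, ?_⟩
    · rw [Finset.disjoint_left]
      intro z hz hz'
      unfold cs at hz hz'
      rw [List.mem_toFinset] at hz hz'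
      exact h.2.2 z hz z hz' rfl
    · unfold cs
      rw [Sub_fl_mid, List.map_append, List.toFinset_append]
  · intro m y st hok hdis
    calc ∑ i, ((st i).length + 1) = ∑ i, (cs (y i) (st i)).card :=
          Finset.sum_congr rfl fun i _ => (Sub_card (y i) (st i) (hok i)).symm
      _ = (Finset.univ.biUnion fun i => cs (y i) (st i)).card :=
          (Finset.card_biUnion fun i _ j _ hij => hdis i j hij).symm
      _ ≤ (Finset.univ.image can).card :=
          Finset.card_le_card (Finset.biUnion_subset.2 fun i _ => Sub_sub (y i) (st i))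
      _ = 120 := hCan.2.2.2.2.2.2.1

end Pool.Agent.Lib.MP_e0d433_co.Six
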