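import Pool.Agent.Lib.MP_e0d433_co.Six.Spec

/-!
# MP_e0d433_co, project Six, module Tbl: the tables

The entries of the tables `TT`, `TI`, `TR` are the numbers of the neighbours of a flag and of their
1-cycles.
-/

set_option autoImplicit false

namespace Pool.Agent.Lib.MP_e0d433_co.Six

/-- number of the 1-cycle of the flag with the letters `a, …, f` -/
private def Tbl_cyc (a b c d e f : ℕ) : ℕ :=
  if a = 0 then rk a b c d e
  else if b = 0 then rk b c d e f
  else if c = 0 then rk c d e f a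
  else if d = 0 then rk d e f a b
  else if e = 0 then rk e f a b c
  else rk f a b c d

/-- the entry for the flag with the letters `a, …, f` -/
private def Tbl_W (a b c d e f : ℕ) : ℕ := rk a b c d e + 1024 * Tbl_cyc a b c d e f

/-- comparison of the entries for the flag with the letters `a, …, f` -/
private def Tbl_chk (a b c d e f : ℕ) : Bool :=
  Nat.beq (ch TT (rk a b c d e) 0) (Tbl_W b c d e a f) &&
  Nat.beq (ch TT (rk a b c d e) 1) (Tbl_W c d e b a f) &&
  Nat.beq (ch TT (rk a b c d e) 2) (Tbl_W c d e b f a) &&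
  Nat.beq (ch TT (rk a b c d e) 3) (Tbl_W c d e f b a) &&
  Nat.beq (ch TT (rk a b c d e) 4) (Tbl_W c d e a b f) &&
  Nat.beq (ch TI (rk a b c d e) 0) (Tbl_W e a b c d f) &&
  Nat.beq (ch TI (rk a b c d e) 1) (Tbl_W e d a b c f) &&
  Nat.beq (ch TI (rk a b c d e) 2) (Tbl_W f d a b c e) &&
  Nat.beq (ch TI (rk a b c d e) 3) (Tbl_W f e a b c d) &&
  Nat.beq (ch TI (rk a b c d e) 4) (Tbl_W d e a b c f) &&
  Nat.beq (cR (rk a b c d e)) (Tbl_W b c d e f a)

/-- a loop -/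
private def Tbl_six (p : ℕ → Bool) : Bool := p 0 && p 1 && p 2 && p 3 && p 4 && p 5

private theorem Tbl_six_spec {p : ℕ → Bool} (h : Tbl_six p = true) (i : Fin 6) : p i = true := by
  simp only [Tbl_six, Bool.and_eq_true] at h
  obtain ⟨⟨⟨⟨⟨h0, h1⟩, h2⟩, h3⟩, h4⟩, h5⟩ := h
  fin_cases i
  · exact h0
  · exact h1
  · exact h2
  · exact h3
  · exact h4
  · exact h5

private def Tbl_loop : Bool :=
  Tbl_six fun a => Tbl_six fun b => Nat.beq b a || Tbl_six fun c => Nat.beq c a || (Nat.beq c b ||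
    Tbl_six fun d => Nat.beq d a || (Nat.beq d b || (Nat.beq d c || Tbl_six fun e =>
      Nat.beq e a || (Nat.beq e b || (Nat.beq e c || (Nat.beq e d || Tbl_six fun f =>
        Nat.beq f a || (Nat.beq f b || (Nat.beq f c || (Nat.beq f d || (Nat.beq f e ||
          Tbl_chk a b c d e f))))))))))

private theorem Tbl_all : Tbl_loop = true := by decide +kernel

private theorem Tbl_or {a b : ℕ} {t : Bool} (h : a ≠ b) (h1 : (Nat.beq a b || t) = true) :
    t = true := by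
  rw [Bool.or_eq_true] at h1
  rcases h1 with h2 | h2
  · exact absurd (Nat.eq_of_beq_eq_true h2) h
  · exact h2

private theorem Tbl_of (x : G) :
    Tbl_chk (x 0) (x 1) (x 2) (x 3) (x 4) (x 5) = true := by
  have h : ∀ i j : Fin 6, i ≠ j → ((x i : Fin 6) : ℕ) ≠ ((x j : Fin 6) : ℕ) :=
    fun i j hij he => hij (x.injective (Fin.ext he))
  have h1 := Tbl_or (h 1 0 (by decide)) (Tbl_six_spec (Tbl_six_spec Tbl_all (x 0)) (x 1))
  have h2 := Tbl_or (h 2 1 (by decide)) (Tbl_or (h 2 0 (by decide)) (Tbl_six_spec h1 (x 2)))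
  have h3 := Tbl_or (h 3 2 (by decide)) (Tbl_or (h 3 1 (by decide)) (Tbl_or (h 3 0 (by decide))
    (Tbl_six_spec h2 (x 3))))
  have h4 := Tbl_or (h 4 3 (by decide)) (Tbl_or (h 4 2 (by decide)) (Tbl_or (h 4 1 (by decide))
    (Tbl_or (h 4 0 (by decide)) (Tbl_six_spec h3 (x 4)))))
  exact Tbl_or (h 5 4 (by decide)) (Tbl_or (h 5 3 (by decide)) (Tbl_or (h 5 2 (by decide))
    (Tbl_or (h 5 1 (by decide)) (Tbl_or (h 5 0 (by decide)) (Tbl_six_spec h4 (x 5))))))

private theorem Tbl_rho : ∀ k j : Fin 6, (rho ^ k.val) j = k + j := by decide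

private theorem Tbl_can (y : G) : idx (can y) =
    Tbl_cyc (y 0) (y 1) (y 2) (y 3) (y 4) (y 5) := by
  have h1 : ∀ k j : Fin 6, y.symm 0 = k → (can y) j = y (k + j) := by
    intro k j hk
    unfold can
    rw [Equiv.Perm.mul_apply, hk, Tbl_rho]
  have h2 : ∀ k : Fin 6, y.symm 0 = k → ((y k : Fin 6) : ℕ) = 0 := by
    intro k hk
    rw [← hk, Equiv.apply_symm_apply]
    rfl
  have h3 : ∀ k j : Fin 6, y.symm 0 = k → j ≠ k → ((y j : Fin 6) : ℕ) ≠ 0 := by
    intro k j hk hj h0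
    have h4 : y j = 0 := Fin.ext h0
    exact hj (by rw [← hk, ← h4, Equiv.symm_apply_apply])
  have h5 : idx (can y) = rk ((can y) 0) ((can y) 1) ((can y) 2) ((can y) 3) ((can y) 4) := rfl
  rw [h5]
  generalize hk : y.symm 0 = k
  rw [h1 k 0 hk, h1 k 1 hk, h1 k 2 hk, h1 k 3 hk, h1 k 4 hk]
  unfold Tbl_cyc
  fin_cases k
  · rw [if_pos (h2 0 hk)]
    rfl
  · rw [if_neg (h3 1 0 hk (by decide)), if_pos (h2 1 hk)]
    rfl
  · rw [if_neg (h3 2 0 hk (by decide)), if_neg (h3 2 1 hk (by decide)), if_pos (h2 2 hk)]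
    rfl
  · rw [if_neg (h3 3 0 hk (by decide)), if_neg (h3 3 1 hk (by decide)),
      if_neg (h3 3 2 hk (by decide)), if_pos (h2 3 hk)]
    rfl
  · rw [if_neg (h3 4 0 hk (by decide)), if_neg (h3 4 1 hk (by decide)),
      if_neg (h3 4 2 hk (by decide)), if_neg (h3 4 3 hk (by decide)), if_pos (h2 4 hk)]
    rfl
  · rw [if_neg (h3 5 0 hk (by decide)), if_neg (h3 5 1 hk (by decide)),
      if_neg (h3 5 2 hk (by decide)), if_neg (h3 5 3 hk (by decide)),
      if_neg (h3 5 4 hk (by decide))]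
    rfl

private theorem Tbl_idx (y : G) : idx y + 1024 * idx (can y) =
    Tbl_W (y 0) (y 1) (y 2) (y 3) (y 4) (y 5) := by
  rw [Tbl_can]
  rfl

theorem tTbl (hCan : S_Can) : S_Tbl := by
  refine ⟨fun x s => ?_, fun x s => ?_, fun x => ?_⟩
  · have h := Tbl_of x
    simp only [Tbl_chk, Bool.and_eq_true] at h
    obtain ⟨⟨⟨⟨⟨⟨⟨⟨⟨⟨h0, h1⟩, h2⟩, h3⟩, h4⟩, -⟩, -⟩, -⟩, -⟩, -⟩, -⟩ := h
    rw [Tbl_idx]
    rcases s with _ | t
    · exact Nat.eq_of_beq_eq_true h0
    · fin_cases t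
      · exact Nat.eq_of_beq_eq_true h1
      · exact Nat.eq_of_beq_eq_true h2
      · exact Nat.eq_of_beq_eq_true h3
      · exact Nat.eq_of_beq_eq_true h4
  · have h := Tbl_of x
    simp only [Tbl_chk, Bool.and_eq_true] at h
    obtain ⟨⟨⟨⟨⟨⟨-, h0⟩, h1⟩, h2⟩, h3⟩, h4⟩, -⟩ := h
    rw [Tbl_idx]
    rcases s with _ | t
    · exact Nat.eq_of_beq_eq_true h0
    · fin_cases t
      · exact Nat.eq_of_beq_eq_true h1
      · exact Nat.eq_of_beq_eq_true h2
      · exact Nat.eq_of_beq_eq_true h3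
      · exact Nat.eq_of_beq_eq_true h4
  · have h := Tbl_of x
    simp only [Tbl_chk, Bool.and_eq_true] at h
    have h6 : can (x * rho) = can x := by
      have h7 := hCan.2.1 x 1
      rwa [pow_one] at h7
    rw [← h6, Tbl_idx]
    exact Nat.eq_of_beq_eq_true h.2

end Pool.Agent.Lib.MP_e0d433_co.Six
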