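import Pool.Agent.Lib.MP_e0d433_co.Six.Spec

/-!
# MP_e0d433_co, project Six, module Tig: no room for extensions
-/

set_option autoImplicit false

namespace Pool.Agent.Lib.MP_e0d433_co.Six

private theorem Tig_lastF_append (a b : List Step) : ∀ y : G,
    lastF y (a ++ b) = lastF (lastF y a) b := by
  induction a with
  | nil => intro y; rfl
  | cons s a ih => intro y; exact ih (y * stp s)

private theorem Tig_wsum_append (a b : List Step) : wsum (a ++ b) = wsum a + wsum b := by
  unfold wsum
  rw [List.map_append, List.sum_append]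

theorem tTig (hSub : S_Sub) : S_Tig := by
  intro T y a b c hOk hdis _ hF hB hw
  obtain ⟨h1, h2, -, -, -⟩ := hSub
  rw [Tig_wsum_append, Tig_wsum_append] at hw
  -- the part behind
  have hc : c ≠ [] → wsum c < 0 := by
    intro hc
    obtain ⟨s, c', rfl⟩ := List.exists_cons_of_ne_nil hc
    obtain ⟨h3, h4, h5, h6⟩ := h2 y (a ++ b) s c' hOk
    have h7 : cs (lastF y a) b ⊆ cs y (a ++ b) := by
      have h8 := (h1 y a b [] (by rw [List.append_nil]; exact h3)).2
      rwa [List.append_nil] at h8
    rw [Tig_lastF_append] at h4 h5 h6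
    refine hF s c' h4 ?_
    refine Finset.disjoint_of_subset_left ?_ hdis
    intro x hx
    rw [Finset.mem_sdiff, h6, Finset.mem_union]
    exact ⟨Or.inr hx, fun hx' => Finset.disjoint_left.1 h5 (h7 hx') hx⟩
  -- the part in front
  have ha : a ≠ [] → wsum a < 0 := by
    intro ha
    obtain ⟨a', s, rfl⟩ : ∃ a' s, a = a' ++ [s] :=
      ⟨a.dropLast, a.getLast ha, (List.dropLast_append_getLast ha).symm⟩
    have e1 : a' ++ [s] ++ b ++ c = a' ++ s :: (b ++ c) := by simp
    have e2 : lastF y (a' ++ [s]) = lastF y a' * stp s := Tig_lastF_append a' [s] y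
    rw [e1] at hOk hdis
    rw [e2] at hdis hB
    obtain ⟨h3, h4, h5, h6⟩ := h2 y a' s (b ++ c) hOk
    have h7 := (h1 (lastF y a' * stp s) [] b c h4).2
    refine hB y a' s h3 ?_ rfl
    refine Finset.disjoint_of_subset_left ?_ hdis
    intro x hx
    rw [Finset.mem_sdiff, h6, Finset.mem_union]
    exact ⟨Or.inl hx, fun hx' => Finset.disjoint_left.1 h5 hx (h7 hx')⟩
  by_cases h8 : a = []
  · refine ⟨h8, ?_⟩
    by_contra h9
    have h10 := hc h9
    have h11 : wsum a = 0 := by rw [h8]; rfl
    linarith
  · exfalso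
    have h12 := ha h8
    by_cases h9 : c = []
    · have h11 : wsum c = 0 := by rw [h9]; rfl
      linarith
    · have h10 := hc h9
      linarith

end Pool.Agent.Lib.MP_e0d433_co.Six
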