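import Pool.Agent.Lib.MP_e0d433_co.Six.Spec

/-!
# MP_e0d433_co, project Six: `V0`

The orbit of `cl` has value `≤ 11`, with equality only if there is a hole.
-/

set_option autoImplicit false

namespace Pool.Agent.Lib.MP_e0d433_co.Six

open scoped BigOperators

/-- membership in an orbit -/
private theorem V0_mem (T : Tour) (c x : G) : x ∈ T.orb c ↔ ∃ k : ℕ, (T.Out ^ k) c = x := by
  unfold Tour.orb
  simp only [Finset.mem_filter, Finset.mem_univ, true_and]

/-- the costs on the orbit of `cl` -/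
private theorem V0_pos (hOrb : S_Orb) (T : Tour) :
    ∀ x ∈ T.orb T.cl, x ≠ T.cl → x ≠ T.cl ∧ 1 ≤ T.e x := by
  intro x hx hne
  refine ⟨hne, ?_⟩
  by_contra h0
  have he : T.e x = 0 := by omega
  have hO : T.Out x = x := T.h0 x hne he
  have h1 : T.orb x = T.orb T.cl := (hOrb T).2.1 T.cl x hx
  have h2 : T.cl ∈ T.orb x := by
    rw [h1]
    exact (hOrb T).1 T.cl
  obtain ⟨k, hk⟩ := (V0_mem T x T.cl).1 h2
  have h3 : ∀ n : ℕ, (T.Out ^ n) x = x := by
    intro n
    induction n with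
    | zero => rfl
    | succ n ih =>
      rw [pow_succ, Equiv.Perm.mul_apply, hO, ih]
  exact hne ((h3 k).symm.trans hk)

theorem tV0 (hOrb : S_Orb) (hP0 : S_P0) (hOpn : S_Opn) : S_V0 := by
  intro T
  obtain ⟨vs, -, hpath, -, hfl, hcost, -, -⟩ := hOpn T T.cl (V0_pos hOrb T)
  have hvcs : vcs vs = (T.orb T.cl).image can := by
    rw [← hfl]
    unfold vcs
    ext a
    simp only [List.mem_toFinset, List.mem_map, Finset.mem_image]
  have hsum : ∑ x ∈ (T.orb T.cl).erase T.cl, T.e x = ∑ x ∈ T.orb T.cl, T.e x :=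
    Finset.sum_erase _ T.ecl
  have hval : T.val (T.orb T.cl) =
      5 * ((((T.orb T.cl).image can).card : ℕ) : ℤ) - 5 -
        4 * ((∑ c ∈ T.orb T.cl, T.e c : ℕ) : ℤ) := rfl
  obtain ⟨hle, heq⟩ := hP0 vs hpath
  rw [hvcs, hcost, hsum] at hle heq
  rw [hval]
  refine ⟨by omega, fun h => ?_⟩
  exact heq (by omega)

end Pool.Agent.Lib.MP_e0d433_co.Six
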