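import Pool.Agent.Lib.MP_e0d433_co.Six.Spec

/-!
# Project Six: the value of an orbit without the cut (`S_V1`)
-/

set_option autoImplicit false

namespace Pool.Agent.Lib.MP_e0d433_co.Six

open scoped BigOperators

private theorem V1_mem (T : Tour) (c x : G) : x ∈ T.orb c ↔ ∃ k : ℕ, (T.Out ^ k) c = x := by
  classical
  unfold Tour.orb
  rw [Finset.mem_filter]
  exact ⟨fun h => h.2, fun h => ⟨Finset.mem_univ _, h⟩⟩

private theorem V1_out (T : Tour) (x : G) : T.Out x = T.N (x * rho⁻¹) := rfl

/-- change of the cost of the first visit -/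
private theorem V1_path (T : Tour) (z : G) (v : Vis) (vs : List Vis) (hP : VPath (v :: vs))
    (hy : v.y = T.Out z) (hl : ∀ u ∈ (v :: vs).getLast?, u.last = z) (hz : z ≠ T.cl)
    (he : 2 ≤ T.e z) : CPath (⟨T.e z, v.y, v.k⟩ :: vs) := by
  obtain ⟨hP1, hP2⟩ := hP
  refine ⟨⟨?_, ?_⟩, ?_⟩
  · intro u hu
    rcases List.mem_cons.1 hu with rfl | hu
    · exact ⟨he, (hP1 v List.mem_cons_self).2⟩
    · exact hP1 u (List.mem_cons_of_mem _ hu)
  · cases vs with
    | nil => exact List.isChain_singleton _
    | cons w vs =>
      rw [List.isChain_cons_cons] at hP2 ⊢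
      exact hP2
  · intro u hu w hw
    have hw' : w = ⟨T.e z, v.y, v.k⟩ := by
      rw [List.head?_cons, Option.mem_some_iff] at hw
      exact hw.symm
    have hul : u.last = z := by
      cases vs with
      | nil =>
        have h1 : u = ⟨T.e z, v.y, v.k⟩ := by
          rw [List.getLast?_singleton, Option.mem_some_iff] at hu
          exact hu.symm
        rw [h1]
        exact hl v (by rw [List.getLast?_singleton]; rfl)
      | cons w' vs =>
        refine hl u ?_
        rw [List.getLast?_cons_cons] at hu ⊢
        exact hu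
    intro h2
    rw [hw'] at h2 ⊢
    have h3 := T.h2 z hz h2
    rw [hul]
    change (∃ t, v.y = z * jp t) ∨ v.y = z * rho ^ 2
    rw [hy, V1_out]
    exact h3

theorem tV1 (hCan : S_Can) (hOrb : S_Orb) (hP1 : S_P1) (hOpn : S_Opn) : S_V1 := by
  classical
  obtain ⟨-, -, -, -, -, hline, -, -, hsig5, -⟩ := hCan
  intro T c hcl
  obtain ⟨o1, o2, o3, o4⟩ := hOrb T
  have hne : ∀ x ∈ T.orb c, x ≠ T.cl := fun x hx h => hcl (h ▸ hx)
  by_cases hA : ∃ x ∈ T.orb c, T.e x = 0
  · obtain ⟨x, hx, hex⟩ := hA
    have hox : T.Out x = x := by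
      rw [V1_out]
      exact T.h0 x (hne x hx) hex
    have hpow : ∀ k : ℕ, (T.Out ^ k) x = x := by
      intro k
      induction k with
      | zero => rfl
      | succ k ih => rw [pow_succ, Equiv.Perm.mul_apply, hox, ih]
    have horb : T.orb c = {x} := by
      rw [← o2 c x hx]
      ext y
      rw [V1_mem, Finset.mem_singleton]
      constructor
      · rintro ⟨k, hk⟩
        rw [hpow] at hk
        exact hk.symm
      · rintro rfl
        exact ⟨0, rfl⟩
    have hcx : c = x := by
      have := o1 c
      rw [horb, Finset.mem_singleton] at this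
      exact this
    have hval : T.val (T.orb c) = 0 := by
      unfold Tour.val
      rw [horb, Finset.image_singleton, Finset.card_singleton, Finset.sum_singleton, hex]
      norm_num
    refine ⟨hval.le, fun _ h1 => ?_⟩
    rw [hcx, hex] at h1
    omega
  have hA' : ∀ x ∈ T.orb c, 1 ≤ T.e x := fun x hx => by
    by_contra h
    exact hA ⟨x, hx, by omega⟩
  by_cases hB : ∀ x ∈ T.orb c, T.e x = 1
  · have hstep : ∀ x ∈ T.orb c, T.Out x = x * sig := fun x hx => by
      rw [V1_out]
      exact T.h1 x (hne x hx) (hB x hx)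
    have hpow : ∀ k : ℕ, (T.Out ^ k) c = c * sig ^ k ∧ c * sig ^ k ∈ T.orb c := by
      intro k
      induction k with
      | zero =>
        rw [pow_zero, pow_zero, mul_one]
        exact ⟨rfl, o1 c⟩
      | succ k ih =>
        have h1 : T.Out (c * sig ^ k) = c * sig ^ (k + 1) := by
          rw [hstep _ ih.2, mul_assoc, pow_succ]
        refine ⟨?_, ?_⟩
        · rw [pow_succ', Equiv.Perm.mul_apply, ih.1, h1]
        · rw [← h1]
          exact o4 c _ ih.2
    have hmod : ∀ k : ℕ, sig ^ k = sig ^ (k % 5) := by
      intro k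
      conv_lhs => rw [← Nat.div_add_mod k 5]
      rw [pow_add, pow_mul, hsig5, one_pow, one_mul]
    have horb : T.orb c = (Finset.range 5).image fun i => c * sig ^ i := by
      ext y
      rw [V1_mem, Finset.mem_image]
      constructor
      · rintro ⟨k, hk⟩
        refine ⟨k % 5, Finset.mem_range.2 (Nat.mod_lt _ (by norm_num)), ?_⟩
        rw [← hmod, ← (hpow k).1, hk]
      · rintro ⟨i, -, hi⟩
        exact ⟨i, by rw [(hpow i).1, hi]⟩
    have hinj : Set.InjOn (fun i => can (c * sig ^ i)) (Finset.range 5 : Finset ℕ) := by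
      intro i hi j hj hij
      rw [Finset.mem_coe, Finset.mem_range] at hi hj
      exact hline c i j hi hj hij
    have hinj' : Set.InjOn (fun i => c * sig ^ i) (Finset.range 5 : Finset ℕ) := by
      intro i hi j hj hij
      exact hinj hi hj (congrArg can hij)
    have hval : T.val (T.orb c) = 0 := by
      unfold Tour.val
      have h1 : ∑ x ∈ T.orb c, T.e x = 5 := by
        rw [Finset.sum_congr rfl hB, Finset.sum_const, horb, Finset.card_image_of_injOn hinj',
          Finset.card_range]
        rfl
      have h2 : ((T.orb c).image can).card = 5 := by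
        rw [horb, Finset.image_image]
        exact (Finset.card_image_of_injOn hinj).trans (Finset.card_range 5)
      rw [h1, h2]
      norm_num
    exact ⟨hval.le, fun _ _ => horb⟩
  · push Not at hB
    obtain ⟨z, hz, hez⟩ := hB
    have hez2 : 2 ≤ T.e z := by
      have := hA' z hz
      omega
    have hzc : T.orb z = T.orb c := o2 c z hz
    obtain ⟨vs, hvs, hP, -, hset, hcost, hhead, hlast⟩ := hOpn T z fun x hx _ => by
      rw [hzc] at hx
      exact ⟨hne x hx, hA' x hx⟩
    cases vs with
    | nil => exact absurd rfl hvs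
    | cons v vs =>
      obtain ⟨hv1, hv2⟩ := hhead v (by rw [List.head?_cons]; rfl)
      have hC := V1_path T z v vs hP hv2 hlast (hne z hz) hez2
      have h5 := hP1 _ (List.cons_ne_nil _ _) hC
      have hfl : vfl (⟨T.e z, v.y, v.k⟩ :: vs) = vfl (v :: vs) := rfl
      have hcs : vcs (⟨T.e z, v.y, v.k⟩ :: vs) = (T.orb c).image can := by
        unfold vcs
        rw [hfl, ← hzc, ← hset]
        ext x
        rw [List.mem_toFinset, List.mem_map, Finset.mem_image]
        exact exists_congr fun y => and_congr List.mem_toFinset.symm Iff.rfl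
      have hco : vcost (⟨T.e z, v.y, v.k⟩ :: vs) = ∑ x ∈ T.orb c, T.e x := by
        have h6 : vcost (⟨T.e z, v.y, v.k⟩ :: vs) + 2 = vcost (v :: vs) + T.e z := by
          unfold vcost
          rw [List.map_cons, List.map_cons, List.sum_cons, List.sum_cons, hv1]
          change v.k + T.e z + _ + 2 = _
          omega
        have h7 := Finset.add_sum_erase (T.orb z) T.e (o1 z)
        rw [← hzc]
        omega
      rw [hcs, hco] at h5
      have hval : T.val (T.orb c) ≤ -1 := by
        unfold Tour.val
        omega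
      refine ⟨by omega, fun h => ?_⟩
      omega

end Pool.Agent.Lib.MP_e0d433_co.Six
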