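import Pool.Agent.Lib.MP_e0d433_co.Six.Spec

/-!
# MP_e0d433_co, project Six: Wrd, words give tours
-/

set_option autoImplicit false

namespace Pool.Agent.Lib.MP_e0d433_co.Six

open scoped BigOperators

noncomputable section

/-- the cyclic order given by an enumeration -/
def Wrd_N {n : ℕ} (E : Fin (n + 1) ≃ G) : Equiv.Perm G := E.symm.trans ((finRotate (n + 1)).trans E)

private lemma Wrd_N_apply {n : ℕ} (E : Fin (n + 1) ≃ G) (i : Fin (n + 1)) :
    Wrd_N E (E i) = E (finRotate (n + 1) i) := by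
  simp [Wrd_N]

private lemma Wrd_N_lt {n : ℕ} (E : Fin (n + 1) ≃ G) (i : ℕ) (hi : i < n) :
    Wrd_N E (E ⟨i, by omega⟩) = E ⟨i + 1, by omega⟩ := by
  rw [Wrd_N_apply]
  congr 1
  apply Fin.ext
  rw [coe_finRotate_of_ne_last]
  intro h
  have := congrArg Fin.val h
  simp at this
  omega

private lemma Wrd_N_last {n : ℕ} (E : Fin (n + 1) ≃ G) : Wrd_N E (E (Fin.last n)) = E 0 := by
  rw [Wrd_N_apply, finRotate_last]

private lemma Wrd_pow {n : ℕ} (E : Fin (n + 1) ≃ G) (k : ℕ) (hk : k < n + 1) :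
    (Wrd_N E ^ k) (E 0) = E ⟨k, hk⟩ := by
  induction k with
  | zero => rfl
  | succ k ih =>
    rw [pow_succ', Equiv.Perm.mul_apply, ih (by omega), Wrd_N_lt E k (by omega)]

private lemma Wrd_pow_back {n : ℕ} (E : Fin (n + 1) ≃ G) (i : Fin (n + 1)) :
    (Wrd_N E ^ (n + 1 - i.val)) (E i) = E 0 := by
  have h1 : E i = (Wrd_N E ^ i.val) (E 0) := (Wrd_pow E i.val i.isLt).symm
  rw [h1, ← Equiv.Perm.mul_apply, ← pow_add, show n + 1 - i.val + i.val = n + 1 by omega, pow_succ',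
    Equiv.Perm.mul_apply, Wrd_pow E n (by omega)]
  exact Wrd_N_last E

private lemma Wrd_tr {n : ℕ} (E : Fin (n + 1) ≃ G) (x y : G) : ∃ k : ℕ, (Wrd_N E ^ k) x = y := by
  obtain ⟨i, rfl⟩ := E.surjective x
  obtain ⟨j, rfl⟩ := E.surjective y
  refine ⟨j.val + (n + 1 - i.val), ?_⟩
  rw [pow_add, Equiv.Perm.mul_apply, Wrd_pow_back, Wrd_pow E j.val j.isLt]

private lemma Wrd_next {n : ℕ} (E : Fin (n + 1) ≃ G) (s : G → ℕ)
    (hs : StrictMono fun i => s (E i)) (p : G) (hp : p ≠ E (Fin.last n)) :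
    s p < s (Wrd_N E p) ∧ ∀ r, ¬ (s p < s r ∧ s r < s (Wrd_N E p)) := by
  obtain ⟨i, rfl⟩ := E.surjective p
  have hi : i ≠ Fin.last n := fun h => hp (by rw [h])
  have hlt : i.val < n := by
    have h1 := i.isLt
    have h2 : i.val ≠ n := fun h => hi (Fin.ext h)
    omega
  have h1 : Wrd_N E (E i) = E ⟨i.val + 1, by omega⟩ := Wrd_N_lt E i.val hlt
  rw [h1]
  refine ⟨hs (show i < ⟨i.val + 1, by omega⟩ from Nat.lt_succ_self _), fun r hr => ?_⟩
  obtain ⟨j, rfl⟩ := E.surjective r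
  have h2 : i < j := hs.lt_iff_lt.1 hr.1
  have h3 : j < ⟨i.val + 1, by omega⟩ := hs.lt_iff_lt.1 hr.2
  rw [Fin.lt_def] at h2 h3
  simp only at h3
  omega

private lemma Wrd_sum_range (f : ℕ → ℕ) (n : ℕ) (hf : ∀ i < n, f i < f (i + 1)) :
    ∑ i ∈ Finset.range n, (f (i + 1) - f i - 1) + n + f 0 = f n := by
  induction n with
  | zero => simp
  | succ n ih =>
    rw [Finset.sum_range_succ]
    have h1 := ih (fun i hi => hf i (by omega))
    have h2 := hf n (by omega)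
    omega

private lemma Wrd_sum {n : ℕ} (E : Fin (n + 1) ≃ G) (s : G → ℕ)
    (hs : StrictMono fun i => s (E i)) :
    ∑ c : G, (if c = E (Fin.last n) * rho then 0 else
      s (Wrd_N E (c * rho⁻¹)) - s (c * rho⁻¹) - 1) + n + s (E 0) = s (E (Fin.last n)) := by
  have h1 : ∑ c : G, (if c = E (Fin.last n) * rho then 0 else
      s (Wrd_N E (c * rho⁻¹)) - s (c * rho⁻¹) - 1) =
      ∑ p : G, (if p = E (Fin.last n) then 0 else s (Wrd_N E p) - s p - 1) := by
    rw [← Equiv.sum_comp (Equiv.mulRight rho)]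
    refine Finset.sum_congr rfl fun p _ => ?_
    simp only [Equiv.coe_mulRight, mul_inv_cancel_right, mul_left_inj]
  have h2 : ∑ p : G, (if p = E (Fin.last n) then 0 else s (Wrd_N E p) - s p - 1) =
      ∑ i : Fin (n + 1), (if i = Fin.last n then 0 else s (Wrd_N E (E i)) - s (E i) - 1) := by
    rw [← Equiv.sum_comp E]
    refine Finset.sum_congr rfl fun i _ => ?_
    simp only [EmbeddingLike.apply_eq_iff_eq]
  set f : ℕ → ℕ := fun i => if h : i < n + 1 then s (E ⟨i, h⟩) else 0 with hf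
  have h3 : ∑ i : Fin (n + 1), (if i = Fin.last n then 0 else s (Wrd_N E (E i)) - s (E i) - 1) =
      ∑ i ∈ Finset.range n, (f (i + 1) - f i - 1) := by
    rw [Fin.sum_univ_castSucc, Finset.sum_range]
    simp only [if_true, add_zero]
    refine Finset.sum_congr rfl fun i _ => ?_
    have hi := i.isLt
    rw [if_neg (Fin.castSucc_lt_last i).ne]
    have h4 : Wrd_N E (E i.castSucc) = E ⟨i.val + 1, by omega⟩ := Wrd_N_lt E i.val hi
    rw [h4]
    simp only [hf]
    rw [dif_pos (show i.val + 1 < n + 1 by omega), dif_pos (show i.val < n + 1 by omega)]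
    rfl
  have hf0 : f 0 = s (E 0) := by
    simp only [hf]
    rw [dif_pos (show 0 < n + 1 by omega)]
    rfl
  have hfn : f n = s (E (Fin.last n)) := by
    simp only [hf]
    rw [dif_pos (show n < n + 1 by omega)]
    rfl
  rw [h1, h2, h3, ← hf0, ← hfn]
  refine Wrd_sum_range f n fun i hi => ?_
  simp only [hf]
  rw [dif_pos (show i < n + 1 by omega), dif_pos (show i + 1 < n + 1 by omega)]
  exact hs (show (⟨i, by omega⟩ : Fin (n + 1)) < ⟨i + 1, by omega⟩ from Nat.lt_succ_self _)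

private lemma Wrd_tour {n : ℕ} (E : Fin (n + 1) ≃ G) (s : G → ℕ) (w : List (Fin 6))
    (hs : StrictMono fun i => s (E i)) (hlen : s (E (Fin.last n)) ≤ 146 + n)
    (h3 : ∀ (t : ℕ) (x y : G), IsAt w t x → IsAt w (t + 1) y → y = x * rho)
    (hat : ∀ x, IsAt w (s x) x)
    (hd2 : ∀ p q, s q = s p + 2 → (∀ r, ¬ (s p < s r ∧ s r < s q)) → q = p * rho * sig)
    (hd3 : ∀ p q, s q = s p + 3 → (∀ r, ¬ (s p < s r ∧ s r < s q)) →
      (∃ t, q = p * rho * jp t) ∨ q = p * rho * rho ^ 2) : Nonempty Tour := by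
  have key : ∀ c : G, c ≠ E (Fin.last n) * rho → s (c * rho⁻¹) < s (Wrd_N E (c * rho⁻¹)) ∧
      ∀ r, ¬ (s (c * rho⁻¹) < s r ∧ s r < s (Wrd_N E (c * rho⁻¹))) := by
    intro c hc
    refine Wrd_next E s hs _ fun h => hc ?_
    rw [← h, inv_mul_cancel_right]
  refine ⟨{ N := Wrd_N E, tr := Wrd_tr E, cl := E (Fin.last n) * rho
            e := fun c => if c = E (Fin.last n) * rho then 0 else
              s (Wrd_N E (c * rho⁻¹)) - s (c * rho⁻¹) - 1
            ecl := if_pos rfl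
            sum := ?_
            h0 := ?_
            h1 := ?_
            h2 := ?_ }⟩
  · have := Wrd_sum E s hs
    omega
  · intro c hc he
    have hk := key c hc
    rw [if_neg hc] at he
    have h4 : s (Wrd_N E (c * rho⁻¹)) = s (c * rho⁻¹) + 1 := by omega
    have h5 := h3 (s (c * rho⁻¹)) (c * rho⁻¹) (Wrd_N E (c * rho⁻¹)) (hat _) (h4 ▸ hat _)
    rw [h5, inv_mul_cancel_right]
  · intro c hc he
    have hk := key c hc
    rw [if_neg hc] at he
    have h4 : s (Wrd_N E (c * rho⁻¹)) = s (c * rho⁻¹) + 2 := by omega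
    have h5 := hd2 (c * rho⁻¹) (Wrd_N E (c * rho⁻¹)) h4 hk.2
    rwa [inv_mul_cancel_right] at h5
  · intro c hc he
    have hk := key c hc
    rw [if_neg hc] at he
    have h4 : s (Wrd_N E (c * rho⁻¹)) = s (c * rho⁻¹) + 3 := by omega
    have h5 := hd3 (c * rho⁻¹) (Wrd_N E (c * rho⁻¹)) h4 hk.2
    rwa [inv_mul_cancel_right] at h5

theorem tWrd (h1 : S_Wn1) (h2 : S_Sel) (h3 : S_Srt) : S_Wrd := by
  intro w hw hlen
  obtain ⟨a1, a2, a3, _, _, _, a7⟩ := h1
  obtain ⟨s, hat, hd2, hd3⟩ := h2 w (a7 w hw)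
  have hinj : Function.Injective s := by
    intro x y hxy
    exact a2 w (s x) x y (hat x) (hxy ▸ hat y)
  obtain ⟨E, hE⟩ := h3 s hinj
  refine Wrd_tour (n := 719) E s w hE ?_ (a3 w) hat hd2 hd3
  have := a1 w _ _ (hat (E (Fin.last 719)))
  omega

end

end Pool.Agent.Lib.MP_e0d433_co.Six
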