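import Pool.Agent.Lib.MP_e0d433_co.Six.Spec

/-!
# MP_e0d433_co, project Six: the computed holes are holes
-/

set_option autoImplicit false

namespace Pool.Agent.Lib.MP_e0d433_co.Six

open scoped BigOperators

private theorem Zc_divmod (a b : ℕ) (ha : a < 720) :
    (a + 1024 * b) % 1024 = a ∧ (a + 1024 * b) / 1024 = b := by
  constructor
  · omega
  · omega

/-- the number of 1-cycles of the mask on a part of a line -/
private theorem Zc_lin (hIdx : S_Idx) (hTbl : S_Tbl) (m : ℕ) (T : Finset G) (hm : Msk m T) :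
    ∀ (n : ℕ) (y : G), lin n m (idx y) (idx (can y))
      = ((Finset.range n).filter fun i => can (y * sig ^ i) ∈ T).card := by
  intro n
  induction n with
  | zero => intro y; simp [lin]
  | succ n ih =>
    intro y
    have h1 : ch TT (idx y) 0 = idx (y * sig) + 1024 * idx (can (y * sig)) := hTbl.1 y none
    obtain ⟨e1, e2⟩ := Zc_divmod (idx (y * sig)) (idx (can (y * sig))) (hIdx.1 _)
    have h2 := ih (y * sig)
    have h3 : lin (n + 1) m (idx y) (idx (can y)) = (if bt m (idx (can y)) then 1 else 0)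
        + lin n m (ch TT (idx y) 0 % 1024) (ch TT (idx y) 0 / 1024) := rfl
    rw [h3, h1, e1, e2, h2, Finset.card_filter, Finset.card_filter, Finset.sum_range_succ']
    have h4 : (if bt m (idx (can y)) then 1 else 0)
        = if can (y * sig ^ 0) ∈ T then 1 else 0 := by
      have h5 := hm y
      rw [pow_zero, mul_one]
      by_cases h6 : can y ∈ T
      · rw [if_pos h6, if_pos (h5.mpr h6)]
      · rw [if_neg h6, if_neg (fun h => h6 (h5.mp h))]
    rw [h4, add_comm]
    congr 1
    refine Finset.sum_congr rfl fun i _ => ?_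
    rw [mul_assoc, ← pow_succ']

private theorem Zc_hol (hIdx : S_Idx) (hTbl : S_Tbl) (m : ℕ) (T : Finset G) (hm : Msk m T) :
    ∀ (n : ℕ) (y : G), holc n m (idx y) = true → ∀ k : ℕ, k < n → 2 ≤ lineIn T (y * rho ^ k) := by
  intro n
  induction n with
  | zero => intro y _ k hk; exact absurd hk (Nat.not_lt_zero k)
  | succ n ih =>
    intro y hy k hk
    have h1 : cR (idx y) = idx (y * rho) + 1024 * idx (can y) := hTbl.2.2 y
    obtain ⟨e1, e2⟩ := Zc_divmod (idx (y * rho)) (idx (can y)) (hIdx.1 _)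
    have h3 : holc (n + 1) m (idx y) = (Nat.ble 2 (lin 5 m (idx y) (cR (idx y) / 1024))
      && holc n m (cR (idx y) % 1024)) := rfl
    rw [h3, h1, e1, e2, Bool.and_eq_true] at hy
    obtain ⟨ha, hb⟩ := hy
    cases k with
    | zero =>
      rw [pow_zero, mul_one]
      have h4 := Nat.le_of_ble_eq_true ha
      rw [Zc_lin hIdx hTbl m T hm 5 y] at h4
      exact h4
    | succ k =>
      have h5 := ih (y * rho) hb k (Nat.lt_of_succ_lt_succ hk)
      rw [mul_assoc, ← pow_succ'] at h5
      exact h5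

theorem tZc (hCan : S_Can) (hIdx : S_Idx) (hTbl : S_Tbl) (_hMsk : S_Msk) : S_Zc := by
  intro m T hz hm
  unfold zc at hz
  rw [List.any_eq_true] at hz
  obtain ⟨z, hz1, hz2⟩ := hz
  rw [List.mem_range] at hz1
  rw [Bool.and_eq_true] at hz2
  obtain ⟨hz3, hz4⟩ := hz2
  obtain ⟨x, hx1, hx2⟩ := hIdx.2.2.2.2.2 z hz1
  refine ⟨x, ?_, ?_⟩
  · intro hmem
    have h1 := (hm x).mpr hmem
    rw [hx2, hx1] at h1
    rw [h1] at hz3
    exact absurd hz3 (by decide)
  · intro k
    have h6 : rho ^ 6 = 1 := hCan.2.2.2.2.2.2.2.1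
    have h7 : rho ^ k = rho ^ (k % 6) := by
      conv_lhs => rw [← Nat.div_add_mod k 6, pow_add, pow_mul, h6, one_pow, one_mul]
    rw [h7]
    rw [← hx1] at hz4
    exact Zc_hol hIdx hTbl m T hm 6 x hz4 (k % 6) (Nat.mod_lt _ (by norm_num))

end Pool.Agent.Lib.MP_e0d433_co.Six
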