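import Pool.Agent.Lib.MP_e0d433_co.Six.Can
import Pool.Agent.Lib.MP_e0d433_co.Six.Idx
import Pool.Agent.Lib.MP_e0d433_co.Six.Tbl
import Pool.Agent.Lib.MP_e0d433_co.Six.Msk
import Pool.Agent.Lib.MP_e0d433_co.Six.Go
import Pool.Agent.Lib.MP_e0d433_co.Six.Lev
import Pool.Agent.Lib.MP_e0d433_co.Six.CmpA
import Pool.Agent.Lib.MP_e0d433_co.Six.CmpB
import Pool.Agent.Lib.MP_e0d433_co.Six.CmpC
import Pool.Agent.Lib.MP_e0d433_co.Six.Run
import Pool.Agent.Lib.MP_e0d433_co.Six.Tr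
import Pool.Agent.Lib.MP_e0d433_co.Six.QL
import Pool.Agent.Lib.MP_e0d433_co.Six.QC
import Pool.Agent.Lib.MP_e0d433_co.Six.Dw
import Pool.Agent.Lib.MP_e0d433_co.Six.Ext
import Pool.Agent.Lib.MP_e0d433_co.Six.Zc
import Pool.Agent.Lib.MP_e0d433_co.Six.Cfc
import Pool.Agent.Lib.MP_e0d433_co.Six.D8
import Pool.Agent.Lib.MP_e0d433_co.Six.D75
import Pool.Agent.Lib.MP_e0d433_co.Six.D655
import Pool.Agent.Lib.MP_e0d433_co.Six.D66
import Pool.Agent.Lib.MP_e0d433_co.Six.FHt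
import Pool.Agent.Lib.MP_e0d433_co.Six.Sub
import Pool.Agent.Lib.MP_e0d433_co.Six.Siz
import Pool.Agent.Lib.MP_e0d433_co.Six.Ma1
import Pool.Agent.Lib.MP_e0d433_co.Six.Cas
import Pool.Agent.Lib.MP_e0d433_co.Six.Tig
import Pool.Agent.Lib.MP_e0d433_co.Six.Eq8
import Pool.Agent.Lib.MP_e0d433_co.Six.Eq6
import Pool.Agent.Lib.MP_e0d433_co.Six.Max
import Pool.Agent.Lib.MP_e0d433_co.Six.Scn
import Pool.Agent.Lib.MP_e0d433_co.Six.P0
import Pool.Agent.Lib.MP_e0d433_co.Six.Cyl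
import Pool.Agent.Lib.MP_e0d433_co.Six.Clp
import Pool.Agent.Lib.MP_e0d433_co.Six.P1
import Pool.Agent.Lib.MP_e0d433_co.Six.Conn
import Pool.Agent.Lib.MP_e0d433_co.Six.Orb
import Pool.Agent.Lib.MP_e0d433_co.Six.Cn1
import Pool.Agent.Lib.MP_e0d433_co.Six.Cn2
import Pool.Agent.Lib.MP_e0d433_co.Six.Opn
import Pool.Agent.Lib.MP_e0d433_co.Six.V0
import Pool.Agent.Lib.MP_e0d433_co.Six.V1
import Pool.Agent.Lib.MP_e0d433_co.Six.End
import Pool.Agent.Lib.MP_e0d433_co.Six.Wn1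
import Pool.Agent.Lib.MP_e0d433_co.Six.Sel
import Pool.Agent.Lib.MP_e0d433_co.Six.Srt
import Pool.Agent.Lib.MP_e0d433_co.Six.Wrd
import Pool.Agent.Lib.MP_e0d433_co.Six.Upp
import Pool.Agent.Lib.MP_e0d433_co.Six.Fin

/-!
# MP_e0d433_co, project Six: assembly
-/

set_option autoImplicit false

namespace Pool.Agent.Lib.MP_e0d433_co.Six

theorem sCan : S_Can := tCan
theorem sIdx : S_Idx := tIdx
theorem sTbl : S_Tbl := tTbl sCan
theorem sMsk : S_Msk := tMsk sCan sIdx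
theorem sGo : S_Go := tGo sCan sIdx sTbl sMsk
theorem sLev : S_Lev := tLev
theorem sCmpA : S_CmpA := tCmpA sLev
theorem sCmpB : S_CmpB := tCmpB
theorem sCmpC : S_CmpC := tCmpC
theorem sRun : S_Run := tRun
theorem sTr : S_Tr := tTr sCan
theorem sQL : S_QL := tQL sIdx sMsk sGo sCmpA sRun sTr
theorem sQC : S_QC := tQC sIdx sTbl sMsk sGo sCmpA sRun sTr
theorem sDw : S_Dw := tDw sCan sIdx sTbl sMsk
theorem sExt : S_Ext := tExt sCan sIdx sTbl sMsk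
theorem sZc : S_Zc := tZc sCan sIdx sTbl sMsk
theorem sCfc : S_Cfc := tCfc sExt sZc
theorem sD8 : S_D8 := tD8 sCan sIdx sMsk sDw sCfc sCmpB sTr
theorem sD75 : S_D75 := tD75 sCan sIdx sMsk sDw sCmpB sTr
theorem sD655 : S_D655 := tD655 sCan sIdx sMsk sDw sCmpB sTr
theorem sD66 : S_D66 := tD66 sCan sIdx sMsk sDw sCfc sCmpC sTr
theorem sFHt : S_FHt := tFHt
theorem sSub : S_Sub := tSub sCan
theorem sSiz : S_Siz := tSiz sQL sFHt sSub
theorem sMa1 : S_Ma1 := tMa1 sQL sFHt sSub sD75 sD655 sD8 sSiz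
theorem sCas : S_Cas := tCas sSub sSiz sMa1
theorem sTig : S_Tig := tTig sSub
theorem sEq8 : S_Eq8 := tEq8 sQL sFHt sSub sD8 sTig
theorem sEq6 : S_Eq6 := tEq6 sQL sFHt sSub sD66 sTig sSiz
theorem sMax : S_Max := tMax sSub sCas sEq8 sEq6
theorem sScn : S_Scn := tScn sCan sSub
theorem sP0 : S_P0 := tP0 sCan sMax sScn
theorem sCyl : S_Cyl := tCyl
theorem sClp : S_Clp := tClp sCan sQC sCyl
theorem sP1 : S_P1 := tP1 sCan sP0 sClp
theorem sCon : S_Con := tCon sCan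
theorem sOrb : S_Orb := tOrb
theorem sCn1 : S_Cn1 := tCn1 sCon sOrb
theorem sCn2 : S_Cn2 := tCn2 sCon sOrb
theorem sOpn : S_Opn := tOpn sCan sOrb
theorem sV0 : S_V0 := tV0 sOrb sP0 sOpn
theorem sV1 : S_V1 := tV1 sCan sOrb sP1 sOpn
theorem sEnd : S_End := tEnd sCan sOrb sCn1 sCn2 sV0 sV1
theorem sWn1 : S_Wn1 := tWn1
theorem sSel : S_Sel := tSel sWn1
theorem sSrt : S_Srt := tSrt
theorem sWrd : S_Wrd := tWrd sWn1 sSel sSrt
theorem sUpp : S_Upp := tUpp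
theorem sFin : S_Fin := tFin sWrd sEnd sUpp

end Pool.Agent.Lib.MP_e0d433_co.Six
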