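import Pool.Agent.Lib.MP_e0d433_co.Six.Spec

/-!
# MP_e0d433_co, project Six, module Can
-/

set_option autoImplicit false

namespace Pool.Agent.Lib.MP_e0d433_co.Six

private lemma Can_r0 : ∀ k : Fin 6, (rho ^ k.val) 0 = k := by decide

private lemma Can_r1 : ∀ j : Fin 6, rho * rho ^ (rho.symm j).val = rho ^ j.val := by decide

private lemma Can_r2 : ∀ a b : Fin 6,
    rho ^ a.val * (rho ^ b.val)⁻¹ = rho ^ ((a.val + (6 - b.val)) % 6) := by decide +kernel

private lemma Can_r3 : ∀ (i j : Fin 5) (k : Fin 6),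
    sig ^ j.val = sig ^ i.val * rho ^ k.val → i = j := by decide +kernel

private lemma Can_r6 : rho ^ 6 = 1 := by decide

private lemma Can_s5 : sig ^ 5 = 1 := by decide

private lemma Can_zero (x : G) : (can x) 0 = 0 := by
  unfold can
  rw [Equiv.Perm.mul_apply, Can_r0, Equiv.apply_symm_apply]

private lemma Can_one (x : G) : can (x * rho) = can x := by
  have h : (x * rho).symm 0 = rho.symm (x.symm 0) := rfl
  unfold can
  rw [h, mul_assoc, Can_r1]

private lemma Can_pow (x : G) (k : ℕ) : can (x * rho ^ k) = can x := by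
  induction k with
  | zero => rw [pow_zero, mul_one]
  | succ k ih => rw [pow_succ, ← mul_assoc, Can_one, ih]

private lemma Can_iff (x y : G) : can x = can y ↔ ∃ k : ℕ, k < 6 ∧ y = x * rho ^ k := by
  constructor
  · intro h
    refine ⟨((x.symm 0).val + (6 - (y.symm 0).val)) % 6, Nat.mod_lt _ (by norm_num), ?_⟩
    rw [← Can_r2, ← mul_assoc]
    unfold can at h
    rw [h, mul_inv_cancel_right]
  · rintro ⟨k, -, rfl⟩
    exact (Can_pow x k).symm

private lemma Can_tr (g x y : G) : can (g * x) = can (g * y) ↔ can x = can y := by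
  rw [Can_iff, Can_iff]
  constructor
  · rintro ⟨k, hk, h⟩
    refine ⟨k, hk, ?_⟩
    rw [mul_assoc] at h
    exact mul_left_cancel h
  · rintro ⟨k, hk, rfl⟩
    exact ⟨k, hk, (mul_assoc _ _ _).symm⟩

private lemma Can_can (x : G) : can (can x) = can x := by
  have h : can x = x * rho ^ (x.symm 0).val := rfl
  conv_lhs => rw [h]
  exact Can_pow x _

private lemma Can_line (y : G) (i j : ℕ) (hi : i < 5) (hj : j < 5)
    (h : can (y * sig ^ i) = can (y * sig ^ j)) : i = j := by
  rw [Can_tr, Can_iff] at h
  obtain ⟨k, hk, h⟩ := h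
  have := Can_r3 ⟨i, hi⟩ ⟨j, hj⟩ ⟨k, hk⟩ h
  exact congrArg Fin.val this

private lemma Can_cardG : Fintype.card G = 720 := by
  have h := Fintype.card_perm (α := Fin 6)
  rw [Fintype.card_fin] at h
  have h6 : Nat.factorial 6 = 720 := by norm_num [Nat.factorial]
  exact h.trans h6

private lemma Can_fib (c : G) (hc : c ∈ Finset.univ.image can) :
    (Finset.univ.filter fun x : G => can x = c).card = 6 := by
  obtain ⟨z, -, rfl⟩ := Finset.mem_image.mp hc
  have h : (Finset.univ.filter fun x : G => can x = can z)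
      = Finset.univ.image fun k : Fin 6 => z * rho ^ k.val := by
    ext x
    simp only [Finset.mem_filter, Finset.mem_univ, true_and, Finset.mem_image]
    rw [eq_comm, Can_iff]
    constructor
    · rintro ⟨k, hk, rfl⟩
      exact ⟨⟨k, hk⟩, rfl⟩
    · rintro ⟨k, rfl⟩
      exact ⟨k.val, k.isLt, rfl⟩
  rw [h, Finset.card_image_of_injective, Finset.card_univ, Fintype.card_fin]
  intro a b hab
  have h1 : rho ^ a.val = rho ^ b.val := mul_left_cancel hab
  rw [← Can_r0 a, ← Can_r0 b, h1]

private lemma Can_arith (n : ℕ) (h : 720 = n * 6) : n = 120 := by omega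

private lemma Can_gen {α : Type} [DecidableEq α] (s : Finset α) (f : α → α)
    (h : ∀ c ∈ s.image f, (s.filter fun x => f x = c).card = 6) :
    s.card = (s.image f).card * 6 := by
  have h1 := Finset.card_eq_sum_card_image f s
  rw [Finset.sum_congr rfl h, Finset.sum_const, smul_eq_mul] at h1
  exact h1

private lemma Can_card : (Finset.univ.image can).card = 120 := by
  have h := Can_gen (Finset.univ : Finset G) can Can_fib
  rw [Finset.card_univ, Can_cardG] at h
  exact Can_arith _ h

theorem tCan : S_Can :=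
  ⟨Can_zero, Can_pow, Can_iff, Can_tr, Can_can, Can_line, Can_card, Can_r6, Can_s5, Can_cardG⟩

end Pool.Agent.Lib.MP_e0d433_co.Six
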