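import Pool.Agent.Lib.MP_e0d433_co.Six.Spec

/-!
# MP_e0d433_co, project Six: the main search in parts
-/

set_option autoImplicit false

namespace Pool.Agent.Lib.MP_e0d433_co.Six

/-- part of a search: the states number `a, …, a + b - 1` of the list `L`, with fuel `k` -/
def pt (L : List St) (k a b : ℕ) : Bool := ((L.drop a).take b).all (goS k)

theorem pt_app (L : List St) (k a b c : ℕ) (h1 : pt L k a b = true)
    (h2 : pt L k (a + b) c = true) : pt L k a (b + c) = true := by
  unfold pt at h1 h2 ⊢
  rw [List.take_add, List.all_append, h1, Bool.true_and, List.drop_drop]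
  exact h2

theorem pt_all (L : List St) (k n : ℕ) (hn : Nat.ble L.length n = true)
    (h : pt L k 0 n = true) : L.all (goS k) = true := by
  unfold pt at h
  rw [List.drop_zero, List.take_of_length_le (Nat.le_of_ble_eq_true hn)] at h
  exact h

theorem part_app (a b c : ℕ) (h1 : part a b = true) (h2 : part (a + b) c = true) :
    part a (b + c) = true :=
  pt_app (lev 34 [s0]) 87 a b c h1 h2

end Pool.Agent.Lib.MP_e0d433_co.Six
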