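import Pool.Agent.Lib.MP_e0d433_co.Six.Tab

/-!
# MP_e0d433_co, project Six: computing functions (second part)
-/

set_option autoImplicit false

namespace Pool.Agent.Lib.MP_e0d433_co.Six

/-- state of the main search: `(u, m, A, v, mx, w)` -/
abbrev St := ℕ × ℕ × ℕ × ℕ × ℕ × List ℕ

/-- `go` on a state -/
def goS (n : ℕ) (s : St) : Bool := go n s.1 s.2.1 s.2.2.1 s.2.2.2.1 s.2.2.2.2.1 s.2.2.2.2.2

/-- local check of a state -/
def chkS (s : St) : Bool := Nat.ble s.2.2.2.1 7 || chk s.1 s.2.2.1 s.2.2.2.1 s.2.2.2.2.1 s.2.2.2.2.2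

/-- child of a state for the digit `t` -/
def kid (s : St) (t : ℕ) : List St :=
  if bt s.2.1 (ch TT s.2.2.1 t / 1024) then []
  else [(s.1 + 1, s.2.1 + 2 ^ (ch TT s.2.2.1 t / 1024), ch TT s.2.2.1 t % 1024,
    (if t = 0 then s.2.2.2.1 + 1 else s.2.2.2.1 - 3),
    (if t = 0 then s.2.2.2.2.1 else max s.2.2.2.2.1 s.2.2.2.1), t :: s.2.2.2.2.2)]

/-- children of a state -/
def nxt (s : St) : List St :=
  kid s 0 ++ (if Nat.ble s.2.2.2.1 4 then [] else kid s 1 ++ kid s 2 ++ kid s 3 ++ kid s 4)

/-- the states of the level `n` below the list `L` -/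
def lev : ℕ → List St → List St
  | 0, L => L
  | n + 1, L => lev n (L.flatMap nxt)

/-- the first state: the flag `0` alone -/
def s0 : St := (1, 1, 0, 1, 0, [])

/-- check of the levels `0, …, n-1` below `L` -/
def topc : ℕ → List St → Bool
  | 0, _ => true
  | n + 1, L => L.all chkS && topc n (L.flatMap nxt)

/-- part of the search: the states number `a, …, a + b - 1` of level 34 -/
def part (a b : ℕ) : Bool := (((lev 34 [s0]).drop a).take b).all (goS 87)

/-! ## walks -/

/-- walk from the flag `A` along the digits `l`, with continuation; `true` as soon as a 1-cycle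
of the mask is met -/
def dw : List ℕ → ℕ → ℕ → (ℕ → ℕ → Bool) → Bool
  | [], m, A, k => k m A
  | d :: l, m, A, k =>
    bt m (ch TT A d / 1024) || dw l (m + 2 ^ (ch TT A d / 1024)) (ch TT A d % 1024) k

/-- the same, the 1-cycle of the first flag `h` included -/
def sdw (l : List ℕ) (m h : ℕ) (k : ℕ → ℕ → Bool) : Bool :=
  bt m (cR h / 1024) || dw l (m + 2 ^ (cR h / 1024)) h k

/-- extensions with the table `T`: fuel `n`, mask `m`, flag `A`, weight `-v` -/
def ext (T : ℕ) : ℕ → ℕ → ℕ → ℕ → Bool
  | 0, _, _, _ => false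
  | n + 1, m, A, v =>
    (bt m (ch T A 0 / 1024) ||
      (Nat.ble 2 v && ext T n (m + 2 ^ (ch T A 0 / 1024)) (ch T A 0 % 1024) (v - 1))) &&
    (bt m (ch T A 1 / 1024) || ext T n (m + 2 ^ (ch T A 1 / 1024)) (ch T A 1 % 1024) (v + 3)) &&
    (bt m (ch T A 2 / 1024) || ext T n (m + 2 ^ (ch T A 2 / 1024)) (ch T A 2 % 1024) (v + 3)) &&
    (bt m (ch T A 3 / 1024) || ext T n (m + 2 ^ (ch T A 3 / 1024)) (ch T A 3 % 1024) (v + 3)) &&
    (bt m (ch T A 4 / 1024) || ext T n (m + 2 ^ (ch T A 4 / 1024)) (ch T A 4 % 1024) (v + 3))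

/-- number of the 1-cycles of the mask on the line of `y` (`n` flags from `y`, whose 1-cycle is `c`) -/
def lin : ℕ → ℕ → ℕ → ℕ → ℕ
  | 0, _, _, _ => 0
  | n + 1, m, y, c => (if bt m c then 1 else 0) + lin n m (ch TT y 0 % 1024) (ch TT y 0 / 1024)

/-- `n` flags `y, y rho, …` have at least two 1-cycles of the mask on their lines -/
def holc : ℕ → ℕ → ℕ → Bool
  | 0, _, _ => true
  | n + 1, m, y => Nat.ble 2 (lin 5 m y (cR y / 1024)) && holc n m (cR y % 1024)

/-- there is a hole -/
def zc (m : ℕ) : Bool := (List.range 120).any fun z => !bt m z && holc 6 m z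

/-- check of a configuration, given by its mask and the pairs (first flag, last flag) -/
def cfgc (m : ℕ) (L : List (ℕ × ℕ)) : Bool :=
  (L.all fun p => ext TT 121 m p.2 0 && ext TI 121 m p.1 0) && zc m

/-- configuration of one word of score 8 -/
def c8 (a : List ℕ) : Bool := dw a 1 0 fun m la =>
  cfgc m [(0, la)] && W4.all fun b => Nat.ble 119 (a.length + b.length) ||
    (List.range 720).all fun h => sdw b m h fun _ _ => false

/-- words of score 7 and 5 -/
def c75 (a : List ℕ) : Bool := dw a 1 0 fun m _ =>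
  W5.all fun b => Nat.ble 119 (a.length + b.length) ||
    (List.range 720).all fun h => sdw b m h fun _ _ => false

/-- words of score 6, 5, 5 -/
def c655 (a : List ℕ) : Bool := dw a 1 0 fun m _ =>
  W5.all fun b => (List.range 720).all fun h => sdw b m h fun m' _ =>
    W5.all fun c => Nat.ble 118 (a.length + b.length + c.length) ||
      (List.range 720).all fun g => sdw c m' g fun _ _ => false

/-- words of score 6, 6 (and 4) -/
def c66 (a b : List ℕ) : Bool := Nat.ble 119 (a.length + b.length) || dw a 1 0 fun m la =>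
  (List.range 720).all fun h => sdw b m h fun m' lb =>
    cfgc m' [(0, la), (h, lb)] &&
      W4.all fun c => Nat.ble 118 (a.length + b.length + c.length) ||
        (List.range 720).all fun g => sdw c m' g fun m'' lc => cfgc m'' [(0, la), (h, lb), (g, lc)]

end Pool.Agent.Lib.MP_e0d433_co.Six
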