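import Pool.Agent.Lib.MP_e0d433_co.Six.Spec

/-!
# MP_e0d433_co, project Six: the cycle lemma
-/

set_option autoImplicit false

namespace Pool.Agent.Lib.MP_e0d433_co.Six

theorem tCyl : S_Cyl := by
  intro l hl
  have hL : 0 < l.length := by
    rcases Nat.eq_zero_or_pos l.length with h | h
    · rw [List.length_eq_zero_iff] at h
      subst h
      simp at hl
    · exact h
  obtain ⟨n, hn, hmin⟩ := Finset.exists_min_image (Finset.range l.length)
    (fun k => (l.take k).sum * ((l.length : ℤ) + 1) - k) ⟨0, Finset.mem_range.2 hL⟩
  rw [Finset.mem_range] at hn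
  have hge : ∀ k < l.length, (l.take n).sum ≤ (l.take k).sum := by
    intro k hk
    have h := hmin k (Finset.mem_range.2 hk)
    by_contra hc
    push Not at hc
    have h2 : (l.take k).sum + 1 ≤ (l.take n).sum := hc
    have h3 : ((l.take k).sum + 1) * ((l.length : ℤ) + 1) ≤
        (l.take n).sum * ((l.length : ℤ) + 1) :=
      mul_le_mul_of_nonneg_right h2 (by positivity)
    have h4 : (n : ℤ) < l.length := by exact_mod_cast hn
    nlinarith
  have hgt : ∀ k < l.length, n < k → (l.take n).sum + 1 ≤ (l.take k).sum := by
    intro k hk hnk
    have h := hmin k (Finset.mem_range.2 hk)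
    by_contra hc
    push Not at hc
    have h2 : (l.take k).sum ≤ (l.take n).sum := by omega
    have h3 : (l.take k).sum * ((l.length : ℤ) + 1) ≤ (l.take n).sum * ((l.length : ℤ) + 1) :=
      mul_le_mul_of_nonneg_right h2 (by positivity)
    have h4 : (n : ℤ) < k := by exact_mod_cast hnk
    linarith
  have h0 : (l.take n).sum ≤ 0 := by
    have := hge 0 hL
    simpa using this
  refine ⟨n, ?_⟩
  intro k hk hkl
  rw [List.rotate_eq_drop_append_take hn.le, List.take_append, List.sum_append, List.length_drop]
  have hadd : ∀ j, (l.take (n + j)).sum = (l.take n).sum + ((l.drop n).take j).sum := by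
    intro j
    rw [List.take_add, List.sum_append]
  rcases Nat.lt_or_ge (l.length - n) k with h | h
  · have h1 : (l.drop n).take k = l.drop n := List.take_of_length_le (by
      rw [List.length_drop]
      omega)
    have h2 : (l.take n).sum + (l.drop n).sum = l.sum := by
      rw [← List.sum_append, List.take_append_drop]
    have h3 : (l.take n).take (k - (l.length - n)) = l.take (k - (l.length - n)) := by
      rw [List.take_take, min_eq_left (by omega)]
    have h4 := hge (k - (l.length - n)) (by omega)
    rw [h1, h3]
    linarith
  · have h1 : k - (l.length - n) = 0 := by omega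
    rw [h1, List.take_zero, List.sum_nil, add_zero]
    have h2 := hadd k
    rcases Nat.lt_or_ge (n + k) l.length with h3 | h3
    · have h4 := hgt (n + k) h3 (by omega)
      linarith
    · have h4 : l.take (n + k) = l := List.take_of_length_le h3
      rw [h4] at h2
      linarith

end Pool.Agent.Lib.MP_e0d433_co.Six
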