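import Pool.Agent.Lib.MP_e0d433_co.Defs

/-!
# MP_e0d433_co, project Six (owner helper71): `L(6) = 872`.  Definitions

The mathematics is note 3945.  Flags are permutations of `Fin 6`; multiplication on the right acts on
the positions.
-/

set_option autoImplicit false

namespace Pool.Agent.Lib.MP_e0d433_co.Six

open scoped BigOperators

noncomputable section

/-! ## 1. flags, lines, 1-cycles, steps -/

/-- flags: the word `x 0, …, x 5` -/
abbrev G := Equiv.Perm (Fin 6)

/-- rotation of all six positions: `x * rho` is the word `x 1, …, x 5, x 0` -/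
def rho : G := ⟨![1, 2, 3, 4, 5, 0], ![5, 0, 1, 2, 3, 4], by decide, by decide⟩

/-- rotation of the first five positions: `x * sig` is `x 1, x 2, x 3, x 4, x 0, x 5` -/
def sig : G := ⟨![1, 2, 3, 4, 0, 5], ![4, 0, 1, 2, 3, 5], by decide, by decide⟩

/-- the four jumps -/
def jp : Fin 4 → G
  | 0 => ⟨![2, 3, 4, 1, 0, 5], ![4, 3, 0, 1, 2, 5], by decide, by decide⟩
  | 1 => ⟨![2, 3, 4, 1, 5, 0], ![5, 3, 0, 1, 2, 4], by decide, by decide⟩
  | 2 => ⟨![2, 3, 4, 5, 1, 0], ![5, 4, 0, 1, 2, 3], by decide, by decide⟩
  | 3 => ⟨![2, 3, 4, 0, 1, 5], ![3, 4, 0, 1, 2, 5], by decide, by decide⟩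

/-- the representative of the 1-cycle `{x rho^k}` whose first letter is `0` -/
def can (x : G) : G := x * rho ^ (x.symm 0).val

/-- steps of a piece: `none` = next flag on the line, `some t` = jump `t` -/
abbrev Step := Option (Fin 4)

/-- the step as an element of `G` -/
def stp : Step → G
  | none => sig
  | some t => jp t

/-- weight of a step -/
def wt : Step → ℤ
  | none => 1
  | some _ => -3

/-- weight of a word -/
def wsum (l : List Step) : ℤ := (l.map wt).sum

/-- score of a piece with the word `l` (number of flags minus 4 for every visit) -/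
def score (l : List Step) : ℤ := wsum l - 3

/-- the flags of the piece with first flag `y` -/
def fl (y : G) : List Step → List G
  | [] => [y]
  | s :: l => y :: fl (y * stp s) l

/-- the last flag -/
def lastF (y : G) : List Step → G
  | [] => y
  | s :: l => lastF (y * stp s) l

/-- the 1-cycles of the flags of a piece are different -/
def Ok (y : G) (l : List Step) : Prop := ((fl y l).map can).Nodup

/-- the set of 1-cycles of a piece -/
def cs (y : G) (l : List Step) : Finset G := ((fl y l).map can).toFinset

/-- the jumps happen at running scores in `[1, s-1]`, and `s` is reached for the first time at the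
end; `v` is the running score (it starts with `-3`) -/
def FH (s : ℤ) : ℤ → List Step → Prop
  | v, [] => v = s
  | v, none :: l => v < s ∧ FH s (v + 1) l
  | v, some _ :: l => 1 ≤ v ∧ v < s ∧ FH s (v - 3) l

/-- all jumps happen at a running score `≥ 1` -/
def Pos : ℤ → List Step → Prop
  | _, [] => True
  | v, none :: l => Pos (v + 1) l
  | v, some _ :: l => 1 ≤ v ∧ Pos (v - 3) l

/-- number of 1-cycles of the line of `y` which lie in `T` -/
def lineIn (T : Finset G) (y : G) : ℕ := ((Finset.range 5).filter fun i => can (y * sig ^ i) ∈ T).card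

/-- `z` is outside `T`, and each of its six lines has at least two 1-cycles in `T` -/
def Hole (T : Finset G) (z : G) : Prop := can z ∉ T ∧ ∀ k : ℕ, 2 ≤ lineIn T (z * rho ^ k)

/-- every nonempty continuation of a piece with last flag `x` outside `T` has negative weight -/
def NoExtF (T : Finset G) (x : G) : Prop :=
  ∀ (s : Step) (l : List Step), Ok (x * stp s) l → Disjoint (cs (x * stp s) l) T → wsum (s :: l) < 0

/-- every nonempty piece outside `T` which leads to the flag `x` has negative weight -/
def NoExtB (T : Finset G) (x : G) : Prop :=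
  ∀ (y : G) (l : List Step) (s : Step), Ok y l → Disjoint (cs y l) T → lastF y l * stp s = x →
    wsum (l ++ [s]) < 0

/-- union of the 1-cycles of a list of pieces -/
def csl (ps : List (G × List Step)) : Finset G :=
  ((ps.flatMap fun P => fl P.1 P.2).map can).toFinset

/-- the pieces of the list are correct and pairwise disjoint -/
def Okl (ps : List (G × List Step)) : Prop := ((ps.flatMap fun P => fl P.1 P.2).map can).Nodup

/-- a configuration which cannot be extended and has a hole -/
def Cfg (ps : List (G × List Step)) : Prop :=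
  (∀ P ∈ ps, NoExtF (csl ps) (lastF P.1 P.2) ∧ NoExtB (csl ps) P.1) ∧ ∃ z, Hole (csl ps) z

/-! ## 2. paths (visits) -/

/-- a visit: cost of the jump which leads to it, first flag, number of further flags on the line -/
structure Vis where
  e : ℕ
  y : G
  k : ℕ

/-- last flag of a visit -/
def Vis.last (v : Vis) : G := v.y * sig ^ v.k

/-- flags of a visit -/
def Vis.fl (v : Vis) : List G := (List.range (v.k + 1)).map fun i => v.y * sig ^ i

/-- link between consecutive visits -/
def VLink (v w : Vis) : Prop :=
  w.e = 2 → (∃ t, w.y = v.last * jp t) ∨ w.y = v.last * rho ^ 2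

/-- a path -/
def VPath (vs : List Vis) : Prop := (∀ v ∈ vs, 2 ≤ v.e ∧ v.k ≤ 4) ∧ vs.IsChain VLink

/-- flags of a path -/
def vfl (vs : List Vis) : List G := vs.flatMap Vis.fl

/-- 1-cycles of a path -/
def vcs (vs : List Vis) : Finset G := ((vfl vs).map can).toFinset

/-- cost of a path, the cost of the jump to the first visit included -/
def vcost (vs : List Vis) : ℕ := (vs.map fun v => v.k + v.e).sum

/-- a closed path: the last visit is linked to the first one -/
def CPath (vs : List Vis) : Prop :=
  VPath vs ∧ ∀ v ∈ vs.getLast?, ∀ w ∈ vs.head?, VLink v w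

/-! ## 3. words and tours -/

/-- the window of `w` at the time `t` reads the flag `x` -/
def IsAt (w : List (Fin 6)) (t : ℕ) (x : G) : Prop := ∀ i : Fin 6, w[t + i.val]? = some (x i)

/-- a tour of total cost at most `146` -/
structure Tour where
  N : Equiv.Perm G
  tr : ∀ x y : G, ∃ k : ℕ, (N ^ k) x = y
  cl : G
  e : G → ℕ
  ecl : e cl = 0
  sum : ∑ c, e c ≤ 146
  h0 : ∀ c, c ≠ cl → e c = 0 → N (c * rho⁻¹) = c
  h1 : ∀ c, c ≠ cl → e c = 1 → N (c * rho⁻¹) = c * sig
  h2 : ∀ c, c ≠ cl → e c = 2 → (∃ t, N (c * rho⁻¹) = c * jp t) ∨ N (c * rho⁻¹) = c * rho ^ 2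

/-- `Out c = N (c rho⁻¹)` -/
def Tour.Out (T : Tour) : Equiv.Perm G := (Equiv.mulRight rho⁻¹).trans T.N

open Classical in
/-- orbit of `c` under `Out` -/
def Tour.orb (T : Tour) (c : G) : Finset G :=
  Finset.univ.filter fun x => ∃ k : ℕ, (T.Out ^ k) c = x

/-- value of a set of flags -/
def Tour.val (T : Tour) (O : Finset G) : ℤ :=
  5 * ((O.image can).card : ℤ) - 5 - 4 * ((∑ c ∈ O, T.e c : ℕ) : ℤ)

/-- sum of the values of all orbits -/
def Tour.tot (T : Tour) : ℤ := ∑ O ∈ Finset.univ.image T.orb, T.val O

end

end Pool.Agent.Lib.MP_e0d433_co.Six
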