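import Pool.Agent.Lib.MP_e0d433_co.Six.Spec

/-!
# MP_e0d433_co, project Six: module FHt (first hitting)
-/

set_option autoImplicit false

namespace Pool.Agent.Lib.MP_e0d433_co.Six

private lemma FHt_wsum_cons (s : Step) (l : List Step) : wsum (s :: l) = wt s + wsum l := by
  simp [wsum]

private lemma FHt_wsum_append (a b : List Step) : wsum (a ++ b) = wsum a + wsum b := by
  simp [wsum]

private lemma FHt_hit (s : ℤ) : ∀ (l : List Step) (v : ℤ), v < s → s ≤ v + wsum l → Pos v l →
    ∃ l1 l2, l = l1 ++ l2 ∧ FH s v l1 := by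
  intro l
  induction l with
  | nil =>
    intro v hv hs _
    simp [wsum] at hs
    omega
  | cons x l ih =>
    intro v hv hs hp
    rcases x with _ | t
    · rw [FHt_wsum_cons] at hs
      have hw : wt none = 1 := rfl
      rw [hw] at hs
      have hp' : Pos (v + 1) l := hp
      by_cases h1 : v + 1 = s
      · refine ⟨[none], l, rfl, ?_⟩
        exact ⟨hv, h1⟩
      · obtain ⟨l1, l2, h, hf⟩ := ih (v + 1) (by omega) (by omega) hp'
        refine ⟨none :: l1, l2, by rw [h]; rfl, ?_⟩
        exact ⟨hv, hf⟩
    · rw [FHt_wsum_cons] at hs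
      have hw : wt (some t) = -3 := rfl
      rw [hw] at hs
      have hp' : 1 ≤ v ∧ Pos (v - 3) l := hp
      obtain ⟨l1, l2, h, hf⟩ := ih (v - 3) (by omega) (by omega) hp'.2
      refine ⟨some t :: l1, l2, by rw [h]; rfl, ?_⟩
      exact ⟨hp'.1, hv, hf⟩

private lemma FHt_dec : ∀ (l : List Step) (v : ℤ), Pos v l ∨
    ∃ (p : List Step) (t : Fin 4) (q : List Step), l = p ++ some t :: q ∧ v + wsum p ≤ 0 := by
  intro l
  induction l with
  | nil =>
    intro v
    exact Or.inl trivial
  | cons x l ih =>
    intro v
    rcases x with _ | t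
    · rcases ih (v + 1) with h | ⟨p, t, q, h, hp⟩
      · exact Or.inl h
      · refine Or.inr ⟨none :: p, t, q, by rw [h]; rfl, ?_⟩
        rw [FHt_wsum_cons]
        have hw : wt none = 1 := rfl
        rw [hw]
        omega
    · by_cases hv : 1 ≤ v
      · rcases ih (v - 3) with h | ⟨p, t', q, h, hp⟩
        · exact Or.inl ⟨hv, h⟩
        · refine Or.inr ⟨some t :: p, t', q, by rw [h]; rfl, ?_⟩
          rw [FHt_wsum_cons]
          have hw : wt (some t) = -3 := rfl
          rw [hw]
          omega
      · refine Or.inr ⟨[], t, l, rfl, ?_⟩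
        simp [wsum]
        omega

private lemma FHt_aux (s : ℤ) (hs1 : 1 ≤ s) : ∀ (n : ℕ) (st : List Step), st.length = n →
    s ≤ score st → ∃ st1 st2 st3, st = st1 ++ st2 ++ st3 ∧ FH s (-3) st2 := by
  intro n
  induction n using Nat.strong_induction_on with
  | _ n ih =>
    intro st hn hs
    rcases FHt_dec st (-3) with h | ⟨p, t, q, h, hp⟩
    · have hs' : s ≤ -3 + wsum st := by
        have : score st = wsum st - 3 := rfl
        omega
      obtain ⟨l1, l2, hl, hf⟩ := FHt_hit s st (-3) (by omega) hs' h
      exact ⟨[], l1, l2, by rw [hl]; rfl, hf⟩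
    · have hlen : q.length < n := by
        rw [← hn, h]
        simp
        omega
      have hsq : s ≤ score q := by
        have h1 : score st = wsum st - 3 := rfl
        have h2 : score q = wsum q - 3 := rfl
        have hw : wt (some t) = -3 := rfl
        have h3 : wsum st = wsum p + (wt (some t) + wsum q) := by
          rw [h, FHt_wsum_append, FHt_wsum_cons]
        rw [hw] at h3
        omega
      obtain ⟨a, b, c, hq, hf⟩ := ih q.length hlen q rfl hsq
      refine ⟨p ++ some t :: a, b, c, ?_, hf⟩
      rw [h, hq]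
      simp [List.append_assoc]

/-- **FHt** (first hitting). -/
theorem tFHt : S_FHt := by
  intro s st h1 h2
  exact FHt_aux s h1 st.length st rfl h2

end Pool.Agent.Lib.MP_e0d433_co.Six
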