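import Pool.Agent.Lib.MP_e0d433_co.Six.Defs
import Pool.Agent.Lib.MP_e0d433_co.Six.Comp

/-!
# MP_e0d433_co, project Six (owner helper71): `L(6) = 872`.  Statements

Every `S_X` is a statement with its proof in the docstring; it is to be proved as
`theorem tX (h… : the statements listed as Available, in that order) : S_X` in the file `X.lean` of
this directory.  The mathematics is note 3945.

PLAN.  `Wrd`: a superpermutation of length `≤ 871` gives a `Tour` (a cyclic order `N` of the 720
flags with costs).  `Out c = N (c rho⁻¹)`.  `Cn1`, `Cn2`: a connectivity argument gives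
`∑ val(orbit) ≥ 11`, and `≥ 6 + 5 i` if two orbits have `i` common 1-cycles.  `V0`: the orbit of `cl` has value
`≤ 11`, with equality only if there is a hole; `V1`: the other orbits have value `≤ 0`, with equality
only for trivial orbits and full lines.  `End`: contradiction.  `V0`, `V1` follow from statements on
paths (`P0`, `P1`), these from statements on pieces (`Max`, `MaxE`), these from a computer search
(`QL`, `QC`, `D8`, `D75`, `D655`, `D66`).
-/

set_option autoImplicit false

namespace Pool.Agent.Lib.MP_e0d433_co.Six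

open scoped BigOperators

noncomputable section

/-! ## 0. further definitions -/

/-- number of a flag (lexicographic rank) -/
def idx (x : G) : ℕ := rk (x 0) (x 1) (x 2) (x 3) (x 4)

/-- digit of a step -/
def dg : Step → ℕ
  | none => 0
  | some t => t.val + 1

/-- the word belongs to the list -/
def InW (L : List (List ℕ)) (l : List Step) : Prop := l.map dg ∈ L

/-- the bits of `m` are the 1-cycles of `T` -/
def Msk (m : ℕ) (T : Finset G) : Prop := ∀ x : G, bt m (idx (can x)) = true ↔ can x ∈ T

/-- the flags after `x` along `l` have different 1-cycles, not in `T` -/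
def Okc (T : Finset G) (x : G) (l : List Step) : Prop :=
  (((fl x l).tail).map can).Nodup ∧ ∀ y ∈ (fl x l).tail, can y ∉ T

/-- `Pos` with shifted score -/
def PosN : ℕ → List Step → Prop
  | _, [] => True
  | v, none :: l => PosN (v + 1) l
  | v, some _ :: l => 5 ≤ v ∧ PosN (v - 3) l

/-- final value -/
def vN : ℕ → List Step → ℕ
  | v, [] => v
  | v, none :: l => vN (v + 1) l
  | v, some _ :: l => vN (v - 3) l

/-- maximum of the values before the jumps -/
def mxN : ℕ → ℕ → List Step → ℕ
  | _, mx, [] => mx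
  | v, mx, none :: l => mxN (v + 1) mx l
  | v, mx, some _ :: l => mxN (v - 3) (max mx v) l

/-- left translate of a list of pieces -/
def tr (g : G) (ps : List (G × List Step)) : List (G × List Step) := ps.map fun P => (g * P.1, P.2)

/-! ## A. flags and tables -/

/-- **Can** (1-cycles and lines).  Proof.  `(can x) 0 = x (rho ^ k 0) = x k = 0` for
`k = (x.symm 0).val` (`rho ^ k 0 = k` for `k : Fin 6`, by `decide`); `rho ^ 6 = 1`, `sig ^ 5 = 1` by
`decide`.  `(x * rho).symm 0 = rho⁻¹ (x.symm 0)`; so `can (x * rho) = can x` (six cases of `x.symm 0`, or: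
`can x` is the only `x * rho ^ k`, `k < 6`, with first letter `0`).  Hence `can (x * rho ^ k) = can x`;
if `can x = can y` then `y = x * rho ^ k` with `k` a suitable exponent.  Left translation: by the
previous characterisation.  Lines: if `can (y * sig ^ i) = can (y * sig ^ j)` then
`sig ^ j = sig ^ i * rho ^ k` for some `k < 6` (cancel `y`); false by `decide` for `i ≠ j`, `i, j < 5`.
Number of 1-cycles: the fibres of `can` have exactly six elements `x * rho ^ k`, `k < 6`
(`Finset.card_eq_sum_card_image` or `Finset.card_eq_of_equiv`), and `card G = 720`. -/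
def S_Can : Prop :=
  (∀ x : G, (can x) 0 = 0) ∧ (∀ (x : G) (k : ℕ), can (x * rho ^ k) = can x) ∧
  (∀ x y : G, can x = can y ↔ ∃ k : ℕ, k < 6 ∧ y = x * rho ^ k) ∧
  (∀ g x y : G, can (g * x) = can (g * y) ↔ can x = can y) ∧
  (∀ x : G, can (can x) = can x) ∧
  (∀ (y : G) (i j : ℕ), i < 5 → j < 5 → can (y * sig ^ i) = can (y * sig ^ j) → i = j) ∧
  (Finset.univ.image can).card = 120 ∧ rho ^ 6 = 1 ∧ sig ^ 5 = 1 ∧ Fintype.card G = 720

/-- **Idx** (numbering).  Proof.  A flag is given by its letters `a, …, f`, six different elements of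
`Fin 6`; first prove by `decide +kernel` statements of the form: for all `a : Fin 6`, for all `b ≠ a`,
for all `c ≠ a, b`, … (nested, so that only 720 cases have to be evaluated) the assertion for
`rk a b c d e`.  Injectivity: the table `TL` gives the letters back
(`(TL >>> (18 * rk a b c d e)) % 262144 = a + 8 b + 64 c + 512 d + 4096 e + 32768 f`).
`idx (can x) < 120` because `(can x) 0 = 0`.  Surjectivity onto `{0, …, 719}`: an injective map from a
set with 720 elements to `Finset.range 720` (`Finset.surj_on_of_inj_on_of_card_le`, or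
`Function.Injective.bijective_of_nat_card_le`).  The last statement: `idx (can x)` for a flag with
first letter `0`: `can x = x` because `x.symm 0 = 0`; the flags with number `< 120` have first letter
`0`. -/
def S_Idx : Prop :=
  (∀ x : G, idx x < 720) ∧ Function.Injective idx ∧ idx 1 = 0 ∧ (∀ x : G, idx (can x) < 120) ∧
  (∀ i < 720, ∃ x : G, idx x = i) ∧ (∀ z < 120, ∃ x : G, idx x = z ∧ can x = x)

/-- **Tbl** (the tables).  Available: `S_Can`.  Proof.  As for `Idx`: the assertions for all six
different letters by `decide +kernel` with nested quantifiers (one statement for every step and every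
table; `idx (x * sig) = rk (x 1) (x 2) (x 3) (x 4) (x 0)` etc. by unfolding; the number of `can x` is
`rk` of the rotated letters, according to the position of the letter `0`: six cases). -/
def S_Tbl : Prop :=
  (∀ (x : G) (s : Step), ch TT (idx x) (dg s) = idx (x * stp s) + 1024 * idx (can (x * stp s))) ∧
  (∀ (x : G) (s : Step),
    ch TI (idx x) (dg s) = idx (x * (stp s)⁻¹) + 1024 * idx (can (x * (stp s)⁻¹))) ∧
  (∀ x : G, cR (idx x) = idx (x * rho) + 1024 * idx (can x))

/-- **Msk** (masks).  Available: `S_Can`, `S_Idx`.  Proof.  `bt m b = m.testBit b` (`Nat.testBit`: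
`1 &&& (m >>> b) ≠ 0`; `Nat.testBit_eq_decide_div_mod_eq` or similar).  If bit `b` of `m` is `0` then
`m + 2 ^ b = m ||| 2 ^ b` has the bits of `m` and the bit `b` (`Nat.testBit_two_pow_add_eq`,
`Nat.testBit_two_pow_add_gt`, or `Nat.add_eq_or` …).  `idx` is injective. -/
def S_Msk : Prop :=
  Msk 0 ∅ ∧ Msk 1 {can 1} ∧
  ∀ (m : ℕ) (T : Finset G) (x : G), Msk m T → can x ∉ T →
    Msk (m + 2 ^ idx (can x)) (insert (can x) T)

/-! ## B. soundness of the search -/

/-- **Go** (the search visits all continuations).  Available: `S_Can`, `S_Idx`, `S_Tbl`, `S_Msk`.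
Proof.  Induction on `l`, all other variables generalised.  `go 0 = false`, so `n = n' + 1`; the
equation is a conjunction of Booleans.  `l = []`: the first conjunct.  `l = none :: l'`: the child for
the digit `0`; its 1-cycle is not in `T`, so the bit is not set (`Msk`), so `go n' … = true` with the
flag `x * sig`, mask `m + 2 ^ idx (can (x * sig))` (`S_Tbl`: quotient and remainder by `1024`,
`idx < 720 < 1024`), which is the mask of `insert (can (x * sig)) T`; `Okc` for the tail.
`l = some t :: l'`: `5 ≤ v`, so `Nat.ble v 4 = false`, and the child for the digit `t + 1`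
(`fin_cases t`). -/
def S_Go : Prop :=
  ∀ (l : List Step) (n u m v mx : ℕ) (x : G) (T : Finset G) (w : List ℕ),
    go n u m (idx x) v mx w = true → Msk m T → Okc T x l → PosN v l →
      (Nat.ble (vN v l) 7 ||
        chk (u + l.length) (idx (lastF x l)) (vN v l) (mxN v mx l) ((l.map dg).reverse ++ w)) = true

/-- **Lev** (splitting of the search).  Proof.  `goS (n + 1) s = (chkS s && (nxt s).all (goS n))` by
unfolding (`List.all_append`; `if`s on `Bool`).  Induction on `n`: if `topc n L = true` and
`(lev n L).all (goS k) = true` then `L.all (goS (n + k)) = true`.  The parts cover the level. -/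
def S_Lev : Prop :=
  ∀ (k n : ℕ) (L : List St), topc n L = true → (lev n L).all (goS k) = true →
    L.all (goS (n + k)) = true

/-- **CmpA** (computation).  Available: `S_Lev`.  Proof: `topc 34 [s0] = true` by `decide +kernel`
(1 s) and `part a b = true` for `(a, b)` covering `0, …, 372` (373 states; together about 100 s; split into
private theorems of at most about 30 s each), then `S_Lev` with `n = 34`, `k = 87`. -/
def S_CmpA : Prop := goS 121 s0 = true

/-- **CmpB** (computation).  Proof: `decide +kernel` (about 10 s, 2 s, 15 s). -/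
def S_CmpB : Prop :=
  (W8.all c8) = true ∧ (W7.all c75) = true ∧ ((W6.take 1).all c655) = true

/-- **CmpC** (computation).  Proof: `decide +kernel`; the first word with all others takes 55 s (split
`W6` into parts of 16 words), all others with the first word 11 s, the rest a few seconds. -/
def S_CmpC : Prop := ∀ a ∈ W6, ∀ b ∈ W6, c66 a b = true

/-- **Run** (relation between the integer and the natural number versions).  Proof.  Induction on `l`
with general `v`; `v' = v - 4`.  `FH s v l` implies `Pos v l`, final value `s`, and that the values before all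
jumps are `< s`. -/
def S_Run : Prop :=
  (∀ (v : ℕ) (l : List Step), Pos ((v : ℤ) - 4) l → PosN v l ∧ (vN v l : ℤ) = v + wsum l) ∧
  (∀ (s v : ℤ) (l : List Step), FH s v l → Pos v l ∧ v + wsum l = s) ∧
  (∀ (s v mx : ℕ) (l : List Step), FH ((s : ℤ) - 4) ((v : ℤ) - 4) l → mx < s → mxN v mx l < s)

/-- **Tr** (left translation).  Available: `S_Can`.  Proof.  `fl (g * y) l = (fl y l).map (g * ·)`,
`lastF (g * y) l = g * lastF y l` (induction, `mul_assoc`).  `can (g x) = can (g x') ↔ can x = can x'`: a
list has different 1-cycles iff the translated list has; membership of `can (g * x)` in the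
translated set is membership of `can x` in the set.  For `NoExtF`, `NoExtB`, `Hole`: translate the
data by `g⁻¹`. -/
def S_Tr : Prop :=
  (∀ (g y : G) (l : List Step), fl (g * y) l = (fl y l).map (g * ·)) ∧
  (∀ (g y : G) (l : List Step), lastF (g * y) l = g * lastF y l) ∧
  (∀ (g y : G) (l : List Step), Ok (g * y) l ↔ Ok y l) ∧
  (∀ (g y y' : G) (l l' : List Step),
    Disjoint (cs (g * y) l) (cs (g * y') l') ↔ Disjoint (cs y l) (cs y' l')) ∧
  (∀ (g : G) (ps : List (G × List Step)), Okl (tr g ps) ↔ Okl ps) ∧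
  (∀ (g : G) (ps : List (G × List Step)), Cfg (tr g ps) → Cfg ps)

/-- **QL** (the lists of first hitting pieces).  Available: `S_Idx`, `S_Msk`, `S_Go`, `S_CmpA`,
`S_Run`, `S_Tr`.  Proof.  By `S_Tr` (`y = y * 1`) we may take `y = 1`, `idx 1 = 0`.  `S_Go` for `S_CmpA`:
`n = 121`, `u = 1`, `m = 1`, `v = 1`, `mx = 0`, `w = []`, `T = {can 1}`; `Ok 1 st` gives `Okc {can 1} 1 st`.
By `S_Run` the final value is `vN 1 st = s + 4` and the maximum of the values before the jumps is
smaller, so `chk` gives `fhc (1 + st.length) (s + 4) (…)`, i.e. the assertion; `leq` and `mem` decide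
equality and membership; the reversed word is reversed again.  For `s = 9`: `Nat.ble 13 12 = false`. -/
def S_QL : Prop :=
  ∀ (y : G) (st : List Step), Ok y st →
    (¬ FH 9 (-3) st) ∧ (FH 8 (-3) st → InW W8 st) ∧
    (FH 7 (-3) st → 82 ≤ st.length ∧ (st.length ≤ 86 → InW W7 st)) ∧
    (FH 6 (-3) st → 45 ≤ st.length ∧ (st.length ≤ 73 → InW W6 st)) ∧
    (FH 5 (-3) st → 32 ≤ st.length ∧ (st.length ≤ 40 → InW W5 st)) ∧
    (FH 4 (-3) st → 19 ≤ st.length ∧ (st.length ≤ 27 → InW W4 st))

/-- **QC** (no closing).  Available: `S_Idx`, `S_Tbl`, `S_Msk`, `S_Go`, `S_CmpA`, `S_Run`, `S_Tr`.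
Proof.  As for `QL`: at the end of `st` the value `v = score + 4` is `≥ 9`, so `nocl` holds for the last flag:
no jump target has the number `0 = idx 1`. -/
def S_QC : Prop :=
  ∀ (y : G) (st : List Step), Ok y st → Pos (-3) st → 5 ≤ score st → ∀ t, lastF y st * jp t ≠ y

/-- **Dw** (walks).  Available: `S_Can`, `S_Idx`, `S_Tbl`, `S_Msk`.  Proof.  Induction on `l` as in `Go`. -/
def S_Dw : Prop :=
  (∀ (l : List Step) (m : ℕ) (x : G) (T : Finset G) (k : ℕ → ℕ → Bool),
    dw (l.map dg) m (idx x) k = true → Msk m T → Okc T x l →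
      ∃ m', Msk m' (T ∪ (((fl x l).tail).map can).toFinset) ∧ k m' (idx (lastF x l)) = true) ∧
  (∀ (l : List Step) (m : ℕ) (x : G) (T : Finset G) (k : ℕ → ℕ → Bool),
    sdw (l.map dg) m (idx x) k = true → Msk m T → Ok x l → Disjoint (cs x l) T →
      ∃ m', Msk m' (T ∪ cs x l) ∧ k m' (idx (lastF x l)) = true)

/-- **Ext** (extensions).  Available: `S_Can`, `S_Idx`, `S_Tbl`, `S_Msk`.  Proof.  Forwards: for all
`n, m, v, x, T`: if `ext TT n m (idx x) v = true`, `Msk m T`, then for every `s, l` with
`Okc T x (s :: l)` one has `wsum (s :: l) < v`; induction on `l` (general `n, m, v, x, T, s`): the child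
for `s` is not in the mask; for `s = none`: `2 ≤ v` and `ext … (v - 1)`, for a jump `ext … (v + 3)`;
if `l = []` then `wsum [s] = 1 < v` resp. `-3 < v`; otherwise the induction hypothesis gives
`wsum l < v - 1` resp. `wsum l < v + 3`.  Backwards: the same for the table `TI`: a piece `(y, l)` followed
by the step `s` which ends at `x` is read backwards (induction on `l` from the right,
`List.reverseRecOn`; the last flag before `x` is `x * (stp s)⁻¹`). -/
def S_Ext : Prop :=
  (∀ (n m : ℕ) (x : G) (T : Finset G), ext TT n m (idx x) 0 = true → Msk m T → NoExtF T x) ∧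
  (∀ (n m : ℕ) (x : G) (T : Finset G), ext TI n m (idx x) 0 = true → Msk m T → NoExtB T x)

/-- **Zc** (holes).  Available: `S_Can`, `S_Idx`, `S_Tbl`, `S_Msk`.  Proof.  `lin n m (idx y) (idx (can y))`
is the number of `i < n` with `can (y * sig ^ i) ∈ T` (induction on `n`, shift of the index).
`holc n m (idx y)`: `2 ≤ lineIn T (y * rho ^ k)` for `k < n`; six values suffice, `rho ^ 6 = 1`.
The number `z < 120` is the number of some `x` with `can x = x` (`S_Idx`). -/
def S_Zc : Prop := ∀ (m : ℕ) (T : Finset G), zc m = true → Msk m T → ∃ z, Hole T z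

/-- **Cfc** (configurations).  Available: `S_Ext`, `S_Zc`.  Proof: unfold. -/
def S_Cfc : Prop :=
  ∀ (m : ℕ) (ps : List (G × List Step)),
    cfgc m (ps.map fun P => (idx P.1, idx (lastF P.1 P.2))) = true → Msk m (csl ps) → Cfg ps

/-- **D8**.  Available: `S_Can`, `S_Idx`, `S_Msk`, `S_Dw`, `S_Cfc`, `S_CmpB`, `S_Tr`.  Proof.  By
translation `y = 1`.  Every digit list in `W8` is `l.map dg`; `c8` and `S_Dw` with `T = {can 1}` give a mask `m`
of `cs 1 a`, then `cfgc` (so `Cfg [(1, a)]`, `csl [(1,a)] = cs 1 a`), and for `b`: if `cs y' b` were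
disjoint from `cs 1 a`, `sdw` would give `false = true`. -/
def S_D8 : Prop :=
  ∀ (y : G) (a : List Step), InW W8 a → Ok y a → Cfg [(y, a)] ∧
    ∀ (y' : G) (b : List Step), InW W4 b → a.length + b.length ≤ 118 → Ok y' b →
      ¬ Disjoint (cs y a) (cs y' b)

/-- **D75**.  Available: `S_Can`, `S_Idx`, `S_Msk`, `S_Dw`, `S_CmpB`, `S_Tr`.  Proof: as `D8`. -/
def S_D75 : Prop :=
  ∀ (y : G) (a : List Step) (y' : G) (b : List Step), InW W7 a → InW W5 b →
    a.length + b.length ≤ 118 → Ok y a → Ok y' b → ¬ Disjoint (cs y a) (cs y' b)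

/-- **D655**.  Available: `S_Can`, `S_Idx`, `S_Msk`, `S_Dw`, `S_CmpB`, `S_Tr`.  Proof: as `D8`; the words
of `W6` with at most 53 digits are in `W6.take 1`, the words of `W5` have at least 32 digits (`decide`). -/
def S_D655 : Prop :=
  ∀ (y : G) (a : List Step) (y' : G) (b : List Step) (y'' : G) (c : List Step),
    InW W6 a → InW W5 b → InW W5 c → a.length + b.length + c.length ≤ 117 →
    Ok y a → Ok y' b → Ok y'' c → Disjoint (cs y a) (cs y' b) → Disjoint (cs y a) (cs y'' c) →
      ¬ Disjoint (cs y' b) (cs y'' c)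

/-- **D66**.  Available: `S_Can`, `S_Idx`, `S_Msk`, `S_Dw`, `S_Cfc`, `S_CmpC`, `S_Tr`.  Proof: as `D8`. -/
def S_D66 : Prop :=
  ∀ (y : G) (a : List Step) (y' : G) (b : List Step), InW W6 a → InW W6 b →
    a.length + b.length ≤ 118 → Ok y a → Ok y' b → Disjoint (cs y a) (cs y' b) →
      Cfg [(y, a), (y', b)] ∧
      ∀ (y'' : G) (c : List Step), InW W4 c → a.length + b.length + c.length ≤ 117 → Ok y'' c →
        Disjoint (cs y a) (cs y'' c) → Disjoint (cs y' b) (cs y'' c) →
          Cfg [(y, a), (y', b), (y'', c)]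

/-! ## C. pieces -/

/-- **FHt** (first hitting).  Proof.  Strong induction on the length of `st`.  If there is a
decomposition `st = p ++ some t :: q` with `score p ≤ 0` (running score at most `0` before a jump), then
`score st = score p + score q`, so `s ≤ score q`; use `q`.  Otherwise all jumps of `st` happen at
running score `≥ 1`.  The running score starts with `-3`, grows by at most one per step, and ends with
a value `≥ s`; let `st2` be the shortest prefix after which it is `s` (`s ≥ 1 > -3`): all values before are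
`< s`.  (Induction on the list with the running score `v < s` as parameter: if `v < s`, `s ≤ v + wsum l` and
`Pos v l` then there is a prefix `l1` of `l` with `FH s v l1`.) -/
def S_FHt : Prop :=
  ∀ (s : ℤ) (st : List Step), 1 ≤ s → s ≤ score st →
    ∃ st1 st2 st3, st = st1 ++ st2 ++ st3 ∧ FH s (-3) st2

/-- **Sub** (subpieces).  Available: `S_Can`.  Proof.  `fl y (a ++ b) = fl y a ++ (fl (lastF y a) b).tail`
(induction on `a`), `fl y (a ++ s :: b) = fl y a ++ fl (lastF y a * stp s) b`,
`lastF y (a ++ b) = lastF (lastF y a) b`, `(fl y a).length = a.length + 1`; all members of `cs` are in the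
image of `can`, which has `120` elements. -/
def S_Sub : Prop :=
  (∀ (y : G) (a b c : List Step), Ok y (a ++ b ++ c) →
    Ok (lastF y a) b ∧ cs (lastF y a) b ⊆ cs y (a ++ b ++ c)) ∧
  (∀ (y : G) (a : List Step) (s : Step) (b : List Step), Ok y (a ++ s :: b) →
    Ok y a ∧ Ok (lastF y a * stp s) b ∧ Disjoint (cs y a) (cs (lastF y a * stp s) b) ∧
      cs y (a ++ s :: b) = cs y a ∪ cs (lastF y a * stp s) b) ∧
  (∀ (y : G) (a : List Step), Ok y a → (cs y a).card = a.length + 1) ∧
  (∀ (y : G) (a : List Step), ∀ z ∈ cs y a, can z = z) ∧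
  (∀ (m : ℕ) (y : Fin m → G) (st : Fin m → List Step), (∀ i, Ok (y i) (st i)) →
    (∀ i j, i ≠ j → Disjoint (cs (y i) (st i)) (cs (y j) (st j))) →
      ∑ i, ((st i).length + 1) ≤ 120)

/-- **Siz** (sizes of pieces).  Available: `S_QL`, `S_FHt`, `S_Sub`.  Proof.  By `FHt` a piece of score
`≥ s` contains a piece with `FH s`; its number of flags (`length + 1`) is at least `20, 33, 46, 83, 96`
for `s = 4, …, 8` (words of `W8` have 95 digits: `decide`), and `s = 9` is impossible; the larger piece
has at least as many flags. -/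
def S_Siz : Prop :=
  ∀ (y : G) (st : List Step), Ok y st → score st ≤ 8 ∧ (4 ≤ score st → 20 ≤ st.length + 1) ∧
    (5 ≤ score st → 33 ≤ st.length + 1) ∧ (6 ≤ score st → 46 ≤ st.length + 1) ∧
    (7 ≤ score st → 83 ≤ st.length + 1) ∧ (8 ≤ score st → 96 ≤ st.length + 1)

/-- **Ma1** (two or three pieces).  Available: `S_QL`, `S_FHt`, `S_Sub`, `S_D75`, `S_D655`, `S_D8`,
`S_Siz`.  Proof.  Disjoint pieces `P, Q, R`.  (1) scores `≥ 8` and `≥ 4` are impossible: `P` contains an
`FH 8` piece (in `W8`, 96 flags), so `Q` has at most 24 flags, score `4`, its `FH 4` subpiece has at most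
27 digits, so it is in `W4`; `S_D8`.  (2) scores `≥ 7` and `≥ 5` are impossible: `P` has at least 83 flags,
so the `FH 5` subpiece of `Q` has at most 37 flags and is in `W5`; it has at least 33 flags, so the `FH 7`
subpiece of `P` has at most 87 flags and is in `W7`; `S_D75`.  (3) scores `≥ 6, ≥ 5, ≥ 5` are impossible:
the `FH 6` subpiece has at most `120 - 66 = 54` flags, the `FH 5` ones at most `120 - 46 - 33 = 41`;
`S_D655`.  (The number of flags of disjoint pieces is at most `120`: `S_Sub`, last part, with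
`Fin 2`, `Fin 3`, or directly from disjointness.) -/
def S_Ma1 : Prop :=
  (∀ (y y' : G) (a b : List Step), Ok y a → Ok y' b → Disjoint (cs y a) (cs y' b) →
    8 ≤ score a → 4 ≤ score b → False) ∧
  (∀ (y y' : G) (a b : List Step), Ok y a → Ok y' b → Disjoint (cs y a) (cs y' b) →
    7 ≤ score a → 5 ≤ score b → False) ∧
  (∀ (y y' y'' : G) (a b c : List Step), Ok y a → Ok y' b → Ok y'' c →
    Disjoint (cs y a) (cs y' b) → Disjoint (cs y a) (cs y'' c) → Disjoint (cs y' b) (cs y'' c) →
    6 ≤ score a → 5 ≤ score b → 5 ≤ score c → False)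

/-- **Cas** (arithmetic of the scores).  Available: `S_Sub`, `S_Siz`, `S_Ma1`.  Proof.  Let
`t i = score (st i) - 4`, and suppose `∑ t ≥ 4`.  If some `score ≥ 8` then it is `8`, all others are `≤ 3`
(`Ma1` (1)), so there are no others (`t ≤ -1` for each).  Otherwise, if some score is `7`, all others are `≤ 4` (`Ma1` (2)) and the
sum is `≤ 3`.  Otherwise all scores are `≤ 6`.  Let `A = {i : score = 6}`, `B = {i : score = 5}`.
`∑ t ≤ 2 #A + #B`, and the number of flags gives `46 #A + 33 #B ≤ 120` (`S_Siz`, `S_Sub`).  `#A = 1` and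
`#B ≥ 2` is impossible by `Ma1` (3).  So `#A = 2`, `#B = 0` (`#A ≥ 3`: `138 > 120`; `#A = 2, #B ≥ 1`: `125`;
`#A = 0`: `#B ≥ 4`: `132`), `∑ t ≤ 4`, and `∑ t = 4` only if all other scores are `4`; there is at most one
such (`46 + 46 + 20 + 20 > 120`). -/
def S_Cas : Prop :=
  ∀ (m : ℕ) (y : Fin m → G) (st : Fin m → List Step), (∀ i, Ok (y i) (st i)) →
    (∀ i j, i ≠ j → Disjoint (cs (y i) (st i)) (cs (y j) (st j))) →
    ∑ i, (score (st i) - 4) ≤ 4 ∧
    (∑ i, (score (st i) - 4) = 4 →
      (∃ i, score (st i) = 8 ∧ ∀ j, j = i) ∨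
      (∃ i j, i ≠ j ∧ score (st i) = 6 ∧ score (st j) = 6 ∧
        ((∀ k, k = i ∨ k = j) ∨
          ∃ l, l ≠ i ∧ l ≠ j ∧ score (st l) = 4 ∧ ∀ k, k = i ∨ k = j ∨ k = l)))

/-- **Tig** (no room for extensions).  Available: `S_Sub`.  Proof.  `P = (y, a ++ b ++ c)` and the
configuration contains its part `b`.  If `c = s :: c'`: the flags of `c` are new (`Ok`), outside `T`, so
`NoExtF` gives `wsum c < 0`.  If `a = a' ++ [s]`: `NoExtB` gives `wsum a < 0`.  But
`wsum a + wsum c = 0`, so both are empty (`a` empty and `c` nonempty would give `wsum c = 0`). -/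
def S_Tig : Prop :=
  ∀ (T : Finset G) (y : G) (a b c : List Step), Ok y (a ++ b ++ c) →
    Disjoint (cs y (a ++ b ++ c) \ cs (lastF y a) b) T → cs (lastF y a) b ⊆ T →
    NoExtF T (lastF (lastF y a) b) → NoExtB T (lastF y a) → wsum (a ++ b ++ c) = wsum b →
      a = [] ∧ c = []

/-- **Eq8** (equality, one piece).  Available: `S_QL`, `S_FHt`, `S_Sub`, `S_D8`, `S_Tig`.  Proof.  The
piece contains an `FH 8` piece `b` in `W8`; `S_D8`: `Cfg`; `S_Tig` with `T = cs _ b`: it is the whole piece. -/
def S_Eq8 : Prop :=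
  ∀ (y : G) (a : List Step), Ok y a → score a = 8 → ∃ z, Hole (cs y a) z

/-- **Eq6** (equality, two or three pieces).  Available: `S_QL`, `S_FHt`, `S_Sub`, `S_D66`, `S_Tig`,
`S_Siz`.  Proof.  `FH 6` subpieces `a', b'` of `a, b`; both have at least 46 flags, so at most 74 flags, so
they are in `W6`.  First part: `S_D66` (first assertion) for `a', b'`, `T = cs a' ∪ cs b'`; `S_Tig` for `a` and
for `b` gives `a = a'`, `b = b'`.  Second part: the `FH 4` subpiece `c'` of `c` has at most `120 - 92 = 28`
flags, so it is in `W4`; second assertion of `S_D66`, `T = cs a' ∪ cs b' ∪ cs c'`, `S_Tig` three times. -/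
def S_Eq6 : Prop :=
  (∀ (y y' : G) (a b : List Step), Ok y a → Ok y' b → Disjoint (cs y a) (cs y' b) →
    score a = 6 → score b = 6 → ∃ z, Hole (cs y a ∪ cs y' b) z) ∧
  (∀ (y y' y'' : G) (a b c : List Step), Ok y a → Ok y' b → Ok y'' c →
    Disjoint (cs y a) (cs y' b) → Disjoint (cs y a) (cs y'' c) → Disjoint (cs y' b) (cs y'' c) →
    score a = 6 → score b = 6 → score c = 4 → ∃ z, Hole (cs y a ∪ cs y' b ∪ cs y'' c) z)

/-- **Max**.  Available: `S_Sub`, `S_Cas`, `S_Eq8`, `S_Eq6`.  Proof.  The list `ps` as a family over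
`Fin ps.length`; `Okl ps` means that every piece is correct and that they are pairwise disjoint
(`List.nodup_flatMap`, `List.map_flatMap`).  `S_Cas`, `S_Eq8`, `S_Eq6`. -/
def S_Max : Prop :=
  ∀ ps : List (G × List Step), Okl ps → (ps.map fun P => score P.2 - 4).sum ≤ 4 ∧
    ((ps.map fun P => score P.2 - 4).sum = 4 → ∃ z, Hole (csl ps) z)

/-! ## D. paths -/

/-- **Scn** (scan lemma).  Available: `S_Can`, `S_Sub`.  Proof.  Induction on `vs` from the right
(`List.reverseRecOn`); one proves more.  Let `D = vcs vs`, `C = vcost vs`, `X = ∑ (score - 4)`.  Claim: there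
are `ps` with `Okl ps`, `csl ps ⊆ D` and one of
(g) the last visit is the last visit of the last piece: `ps = ps' ++ [(y, st)]`, `lastF y st = v.last` for
the last visit `v`, and `5 |D| ≤ 4 C + X + 4`; (b) `5 |D| ≤ 4 C + X`.  Moreover (t): if in case (g) equality
holds then for every `z ∈ D`, `z ∉ csl ps` there is `y` with `can y = z`, all `can (y sig ^ i)` (`i < 5`) in
`D`, and `lineIn (csl ps) y ≤ 1`; and the same in case (b) with equality.
Base `vs = []`: (b) with `ps = []`.
Step: new visit `v` with `c = v.k + 1` flags, `cost = v.k + v.e`; its 1-cycles are different (`S_Can`, `c ≤ 5`).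
(1) `v` disjoint from `D`: `|D|` grows by `c`.  In case (g) with `v.e = 2`: `v.y = last * rho ^ 2` is
impossible (`can` of it is in `D`), so `v.y = last * jp t`: replace the last piece by
`st ++ some t :: replicate v.k none`; score grows by `c - 4`, left side grows by `5c`, cost by `c + 1`:
`5c - 4(c+1) = c - 4`.  In case (g) with `v.e ≥ 3`: new piece `(v.y, replicate v.k none)`, score `c - 4`;
`5c - 4(c - 1 + v.e) ≤ c - 8 = (c - 4) - 4`.  In case (b): the same new piece,
`5c - 4(c - 1 + v.e) ≤ c - 4`, and now (g) holds: `X' + 4 = X + c - 4`.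
(2) `v` has `b ≥ 1` 1-cycles in `D`: keep `ps`, case (b) holds: `5(c - b) - 4(c - 1 + v.e) ≤ c - 5b - 4 ≤ -4`;
from (g): `5|D'| ≤ 4C' + X + 4 - 4`.  Equality (t): from (g) only if `c = 5`, `b = 1`; from (b) there is no
equality.  For `z` in `v` but not in `D`: take `y` on the line of `v` with `can y = z`; its line is the full
visit `v`, one of its 1-cycles is in `D ⊇ csl ps`, so `lineIn ≤ 1`.  In (1): if equality holds after the step it
held before, the new flags are in `csl`; the old lines are contained in `D`, which is disjoint from the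
new piece, so `lineIn` does not change. -/
def S_Scn : Prop :=
  ∀ vs : List Vis, VPath vs → ∃ ps : List (G × List Step), Okl ps ∧ csl ps ⊆ vcs vs ∧
    (5 : ℤ) * (vcs vs).card ≤ 4 * vcost vs + (ps.map fun P => score P.2 - 4).sum + 4 ∧
    ((5 : ℤ) * (vcs vs).card = 4 * vcost vs + (ps.map fun P => score P.2 - 4).sum + 4 →
      ∀ z ∈ vcs vs, z ∉ csl ps → ∃ y, can y = z ∧ lineIn (csl ps) y ≤ 1)

/-- **P0** (paths).  Available: `S_Can`, `S_Max`, `S_Scn`.  Proof.  Inequality: `S_Scn`, `S_Max`.
Equality: then both are equalities; `S_Max` gives a hole `z` of `csl ps`.  If `can z ∈ vcs vs` then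
`S_Scn` (`can z ∉ csl ps`) gives `y` with `can y = can z` and `lineIn (csl ps) y ≤ 1`, but `y = z rho ^ k`,
contradiction.  So `can z ∉ vcs vs`, and `lineIn` is monotone in the set. -/
def S_P0 : Prop :=
  ∀ vs : List Vis, VPath vs → 5 * (vcs vs).card ≤ 4 * vcost vs + 8 ∧
    (5 * (vcs vs).card = 4 * vcost vs + 8 → ∃ z, Hole (vcs vs) z)

/-- **Cyl** (cycle lemma).  Proof.  Let `m` be the minimum of the prefix sums
`(l.take k).sum`, `k = 0, …, l.length - 1`, and `n` the largest `k < l.length` where it is attained.  In the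
rotated list the prefix sums are `(l.take (n + k)).sum - m ≥ 1` for `0 < k`, `n + k < l.length`; and
`l.sum - m + (l.take (n + k - l.length)).sum ≥ l.sum ≥ 1` for `n + k ≥ l.length`. -/
def S_Cyl : Prop :=
  ∀ l : List ℤ, 1 ≤ l.sum → ∃ n, ∀ k, 0 < k → k ≤ l.length → 1 ≤ ((l.rotate n).take k).sum

/-- **Clp** (closed pieces).  Available: `S_Can`, `S_QC`, `S_Cyl`.  Proof.  Visits `(y_i, k_i)`, all costs
`2`, all 1-cycles different, every visit is linked to the next one (cyclically) by a jump `jp t`
(`last * rho ^ 2` has the 1-cycle of `last`; for one visit: `sig ^ k * rho ^ 2 = 1` is false).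
Then `D = ∑ (k_i + 1)`, `vcost = ∑ (k_i + 2) = D + r`, so the claim is `∑ (k_i - 3) ≤ 4`.  Suppose
`∑ (k_i - 3) ≥ 5`.  Rotate (`S_Cyl` for the list `k_i - 3`) such that all prefix sums are `≥ 1`; the rotated
list is still a closed path with the same properties.  The word
`st = replicate k_1 none ++ some t_1 :: replicate k_2 none ++ …` has `Pos (-3) st` (the running score before
the jump after the visit `i` is `∑_{j ≤ i} (k_j - 3)`), `score st = ∑ (k_i - 3) ≥ 5`, `Ok`, and
`lastF * jp t_r = y_1`: contradiction to `S_QC`. -/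
def S_Clp : Prop :=
  ∀ vs : List Vis, vs ≠ [] → CPath vs → (∀ v ∈ vs, v.e = 2) → ((vfl vs).map can).Nodup →
    5 * (vcs vs).card ≤ 4 * vcost vs + 4

/-- **P1** (closed paths).  Available: `S_Can`, `S_P0`, `S_Clp`.  Proof.  A rotation of a closed path is
a closed path with the same `vcs` and `vcost` (`List.IsChain` of a rotation: split `vs = a ++ b`,
`b ++ a`).  (1) Some `v` with `v.e ≥ 3`: rotate such that it is the first one, replace its `e` by `2`:
a path of cost `vcost - v.e + 2`; `S_P0`.  (2) All `e = 2` and `((vfl vs).map can)` has a duplicate: then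
some visit `v` has a 1-cycle in common with the other visits (in one visit the 1-cycles are different);
rotate such that it is the last one, `vs = a ++ [v]`, `a ≠ []`: `S_P0` for `a`:
`5 |vcs a| ≤ 4 vcost a + 8`, `|vcs vs| ≤ |vcs a| + v.k`, `vcost vs = vcost a + v.k + 2`, `v.k ≤ 4`.
(3) Otherwise `S_Clp`. -/
def S_P1 : Prop :=
  ∀ vs : List Vis, vs ≠ [] → CPath vs → 5 * (vcs vs).card ≤ 4 * vcost vs + 4

/-! ## E. orbits -/

/-- **Con** (connectivity).  Available: `S_Can`.  Proof.  Put `x_i = (N ^ i) 1`.  For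
`A_m = {can x_i : i ≤ m}`, `B_m = {φ x_i : i ≤ m}`,
`P_m = {(can x_i, φ x_i) : i ≤ m} ∪ {(can x_i, φ x_{i+1}) : i < m}`: `|A_m| + |B_m| ≤ |P_m| + 1` by induction on
`m` (a new element of `B` comes with the new pair `(can x_m, φ x_{m+1})`, a new element of `A` with the new pair
`(can x_{m+1}, φ x_{m+1})`).  Since `can x_i = can (x_i rho)` and
`φ x_{i+1} = φ (Out (x_i rho)) = φ (x_i rho)`, all pairs are in the image of `x ↦ (can x, φ x)`.  By `tr`, for
large `m` (at least the order of `N`) `A_m`, `B_m` are the whole images; `#can = 120`. -/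
def S_Con : Prop :=
  ∀ (T : Tour) (L : Type) [DecidableEq L] (φ : G → L), (∀ c, φ (T.Out c) = φ c) →
    120 + (Finset.univ.image φ).card ≤ 1 + (Finset.univ.image fun x => (can x, φ x)).card

/-- **Orb** (orbits).  Proof.  `orb` is the class of the equivalence relation
`∃ k, (Out ^ k) c = x` (finite order: `Out ^ orderOf`, inverse powers are positive powers). -/
def S_Orb : Prop :=
  ∀ T : Tour, (∀ c, c ∈ T.orb c) ∧ (∀ c x, x ∈ T.orb c → T.orb x = T.orb c) ∧
    (∀ c, T.orb (T.Out c) = T.orb c) ∧ (∀ c x, x ∈ T.orb c → T.Out x ∈ T.orb c)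

/-- **Cn1**.  Available: `S_Con`, `S_Orb`.  Proof.  `φ = T.orb`.  The pairs
`(can x, orb x)`: for every orbit `O` exactly `#(O.image can)` (`Finset.card_eq_sum_card_fiberwise` for the
second component).  The orbits partition `G`: `∑_O ∑_{c ∈ O} e c = ∑_c e c ≤ 146`
(`Finset.sum_fiberwise_of_maps_to`).  So `tot = 5 #pairs - 5 #orbits - 4 ∑ e ≥ 5 · 119 - 584 = 11`. -/
def S_Cn1 : Prop := ∀ T : Tour, 11 ≤ T.tot

/-- **Cn2**.  Available: `S_Con`, `S_Orb`.  Proof.  `φ x = orb x` except that the label of the
orbit of `c'` is replaced by the label of the orbit of `c`.  There are `#orbits - 1` labels, and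
`#pairs = ∑_O #(O.image can) - #(common 1-cycles)`; so
`tot = 5 (#pairs + i) - 5 (#labels + 1) - 4 ∑ e ≥ 5 · 119 + 5 i - 5 - 584 = 6 + 5 i`. -/
def S_Cn2 : Prop :=
  ∀ (T : Tour) (c c' : G), T.orb c ≠ T.orb c' →
    6 + 5 * ((((T.orb c).image can) ∩ ((T.orb c').image can)).card : ℤ) ≤ T.tot

/-- **Opn** (an orbit as a path).  Available: `S_Can`, `S_Orb`.  Proof.  For `x ∈ orb z` let `n(x)` be
the least `n` with `(Out ^ n) x = z`.  Claim, by induction on `n(x)`: there is a path `vs` whose first
visit has `y = x`, `e = 2`, whose last flag is `z`, whose flags are `x, Out x, …, (Out ^ n) x = z` (as a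
list: `vfl vs = (List.range (n + 1)).map fun i => (Out ^ i) x`), and
`vcost vs = 2 + ∑_{i < n} e ((Out ^ i) x)`.  `n = 0`: one visit `(2, z, 0)`.  `n + 1`: the path
for `Out x` has the first visit `(2, Out x, k)`.  If `e x = 1` then `Out x = x * sig` (`h1`;
`Out x = N (x rho⁻¹)`) and the first visit becomes `(2, x, k + 1)`; `k + 1 ≤ 4`, since otherwise
`x = x sig ^ 5` would be one of the later flags (these are different from `x` by minimality of `n`).  If
`e x ≥ 2`: new visit `(2, x, 0)` in front, the old first visit gets `e = e x`; the link: `h2`.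
Apply this to `x = Out z`; then the flags are the whole orbit, each once. -/
def S_Opn : Prop :=
  ∀ (T : Tour) (z : G), (∀ x ∈ T.orb z, x ≠ z → x ≠ T.cl ∧ 1 ≤ T.e x) →
    ∃ vs : List Vis, vs ≠ [] ∧ VPath vs ∧ (vfl vs).Nodup ∧ (vfl vs).toFinset = T.orb z ∧
      vcost vs = 2 + ∑ x ∈ (T.orb z).erase z, T.e x ∧
      (∀ v ∈ vs.head?, v.e = 2 ∧ v.y = T.Out z) ∧ (∀ v ∈ vs.getLast?, v.last = z)

/-- **V0**.  Available: `S_Orb`, `S_P0`, `S_Opn`.  Proof.  For `x ∈ orb cl`, `x ≠ cl`: if `e x = 0` then
`Out x = x`, so `orb x = {x}`, but `cl ∈ orb x`.  `S_Opn` for `z = cl`; `val = 5 |vcs| - 5 - 4 (vcost - 2)`,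
`S_P0`. -/
def S_V0 : Prop :=
  ∀ T : Tour, T.val (T.orb T.cl) ≤ 11 ∧
    (T.val (T.orb T.cl) = 11 → ∃ z, Hole ((T.orb T.cl).image can) z)

/-- **V1**.  Available: `S_Can`, `S_Orb`, `S_P1`, `S_Opn`.  Proof.  `cl ∉ orb c`.  If some `x` of the
orbit has `e x = 0` then the orbit is `{x}`, `x = c`, `val = 0`, and `1 ≤ e c` is false.  If all
`e x = 1`, then the orbit is the line (`Out x = x sig`), `val = 25 - 5 - 20 = 0`.  Otherwise all `e ≥ 1` and some
`z` of the orbit has `e z ≥ 2`: `S_Opn` for `z`, and replace the `e` of the first visit by `e z`: this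
is a closed path (link: `h2` for `z`; `Out z = N (z rho⁻¹)`) with cost `∑_{x ∈ orb} e x`, so by `S_P1`
`val = 5 |vcs| - 5 - 4 vcost ≤ -1`. -/
def S_V1 : Prop :=
  ∀ (T : Tour) (c : G), T.cl ∉ T.orb c → T.val (T.orb c) ≤ 0 ∧
    (T.val (T.orb c) = 0 → 1 ≤ T.e c → T.orb c = (Finset.range 5).image fun i => c * sig ^ i)

/-- **End**.  Available: `S_Can`, `S_Orb`, `S_Cn1`, `S_Cn2`, `S_V0`, `S_V1`.  Proof.  Orbits without `cl`
have value `≤ 0`, the orbit of `cl` has value `≤ 11`; `tot ≥ 11` (`S_Cn1`), so `val (orb cl) = 11` and all others have value `0`.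
Let `z` be the hole of `S_V0`.  Some flag `y = z rho ^ k` has `1 ≤ e y`: otherwise (`y ≠ cl` because
`can y ∉ (orb cl).image can`) `N (y rho⁻¹) = y` for the six flags (`h0`), so `N` maps the 1-cycle of `z` to
itself, contradiction to `tr` (`cl` is not in it).  `y ∉ orb cl`, so `orb y ≠ orb cl` and `cl ∉ orb y`; by `S_V1`
the orbit of `y` is its line, which has at least two 1-cycles in `(orb cl).image can`
(`lineIn`; the five 1-cycles of a line are different).  `S_Cn2`: `tot ≥ 16`; but `tot = 11`. -/
def S_End : Prop := ∀ _T : Tour, False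

/-! ## F. words -/

/-- **Wn1** (windows).  Proof.  Everything by comparing letters; the missing letters are determined
because `x`, `y` are permutations.  (1) letters of the first six windows positions.  (2) `x` read at
`t`, `y` at `t + 1`: `y i = x (i + 1)` for `i < 5`, so `y 5 = x 0` (`y` is surjective).  (3) `y i = x (i + 2)` for
`i < 4`, so `{y 4, y 5} = {x 0, x 1}`.  If `y 4 = x 0`: `y = x rho ^ 2` and the window `t + 1` reads
`x rho`.  Otherwise `y = x rho sig`.  (4) `y i = x (i + 3)` for `i < 3`, `(y 3, y 4, y 5)` is one of the six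
arrangements of `x 0, x 1, x 2`: `x rho * jp 0` (`x2 x1 x0`), `x rho * jp 1` (`x2 x0 x1`), `x rho * jp 2`
(`x0 x2 x1`), `x rho * jp 3` (`x1 x2 x0`), `x rho * rho ^ 2` (`x0 x1 x2`), `x rho sig rho` (`x1 x0 x2`); in the
last case the window `t + 2` reads `x rho sig`.  (5) the letter at `t + 6` is `y 0` by the second
hypothesis (`(y rho) 5`), `y 1` by the third (`(y rho sig rho) 3`).  (6) `IsSuperperm` for the list
`x 0, …, x 5` (`List.ofFn`). -/
def S_Wn1 : Prop :=
  (∀ (w : List (Fin 6)) (t : ℕ) (x : G), IsAt w t x → t + 6 ≤ w.length) ∧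
  (∀ (w : List (Fin 6)) (t : ℕ) (x y : G), IsAt w t x → IsAt w t y → x = y) ∧
  (∀ (w : List (Fin 6)) (t : ℕ) (x y : G), IsAt w t x → IsAt w (t + 1) y → y = x * rho) ∧
  (∀ (w : List (Fin 6)) (t : ℕ) (x y : G), IsAt w t x → IsAt w (t + 2) y →
    y = x * rho * sig ∨ (y = x * rho ^ 2 ∧ IsAt w (t + 1) (x * rho))) ∧
  (∀ (w : List (Fin 6)) (t : ℕ) (x y : G), IsAt w t x → IsAt w (t + 3) y →
    (∃ s, y = x * rho * jp s) ∨ y = x * rho * rho ^ 2 ∨
      (y = x * rho * sig * rho ∧ IsAt w (t + 2) (x * rho * sig))) ∧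
  (∀ (w : List (Fin 6)) (t : ℕ) (y : G), IsAt w t y → IsAt w (t + 1) (y * rho) →
    ¬ IsAt w (t + 3) (y * rho * sig * rho)) ∧
  (∀ w : List (Fin 6), IsSuperperm 6 w → ∀ x : G, ∃ t, IsAt w t x)

/-- **Sel** (minimal selection).  Available: `S_Wn1`.  Proof.  Selections: `s : G → ℕ` with
`IsAt w (s x) x` for all `x` (they exist by choice; `s` is injective by (2)).
`K s = #{x : s (x rho) ≠ s x + 1}`, `F s = #{x : s (x rho sig rho) = s x + 3 ∧ s (x rho sig) ≠ s x + 2}`, take `s` with
`1000 K s + F s` minimal (`F ≤ 720`).  Say that `q` follows `p` at distance `d` if `s q = s p + d` and no `r` has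
`s p < s r < s q`.
(a) distance 2: by (4) `q = p rho sig`, or `q = p rho ^ 2` and the window `s p + 1` reads `y = p rho`.  In the
second case let `s' = update s y (s p + 1)`.  The elements with a different status in `K` are `x = p` and
`x = y`.  `p`: `s y ≠ s p + 1` (nobody is between), in `s'` it is no exit.  `y`: `s (y rho) = s p + 2 = s' y + 1`, no
exit in `s'`.  So `K s' ≤ K s - 1`, contradiction.
(b) distance 3: the excluded case is `q = p rho sig rho` and the window `s p + 2` reads `y = p rho sig`,
`q = y rho`.  `s' = update s y (s p + 2)`.  Changes in `K`: `y` is an exit for `s` (`s q = s p + 3`, `s y ≠ s p + 2`) and not for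
`s'`; `y rho⁻¹` is possibly a new exit; nothing else.  So `K s' ≤ K s`.  Changes in `F`: `p` is in `F s`, not in `F s'`.
`x = y` is not in `F s'`: `s' y = s p + 2`, the window `s p + 3` reads `y rho`, so by (6) the window `s p + 5` does
not read `y rho sig rho`.  `x` with `x rho sig rho = y`, `x ≠ y`: in `F s'` it would mean `s x + 3 = s p + 2`, so the
windows `s x`, `s x + 1 = s p` read `x`, `p`, `p = x rho`, `x rho sig rho = x rho rho sig`, false by `decide`.  All
other `x` have the same status.  So `F s' < F s`, contradiction. -/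
def S_Sel : Prop :=
  ∀ w : List (Fin 6), (∀ x : G, ∃ t, IsAt w t x) → ∃ s : G → ℕ, (∀ x, IsAt w (s x) x) ∧
    (∀ p q, s q = s p + 2 → (∀ r, ¬ (s p < s r ∧ s r < s q)) → q = p * rho * sig) ∧
    (∀ p q, s q = s p + 3 → (∀ r, ¬ (s p < s r ∧ s r < s q)) →
      (∃ t, q = p * rho * jp t) ∨ q = p * rho * rho ^ 2)

/-- **Srt** (sorting).  Proof.  `Fintype.card G = 720`; the image of `s` is a finset of `720` numbers,
`Finset.orderIsoOfFin`. -/
def S_Srt : Prop :=
  ∀ s : G → ℕ, Function.Injective s → ∃ E : Fin 720 ≃ G, StrictMono fun i => s (E i)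

/-- **Wrd** (words give tours).  Available: `S_Wn1`, `S_Sel`, `S_Srt`.  Proof.  `s` from `S_Sel`, `E` from
`S_Srt`, `N = E.symm.trans ((finRotate 720).trans E)`, `last = E 719`, `cl = last * rho`,
`e c = 0` for `c = cl`, otherwise `e c = s (N (c rho⁻¹)) - s (c rho⁻¹) - 1`.  For `p = c rho⁻¹ ≠ last`, `p = E i`, `N p = E (i + 1)`, so
`s (N p) > s p` and nobody is between.  `tr`: powers of `finRotate` are transitive
(`(finRotate n ^ k) i = i + k`).  `sum`: the sum over `p = E i`, `i < 719`, telescopes:
`s (E 719) - s (E 0) - 719 ≤ (871 - 6) - 719 = 146`.  `h0`: distance one, (3) of `S_Wn1`; `h1`, `h2`: `S_Sel`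
(`c = p rho`). -/
def S_Wrd : Prop := ∀ w : List (Fin 6), IsSuperperm 6 w → w.length ≤ 871 → Nonempty Tour

/-- **Upp** (a superpermutation of length `872`).  Proof: the word in the file `e0d433_872.txt` of the
team-store (letters `0, …, 5`).  `IsSuperperm`: a list without repetition of length 6 over `Fin 6`;
check by `decide +kernel` that the list of all windows contains all 720 arrangements (e.g. nested quantifiers over six
different letters, with a table of positions; or compute the bit mask of the ranks `rk` of all windows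
and compare it with `2 ^ 720 - 1`). -/
def S_Upp : Prop := ∃ w : List (Fin 6), IsSuperperm 6 w ∧ w.length = 872

/-- **Fin** (the hand-in).  Available: `S_Wrd`, `S_End`, `S_Upp`. -/
def S_Fin : Prop :=
  IsLeast {k : ℕ | ∃ w : List (Fin 6), IsSuperperm 6 w ∧ w.length = k} 872 ∧ superLen 6 = 872

end

end Pool.Agent.Lib.MP_e0d433_co.Six
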