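import Pool.Agent.Lib.MP_e0d433_co.Six.Spec

/-!
# MP_e0d433_co, project Six: left translation (`S_Tr`)
-/

set_option autoImplicit false

namespace Pool.Agent.Lib.MP_e0d433_co.Six

private theorem Tr_fl (g : G) : ∀ (l : List Step) (y : G),
    fl (g * y) l = (fl y l).map (g * ·) := by
  intro l
  induction l with
  | nil => intro y; rfl
  | cons s l ih =>
    intro y
    change (g * y) :: fl (g * y * stp s) l = (g * y) :: (fl (y * stp s) l).map (g * ·)
    rw [mul_assoc, ih]

private theorem Tr_lastF (g : G) : ∀ (l : List Step) (y : G),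
    lastF (g * y) l = g * lastF y l := by
  intro l
  induction l with
  | nil => intro y; rfl
  | cons s l ih =>
    intro y
    change lastF (g * y * stp s) l = g * lastF (y * stp s) l
    rw [mul_assoc, ih]

private theorem Tr_nodup (g : G) (hg : ∀ x y : G, can (g * x) = can (g * y) ↔ can x = can y)
    (L : List G) : ((L.map (g * ·)).map can).Nodup ↔ (L.map can).Nodup := by
  unfold List.Nodup
  rw [List.map_map, List.pairwise_map, List.pairwise_map]
  constructor
  · intro h
    exact h.imp fun {a b} hab hc => hab ((hg a b).2 hc)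
  · intro h
    exact h.imp fun {a b} hab hc => hab ((hg a b).1 hc)

private theorem Tr_mem (g : G) (hg : ∀ x y : G, can (g * x) = can (g * y) ↔ can x = can y)
    (L : List G) (x : G) :
    can (g * x) ∈ ((L.map (g * ·)).map can).toFinset ↔ can x ∈ (L.map can).toFinset := by
  rw [List.mem_toFinset, List.mem_toFinset, List.mem_map, List.mem_map]
  constructor
  · rintro ⟨y, hy, h⟩
    obtain ⟨z, hz, rfl⟩ := List.mem_map.1 hy
    exact ⟨z, hz, (hg z x).1 h⟩
  · rintro ⟨y, hy, h⟩
    exact ⟨g * y, List.mem_map.2 ⟨y, hy, rfl⟩, (hg y x).2 h⟩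

private theorem Tr_disj (g : G) (hg : ∀ x y : G, can (g * x) = can (g * y) ↔ can x = can y)
    (L L' : List G) :
    Disjoint ((L.map (g * ·)).map can).toFinset ((L'.map (g * ·)).map can).toFinset ↔
      Disjoint (L.map can).toFinset (L'.map can).toFinset := by
  rw [Finset.disjoint_left, Finset.disjoint_left]
  constructor
  · intro h a ha hb
    obtain ⟨x, hx, rfl⟩ := List.mem_map.1 (List.mem_toFinset.1 ha)
    exact h ((Tr_mem g hg L x).2 ha) ((Tr_mem g hg L' x).2 hb)
  · intro h a ha hb
    obtain ⟨y, hy, rfl⟩ := List.mem_map.1 (List.mem_toFinset.1 ha)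
    obtain ⟨x, hx, rfl⟩ := List.mem_map.1 hy
    exact h ((Tr_mem g hg L x).1 ha) ((Tr_mem g hg L' x).1 hb)

private theorem Tr_flat (g : G) (ps : List (G × List Step)) :
    ((tr g ps).flatMap fun P => fl P.1 P.2) =
      (ps.flatMap fun P => fl P.1 P.2).map (g * ·) := by
  induction ps with
  | nil => rfl
  | cons P ps ih =>
    have h1 : tr g (P :: ps) = (g * P.1, P.2) :: tr g ps := rfl
    rw [h1, List.flatMap_cons, List.flatMap_cons, List.map_append, ih, Tr_fl]

theorem tTr (hCan : S_Can) : S_Tr := by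
  have hc := hCan.2.2.2.1
  have hOk : ∀ (g y : G) (l : List Step), Ok (g * y) l ↔ Ok y l := by
    intro g y l
    unfold Ok
    rw [Tr_fl]
    exact Tr_nodup g (hc g) _
  have hD : ∀ (g y : G) (l : List Step) (ps : List (G × List Step)),
      Disjoint (cs (g * y) l) (csl (tr g ps)) ↔ Disjoint (cs y l) (csl ps) := by
    intro g y l ps
    unfold cs csl
    rw [Tr_fl, Tr_flat]
    exact Tr_disj g (hc g) _ _
  have hM : ∀ (g x : G) (ps : List (G × List Step)),
      can (g * x) ∈ csl (tr g ps) ↔ can x ∈ csl ps := by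
    intro g x ps
    unfold csl
    rw [Tr_flat]
    exact Tr_mem g (hc g) _ x
  refine ⟨fun g y l => Tr_fl g l y, fun g y l => Tr_lastF g l y, hOk, ?_, ?_, ?_⟩
  · intro g y y' l l'
    unfold cs
    rw [Tr_fl, Tr_fl]
    exact Tr_disj g (hc g) _ _
  · intro g ps
    unfold Okl
    rw [Tr_flat]
    exact Tr_nodup g (hc g) _
  · rintro g ps ⟨h1, z, hz1, hz2⟩
    refine ⟨?_, g⁻¹ * z, ?_, ?_⟩
    · intro P hP
      obtain ⟨hF, hB⟩ := h1 (g * P.1, P.2) (List.mem_map.2 ⟨P, hP, rfl⟩)
      constructor
      · intro s l hs hd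
        refine hF s l ?_ ?_
        · change Ok (lastF (g * P.1) P.2 * stp s) l
          rw [Tr_lastF, mul_assoc]
          exact (hOk _ _ _).2 hs
        · change Disjoint (cs (lastF (g * P.1) P.2 * stp s) l) _
          rw [Tr_lastF, mul_assoc]
          exact (hD _ _ _ _).2 hd
      · intro y l s hs hd hl
        refine hB (g * y) l s ((hOk _ _ _).2 hs) ((hD _ _ _ _).2 hd) ?_
        change lastF (g * y) l * stp s = g * P.1
        rw [Tr_lastF, mul_assoc, hl]
    · intro h
      have h2 := (hM g (g⁻¹ * z) ps).2 h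
      rw [mul_inv_cancel_left] at h2
      exact hz1 h2
    · intro k
      have h2 := hz2 k
      have h3 : lineIn (csl (tr g ps)) (z * rho ^ k) = lineIn (csl ps) (g⁻¹ * z * rho ^ k) := by
        unfold lineIn
        congr 1
        refine Finset.filter_congr fun i _ => ?_
        have h4 := hM g (g⁻¹ * z * rho ^ k * sig ^ i) ps
        have h5 : g * (g⁻¹ * z * rho ^ k * sig ^ i) = z * rho ^ k * sig ^ i := by
          simp only [mul_assoc, mul_inv_cancel_left]
        rw [h5] at h4
        exact h4
      rwa [h3] at h2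

end Pool.Agent.Lib.MP_e0d433_co.Six
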