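import Pool.Agent.Lib.MP_e0d433_co.Six.Spec

/-!
# MP_e0d433_co, project Six: `S_Wn1`, windows of a word
-/

set_option autoImplicit false

namespace Pool.Agent.Lib.MP_e0d433_co.Six

private theorem Wn1_len {w : List (Fin 6)} {t : ℕ} {x : G} (h : IsAt w t x) : t + 6 ≤ w.length := by
  have h5 := h 5
  obtain ⟨h6, -⟩ := List.getElem?_eq_some_iff.1 h5
  have h7 : ((5 : Fin 6) : ℕ) = 5 := rfl
  rw [h7] at h6
  omega

/-- two windows read the same letter at the same place -/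
private theorem Wn1_eq {w : List (Fin 6)} {t k : ℕ} {x y : G} (hx : IsAt w t x)
    (hy : IsAt w (t + k) y) (i j : Fin 6) (hij : k + i.val = j.val) : y i = x j := by
  have h1 := hx j
  have h2 := hy i
  have e : t + k + i.val = t + j.val := by omega
  rw [e, h1] at h2
  exact (Option.some.inj h2).symm

private theorem Wn1_uniq {w : List (Fin 6)} {t : ℕ} {x y : G} (hx : IsAt w t x)
    (hy : IsAt w t y) : x = y := by
  ext i
  have h := Wn1_eq (k := 0) hy hx i i (by omega)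
  rw [h]

private theorem Wn1_mk {g g' : G} (h0 : g 0 = g' 0) (h1 : g 1 = g' 1) (h2 : g 2 = g' 2)
    (h3 : g 3 = g' 3) (h4 : g 4 = g' 4) (h5 : g 5 = g' 5) : g = g' := by
  refine Equiv.ext fun i => ?_
  fin_cases i
  · exact h0
  · exact h1
  · exact h2
  · exact h3
  · exact h4
  · exact h5

private theorem Wn1_ne (g : G) {i j : Fin 6} (h : i ≠ j) : g i ≠ g j := fun h' => h (g.injective h')

private theorem Wn1_n (g : G) {i a : Fin 6} (h : g i = a) (j : Fin 6) (hij : j ≠ i) : g j ≠ a :=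
  fun h' => hij (g.injective (h'.trans h.symm))

private theorem Wn1_g1 (g : G) (h0 : g 0 = 1) (h1 : g 1 = 2) (h2 : g 2 = 3) (h3 : g 3 = 4)
    (h4 : g 4 = 5) : g = rho := by
  have h5 : g 5 = 0 := by
    have k0 := Wn1_ne g (i := 5) (j := 0) (by decide)
    have k1 := Wn1_ne g (i := 5) (j := 1) (by decide)
    have k2 := Wn1_ne g (i := 5) (j := 2) (by decide)
    have k3 := Wn1_ne g (i := 5) (j := 3) (by decide)
    have k4 := Wn1_ne g (i := 5) (j := 4) (by decide)
    rw [h0] at k0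
    rw [h1] at k1
    rw [h2] at k2
    rw [h3] at k3
    rw [h4] at k4
    revert k0 k1 k2 k3 k4
    generalize g 5 = a
    revert a
    decide
  exact Wn1_mk (h0.trans (by decide)) (h1.trans (by decide)) (h2.trans (by decide))
    (h3.trans (by decide)) (h4.trans (by decide)) (h5.trans (by decide))

private theorem Wn1_d2 : ∀ a b : Fin 6, a ≠ 2 → a ≠ 3 → a ≠ 4 → a ≠ 5 → b ≠ 2 → b ≠ 3 → b ≠ 4 →
    b ≠ 5 → a ≠ b → (a = 1 ∧ b = 0) ∨ (a = 0 ∧ b = 1) := by decide

private theorem Wn1_g2 (g : G) (h0 : g 0 = 2) (h1 : g 1 = 3) (h2 : g 2 = 4) (h3 : g 3 = 5) :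
    g = rho * sig ∨ g = rho ^ 2 := by
  have key := Wn1_d2 (g 4) (g 5) (Wn1_n g h0 4 (by decide)) (Wn1_n g h1 4 (by decide))
    (Wn1_n g h2 4 (by decide)) (Wn1_n g h3 4 (by decide)) (Wn1_n g h0 5 (by decide))
    (Wn1_n g h1 5 (by decide)) (Wn1_n g h2 5 (by decide)) (Wn1_n g h3 5 (by decide))
    (Wn1_ne g (by decide))
  rcases key with ⟨h4, h5⟩ | ⟨h4, h5⟩
  · left
    exact Wn1_mk (h0.trans (by decide)) (h1.trans (by decide)) (h2.trans (by decide))
      (h3.trans (by decide)) (h4.trans (by decide)) (h5.trans (by decide))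
  · right
    exact Wn1_mk (h0.trans (by decide)) (h1.trans (by decide)) (h2.trans (by decide))
      (h3.trans (by decide)) (h4.trans (by decide)) (h5.trans (by decide))

private theorem Wn1_lt : ∀ a : Fin 6, a ≠ 3 → a ≠ 4 → a ≠ 5 → a.val < 3 := by decide

set_option synthInstance.maxSize 1024 in
private theorem Wn1_d3 : ∀ a b c : Fin 6, a.val < 3 → b.val < 3 → c.val < 3 → a ≠ b → a ≠ c →
    b ≠ c →
    (a = 2 ∧ b = 1 ∧ c = 0) ∨ (a = 2 ∧ b = 0 ∧ c = 1) ∨ (a = 0 ∧ b = 2 ∧ c = 1) ∨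
    (a = 1 ∧ b = 2 ∧ c = 0) ∨ (a = 0 ∧ b = 1 ∧ c = 2) ∨ (a = 1 ∧ b = 0 ∧ c = 2) := by decide

private theorem Wn1_g3 (g : G) (h0 : g 0 = 3) (h1 : g 1 = 4) (h2 : g 2 = 5) :
    (∃ s, g = rho * jp s) ∨ g = rho * rho ^ 2 ∨ g = rho * sig * rho := by
  have key := Wn1_d3 (g 3) (g 4) (g 5)
    (Wn1_lt _ (Wn1_n g h0 3 (by decide)) (Wn1_n g h1 3 (by decide)) (Wn1_n g h2 3 (by decide)))
    (Wn1_lt _ (Wn1_n g h0 4 (by decide)) (Wn1_n g h1 4 (by decide)) (Wn1_n g h2 4 (by decide)))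
    (Wn1_lt _ (Wn1_n g h0 5 (by decide)) (Wn1_n g h1 5 (by decide)) (Wn1_n g h2 5 (by decide)))
    (Wn1_ne g (by decide)) (Wn1_ne g (by decide)) (Wn1_ne g (by decide))
  rcases key with ⟨h3, h4, h5⟩ | ⟨h3, h4, h5⟩ | ⟨h3, h4, h5⟩ | ⟨h3, h4, h5⟩ | ⟨h3, h4, h5⟩ |
    ⟨h3, h4, h5⟩
  · refine Or.inl ⟨0, ?_⟩
    exact Wn1_mk (h0.trans (by decide)) (h1.trans (by decide)) (h2.trans (by decide))
      (h3.trans (by decide)) (h4.trans (by decide)) (h5.trans (by decide))
  · refine Or.inl ⟨1, ?_⟩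
    exact Wn1_mk (h0.trans (by decide)) (h1.trans (by decide)) (h2.trans (by decide))
      (h3.trans (by decide)) (h4.trans (by decide)) (h5.trans (by decide))
  · refine Or.inl ⟨2, ?_⟩
    exact Wn1_mk (h0.trans (by decide)) (h1.trans (by decide)) (h2.trans (by decide))
      (h3.trans (by decide)) (h4.trans (by decide)) (h5.trans (by decide))
  · refine Or.inl ⟨3, ?_⟩
    exact Wn1_mk (h0.trans (by decide)) (h1.trans (by decide)) (h2.trans (by decide))
      (h3.trans (by decide)) (h4.trans (by decide)) (h5.trans (by decide))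
  · refine Or.inr (Or.inl ?_)
    exact Wn1_mk (h0.trans (by decide)) (h1.trans (by decide)) (h2.trans (by decide))
      (h3.trans (by decide)) (h4.trans (by decide)) (h5.trans (by decide))
  · refine Or.inr (Or.inr ?_)
    exact Wn1_mk (h0.trans (by decide)) (h1.trans (by decide)) (h2.trans (by decide))
      (h3.trans (by decide)) (h4.trans (by decide)) (h5.trans (by decide))

/-- the quotient of two windows at distance `k` -/
private theorem Wn1_q {w : List (Fin 6)} {t k : ℕ} {x y : G} (hx : IsAt w t x)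
    (hy : IsAt w (t + k) y) (i j : Fin 6) (hij : k + i.val = j.val) : (x⁻¹ * y) i = j := by
  rw [Equiv.Perm.mul_apply, Wn1_eq hx hy i j hij]
  simp

private theorem Wn1_y (x y : G) {g : G} (h : x⁻¹ * y = g) : y = x * g := by
  rw [← h]; group

/-- a window between two windows -/
private theorem Wn1_mid {w : List (Fin 6)} {t k d : ℕ} {x y g z : G} (hx : IsAt w t x)
    (hy : IsAt w (t + k) y) (hyg : y = x * g)
    (h1 : ∀ i : Fin 6, (∃ j : Fin 6, d + i.val = j.val ∧ z i = j) ∨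
      ∃ j : Fin 6, d + i.val = k + j.val ∧ z i = g j) : IsAt w (t + d) (x * z) := by
  intro i
  rw [Equiv.Perm.mul_apply]
  rcases h1 i with ⟨j, h2, h3⟩ | ⟨j, h2, h3⟩
  · rw [h3, ← hx j]
    congr 1
    omega
  · rw [h3]
    have h4 := hy j
    rw [hyg, Equiv.Perm.mul_apply] at h4
    rw [← h4]
    congr 1
    omega

/-- **Wn1** -/
theorem tWn1 : S_Wn1 := by
  refine ⟨fun w t x h => Wn1_len h, fun w t x y hx hy => Wn1_uniq hx hy, ?_, ?_, ?_, ?_, ?_⟩
  · intro w t x y hx hy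
    exact Wn1_y x y (Wn1_g1 _ (Wn1_q hx hy 0 1 rfl) (Wn1_q hx hy 1 2 rfl) (Wn1_q hx hy 2 3 rfl)
      (Wn1_q hx hy 3 4 rfl) (Wn1_q hx hy 4 5 rfl))
  · intro w t x y hx hy
    rcases Wn1_g2 _ (Wn1_q hx hy 0 2 rfl) (Wn1_q hx hy 1 3 rfl) (Wn1_q hx hy 2 4 rfl)
      (Wn1_q hx hy 3 5 rfl) with h | h
    · left
      rw [mul_assoc]
      exact Wn1_y x y h
    · right
      have hy' := Wn1_y x y h
      exact ⟨hy', Wn1_mid hx hy hy' (by decide)⟩
  · intro w t x y hx hy
    rcases Wn1_g3 _ (Wn1_q hx hy 0 3 rfl) (Wn1_q hx hy 1 4 rfl) (Wn1_q hx hy 2 5 rfl) with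
      ⟨s, h⟩ | h | h
    · refine Or.inl ⟨s, ?_⟩
      rw [mul_assoc]
      exact Wn1_y x y h
    · refine Or.inr (Or.inl ?_)
      rw [mul_assoc]
      exact Wn1_y x y h
    · refine Or.inr (Or.inr ?_)
      have hy' := Wn1_y x y h
      refine ⟨by rw [hy']; group, ?_⟩
      rw [mul_assoc]
      exact Wn1_mid hx hy hy' (by decide)
  · intro w t y _ h1 h3
    have e : t + 3 = t + 1 + 2 := rfl
    rw [e] at h3
    have h4 := Wn1_eq h1 h3 3 5 rfl
    have h5 : (y * rho * sig * rho) 3 = y 1 := by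
      simp only [Equiv.Perm.mul_apply]
      congr 1
    have h6 : (y * rho) 5 = y 0 := by
      simp only [Equiv.Perm.mul_apply]
      congr 1
    rw [h5, h6] at h4
    exact absurd (y.injective h4) (by decide)
  · intro w hw x
    obtain ⟨s, r, hsr⟩ := hw (List.ofFn x) (List.nodup_ofFn.2 x.injective) (by simp)
    refine ⟨s.length, fun i => ?_⟩
    rw [← hsr, List.append_assoc, List.getElem?_append_right (by omega)]
    have e : s.length + i.val - s.length = i.val := by omega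
    rw [e, List.getElem?_append_left (by rw [List.length_ofFn]; exact i.2), List.getElem?_ofFn,
      dif_pos i.2]

end Pool.Agent.Lib.MP_e0d433_co.Six
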